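import Pool.Agent.Work.MP_d266e7_co.P24Q.QDefs
import Mathlib.Logic.Equiv.Fintype

/-!
A finite check (verified by a separate enumeration). Six different 3-subsets of `Fin 6`, pairwise
meeting, at most five of them avoid a point, at most two contain a pair of points: some triple
with one set of each class covers everything. Suggested: encode the sets as numbers below 64, run
nested `List.all` over the twenty codes in the order p1 q1 r1 r2 p2 q2 with pruning at each level
(`Nat.land`, `Nat.lor`, `Nat.testBit`), `decide +kernel`; or reduce to `p1 = {0, 1, 2}` first; or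
a proof by hand: a set meets at most three others in two points, so some `p`, `q` meet in one
point and both `r` avoid the missing point, and so on.
-/

namespace Pool.Agent.Work.MP_d266e7_co.C5.P24

open Finset

variable {V : Type} [DecidableEq V]

def qrain_L : List ℕ :=
  [7, 11, 13, 14, 19, 21, 22, 25, 26, 28, 35, 37, 38, 41, 42, 44, 49, 50, 52, 56]

def qrain_o2 (a x : ℕ) : Bool := !(Nat.beq a x) && !(Nat.beq (Nat.land a x) 0)

def qrain_o3 (a b x : ℕ) : Bool :=
  Nat.beq (Nat.land (Nat.land (Nat.land a b) x) (Nat.land (Nat.land a b) x - 1)) 0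

def qrain_cv (a b x : ℕ) : Bool := Nat.beq (Nat.lor (Nat.lor a b) x) 63

def qrain_c5 (p q r s t : ℕ) (l : List ℕ) : Bool :=
  l.all fun u => !(qrain_o2 t u) || qrain_cv p r u || qrain_cv p s u || qrain_cv t r u ||
    qrain_cv t s u ||
    !(Nat.beq (Nat.lor (Nat.lor (Nat.lor (Nat.lor (Nat.lor p q) r) s) t) u) 63) ||
    !(qrain_o3 p t u && qrain_o3 q t u && qrain_o3 r t u && qrain_o3 s t u)

def qrain_c4 (p q r s : ℕ) (l : List ℕ) : Bool :=
  l.all fun t => qrain_cv t q r || qrain_cv t q s || qrain_c5 p q r s t l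

def qrain_c3 (p q r : ℕ) (l : List ℕ) : Bool :=
  l.all fun s => qrain_cv p q s || qrain_c4 p q r s
    (l.filter fun x => qrain_o2 s x && qrain_o3 p s x && qrain_o3 q s x && qrain_o3 r s x)

def qrain_c2 (p q : ℕ) (l : List ℕ) : Bool :=
  l.all fun r => qrain_cv p q r || qrain_c3 p q r
    (l.filter fun x => qrain_o2 r x && qrain_o3 p r x && qrain_o3 q r x)

def qrain_c1 (p : ℕ) (l : List ℕ) : Bool :=
  l.all fun q => qrain_c2 p q (l.filter fun x => qrain_o2 q x && qrain_o3 p q x)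

theorem qrain_chk : qrain_c1 7 (qrain_L.filter (qrain_o2 7)) = true := by
  decide +kernel

theorem qrain_code : ∀ s : Finset (Fin 6), s.card = 3 →
    ∃ n ∈ qrain_L, ∀ p : Fin 6, n.testBit p = true ↔ p ∈ s := by
  decide +kernel

theorem qrain_lt : ∀ n ∈ qrain_L, n < 2 ^ 6 := by decide +kernel

theorem qrain_seven : ∀ n ∈ qrain_L,
    (∀ p : Fin 6, n.testBit p = true ↔ p ∈ ({0, 1, 2} : Finset (Fin 6))) → n = 7 := by
  decide +kernel

theorem qrain_small : ∀ y < 2 ^ 6, (∀ p q : Fin 6, y.testBit p = true → y.testBit q = true → p = q) →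
    Nat.beq (Nat.land y (y - 1)) 0 = true := by
  decide +kernel

theorem qrain_full : ∀ y < 2 ^ 6, (∀ p : Fin 6, y.testBit p = true) → Nat.beq y 63 = true := by
  decide +kernel

theorem qrain_main (n : Fin 6 → ℕ) (hL : ∀ i, n i ∈ qrain_L) (h0 : n 0 = 7)
    (h2 : ∀ i j, i ≠ j → qrain_o2 (n i) (n j) = true)
    (h3 : ∀ i j k, i ≠ j → i ≠ k → j ≠ k → qrain_o3 (n i) (n j) (n k) = true)
    (hu : Nat.beq (Nat.lor (Nat.lor (Nat.lor (Nat.lor (Nat.lor (n 0) (n 2)) (n 4)) (n 5)) (n 1))
      (n 3)) 63 = true) :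
    ∃ i ∈ ({0, 1} : Finset (Fin 6)), ∃ j ∈ ({2, 3} : Finset (Fin 6)),
      ∃ k ∈ ({4, 5} : Finset (Fin 6)),
        qrain_cv (n i) (n j) (n k) = true ∨ qrain_cv (n i) (n k) (n j) = true := by
  by_contra hc
  simp only [not_exists, not_and, not_or, Bool.not_eq_true, mem_insert, mem_singleton,
    forall_eq_or_imp, forall_eq] at hc
  have c1 := qrain_chk
  rw [← h0] at c1
  have c2 := List.all_eq_true.1 c1 (n 2) (by simp [hL, h2])
  have c3 := List.all_eq_true.1 c2 (n 4) (by simp [hL, h2, h3])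
  rw [hc.1.1.1.1, Bool.false_or] at c3
  have c4 := List.all_eq_true.1 c3 (n 5) (by simp [hL, h2, h3])
  rw [hc.1.1.2.1, Bool.false_or] at c4
  have c5 := List.all_eq_true.1 c4 (n 1) (by simp [hL, h2, h3])
  rw [hc.2.1.1.1, hc.2.1.2.1, Bool.false_or, Bool.false_or] at c5
  have c6 := List.all_eq_true.1 c5 (n 3) (by simp [hL, h2, h3])
  rw [hu] at c6
  simp [hc, h2, h3] at c6

theorem rain222 (f : Fin 6 → Finset (Fin 6)) (hinj : Function.Injective f)
    (h3 : ∀ i, (f i).card = 3) (hmeet : ∀ i j, (f i ∩ f j).Nonempty)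
    (hav : ∀ p : Fin 6, ∃ i, p ∈ f i)
    (hco : ∀ p q : Fin 6, p ≠ q → (univ.filter fun i => p ∈ f i ∧ q ∈ f i).card ≤ 2) :
    ∃ i ∈ ({0, 1} : Finset (Fin 6)), ∃ j ∈ ({2, 3} : Finset (Fin 6)),
      ∃ k ∈ ({4, 5} : Finset (Fin 6)), f i ∪ f j ∪ f k = univ := by
  obtain ⟨σ, hσ⟩ : ∃ σ : Equiv.Perm (Fin 6), (f 0).map σ.toEmbedding = {0, 1, 2} :=
    Equiv.Perm.exists_map_finset_eq _ _ (h3 0)
  choose n hL hn using fun i => qrain_code ((f i).map σ.toEmbedding) ((card_map _).trans (h3 i))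
  have h0 : n 0 = 7 := qrain_seven _ (hL 0) (hσ ▸ hn 0)
  simp only [mem_map_equiv] at hn
  have hlt := fun i => qrain_lt _ (hL i)
  obtain ⟨i, hi, j, hj, k, hk, h⟩ := qrain_main n hL h0
    (fun i j hij => by
      simp only [qrain_o2, Bool.and_eq_true, Bool.not_eq_true', Bool.eq_false_iff, ne_eq, Nat.beq_eq]
      refine ⟨fun e => hij (hinj (Finset.ext fun p => ?_)), fun e => ?_⟩
      · have h1 := hn i (σ p)
        rw [e, hn j] at h1
        simpa using h1.symm
      · obtain ⟨p, hp⟩ := hmeet i j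
        have h1 : (n i &&& n j).testBit (σ p) = true := by
          simpa [Nat.testBit_and, hn] using hp
        rw [show n i &&& n j = 0 from e] at h1
        simp at h1)
    (fun i j k hij hik hjk => qrain_small (n i &&& n j &&& n k) (Nat.and_lt_two_pow _ (hlt k))
      fun p q hp hq => by
        by_contra hpq
        simp only [Nat.testBit_and, Bool.and_eq_true, hn] at hp hq
        have h1 := hco _ _ (σ.symm.injective.ne hpq)
        exact absurd (two_lt_card_iff.2 ⟨i, j, k, by simp [hp, hq], by simp [hp, hq], by simp [hp, hq],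
          hij, hik, hjk⟩) (not_lt.2 h1))
    (qrain_full (n 0 ||| n 2 ||| n 4 ||| n 5 ||| n 1 ||| n 3)
      (Nat.or_lt_two_pow (Nat.or_lt_two_pow (Nat.or_lt_two_pow (Nat.or_lt_two_pow
        (Nat.or_lt_two_pow (hlt _) (hlt _)) (hlt _)) (hlt _)) (hlt _)) (hlt _)) fun p => by
        obtain ⟨i, hi⟩ := hav (σ.symm p)
        simp only [Nat.testBit_or, Bool.or_eq_true, hn]
        have h1 : ∀ i : Fin 6, i = 0 ∨ i = 1 ∨ i = 2 ∨ i = 3 ∨ i = 4 ∨ i = 5 := by decide
        rcases h1 i with rfl | rfl | rfl | rfl | rfl | rfl <;> simp [hi])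
  have key : ∀ a b c, qrain_cv (n a) (n b) (n c) = true → f a ∪ f b ∪ f c = univ := by
    intro a b c e
    have e' : n a ||| n b ||| n c = 63 := Nat.eq_of_beq_eq_true e
    refine eq_univ_of_forall fun p => ?_
    have h1 : ∀ q : Fin 6, (63 : ℕ).testBit q = true := by decide
    simpa [← e', Nat.testBit_or, hn, or_assoc] using h1 (σ p)
  exact ⟨i, hi, j, hj, k, hk, h.elim (key i j k) fun h =>
    (union_right_comm _ _ _).trans (key i k j h)⟩

end Pool.Agent.Work.MP_d266e7_co.C5.P24
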