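import Pool.Agent.Work.MP_d266e7_co.P24Q.QE10a
import Pool.Agent.Work.MP_d266e7_co.P24Q.QRain

/-!
Use `e10_deg`, `e10_meet`. A member avoids exactly five of the ten vertices. `Abs2`: for `v = w`
use `exists_cover_mem`; if the stars of `v ≠ w` share one member, one member is left, add any of
its vertices; if they share two members, two members `p`, `q` are left and they meet (two disjoint
members would contain all ten vertices, also `v`), add a common vertex. `e10_codeg`: if `p ≠ q`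
have `k ≥ 3` common vertices then `k` vertices avoid both; the star of such a vertex lies in the
four other members and meets the stars `{p, q, a}` of three common vertices (different `a`, no
parallel vertices), so it is `{a, b, c}`; two such vertices are parallel. `Rain 1 4 4`: `P ∋ v`;
the twelve incidences of the members of the star of `v` with the nine other vertices, each at
least one, show that at most three vertices share two members with `v`; so some `w ∈ Q` shares
exactly one, one member `p` is left, and only three vertices other than `v`, `w` avoid `p`, so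
some vertex of `R` lies in `p`. `Rain 2 2 2`: `exists_enum` for the members, `f i = univ.filter
(fun a => b i ∈ q a)` for the six chosen vertices `b i`, then `rain222` (a member cannot avoid six
vertices).
-/

namespace Pool.Agent.Work.MP_d266e7_co.C5.P24

open Finset

variable {V : Type} [DecidableEq V]

theorem qe10b_sub {H : Finset (Finset V)} {e : Finset V} (he : e ∈ H) : e ⊆ cov H :=
  fun _ hv => mem_cov.2 ⟨e, he, hv⟩

theorem qe10b_avoid {H : Finset (Finset V)} (h5 : U5 H) (hn : (cov H).card = 10) {e : Finset V}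
    (he : e ∈ H) : (cov H \ e).card = 5 := by
  rw [card_sdiff_of_subset (qe10b_sub he), hn, h5 e he]

theorem qe10b_star3 {H : Finset (Finset V)} {p q : Finset V} (hp : p ∈ H) (hq : q ∈ H)
    (hpq : p ≠ q) {x : V} (hx : x ∈ p ∩ q) (hd : dg H x = 3) : ∃ a, star H x = {a, p, q} := by
  have h1 : ({p, q} : Finset (Finset V)) ⊆ star H x := by
    intro e he
    rcases mem_insert.1 he with rfl | he
    · exact mem_star.2 ⟨hp, (mem_inter.1 hx).1⟩
    · rw [mem_singleton.1 he]
      exact mem_star.2 ⟨hq, (mem_inter.1 hx).2⟩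
  have h2 : (star H x \ {p, q}).card = 1 := by
    rw [card_sdiff_of_subset h1, card_pair hpq]
    unfold dg at hd
    omega
  obtain ⟨a, ha⟩ := card_eq_one.1 h2
  exact ⟨a, by rw [← sdiff_union_of_subset h1, ha]; rfl⟩

theorem qe10b_left {H : Finset (Finset V)} (hm : H.card = 6) {v w : V} (hv : dg H v = 3)
    (hw : dg H w = 3) : (H \ (star H v ∪ star H w)).card = (star H v ∩ star H w).card := by
  have h1 : star H v ∪ star H w ⊆ H := union_subset (filter_subset _ _) (filter_subset _ _)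
  have h2 := card_union_add_card_inter (star H v) (star H w)
  unfold dg at hv hw
  rw [card_sdiff_of_subset h1]
  omega

theorem qe10b_fin {H : Finset (Finset V)} (ht : tau H = 3) {v w u : V}
    (h : ∀ e ∈ H \ (star H v ∪ star H w), u ∈ e) :
    Hits {v, w, u} H ∧ ({v, w, u} : Finset V).card ≤ tau H := by
  refine ⟨fun e he => ?_, ht ▸ card_le_three⟩
  by_cases h1 : v ∈ e
  · exact ⟨v, h1, by simp⟩
  by_cases h2 : w ∈ e
  · exact ⟨w, h2, by simp⟩
  refine ⟨u, h e (mem_sdiff.2 ⟨he, fun h3 => ?_⟩), by simp⟩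
  rcases mem_union.1 h3 with h3 | h3
  · exact h1 (mem_star.1 h3).2
  · exact h2 (mem_star.1 h3).2

theorem qe10b_out {H : Finset (Finset V)} {v w : V} {e : Finset V}
    (h : e ∈ H \ (star H v ∪ star H w)) : e ∈ H ∧ v ∉ e ∧ w ∉ e := by
  obtain ⟨h1, h2⟩ := mem_sdiff.1 h
  exact ⟨h1, fun h3 => h2 (mem_union_left _ (mem_star.2 ⟨h1, h3⟩)),
    fun h3 => h2 (mem_union_right _ (mem_star.2 ⟨h1, h3⟩))⟩

theorem e10_codeg {H : Finset (Finset V)} (h5 : U5 H) (h3 : ∀ v, dg H v ≤ 3) (hm : H.card = 6)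
    (hn : (cov H).card = 10) (ht : tau H = 3)
    (hp : ∀ v ∈ cov H, ∀ w, star H v = star H w → v = w) {p q : Finset V} (hp' : p ∈ H)
    (hq : q ∈ H) (hpq : p ≠ q) : (p ∩ q).card ≤ 2 := by
  by_contra hlt
  have hk : 2 < (p ∩ q).card := not_le.1 hlt
  obtain ⟨x1, x2, x3, m1, m2, m3, n12, n13, n23⟩ := two_lt_card_iff.1 hk
  have hc : ∀ x ∈ p ∩ q, x ∈ cov H := fun x hx => qe10b_sub hp' (mem_inter.1 hx).1
  obtain ⟨a1, e1⟩ := qe10b_star3 hp' hq hpq m1 (e10_deg h5 h3 hm hn (hc _ m1))
  obtain ⟨a2, e2⟩ := qe10b_star3 hp' hq hpq m2 (e10_deg h5 h3 hm hn (hc _ m2))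
  obtain ⟨a3, e3⟩ := qe10b_star3 hp' hq hpq m3 (e10_deg h5 h3 hm hn (hc _ m3))
  have d12 : a1 ≠ a2 := fun e => n12 (hp _ (hc _ m1) _ (by rw [e1, e2, e]))
  have d13 : a1 ≠ a3 := fun e => n13 (hp _ (hc _ m1) _ (by rw [e1, e3, e]))
  have d23 : a2 ≠ a3 := fun e => n23 (hp _ (hc _ m2) _ (by rw [e2, e3, e]))
  have key : ∀ z ∈ cov H \ (p ∪ q), star H z = {a1, a2, a3} := by
    intro z hz
    obtain ⟨z1, z2⟩ := mem_sdiff.1 hz
    have k : ∀ x ∈ p ∩ q, ∀ a, star H x = {a, p, q} → a ∈ star H z := by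
      intro x hx a ha
      obtain ⟨e, he, f1, f2⟩ := e10_meet h5 h3 hm hn ht z1 (hc x hx)
      have f3 : e ∈ star H x := mem_star.2 ⟨he, f2⟩
      rw [ha] at f3
      simp only [mem_insert, mem_singleton] at f3
      rcases f3 with rfl | rfl | rfl
      · exact mem_star.2 ⟨he, f1⟩
      · exact absurd (mem_union_left _ f1) z2
      · exact absurd (mem_union_right _ f1) z2
    symm
    refine eq_of_subset_of_card_le ?_ ?_
    · intro e he
      simp only [mem_insert, mem_singleton] at he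
      rcases he with rfl | rfl | rfl
      · exact k _ m1 _ e1
      · exact k _ m2 _ e2
      · exact k _ m3 _ e3
    · rw [card_eq_three.2 ⟨a1, a2, a3, d12, d13, d23, rfl⟩]
      exact h3 z
  have h1 : 1 < (cov H \ (p ∪ q)).card := by
    have h2 := card_union_add_card_inter p q
    rw [h5 p hp', h5 q hq] at h2
    rw [card_sdiff_of_subset (union_subset (qe10b_sub hp') (qe10b_sub hq))]
    omega
  obtain ⟨z, hz, z', hz', hne⟩ := one_lt_card.1 h1
  exact hne (hp z (mem_sdiff.1 hz).1 z' (by rw [key z hz, key z' hz']))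

theorem qe10b_abs {H : Finset (Finset V)} (h : CC H) (h3 : ∀ v, dg H v ≤ 3) (hm : H.card = 6)
    (hn : (cov H).card = 10) (ht : tau H = 3)
    (hp : ∀ v ∈ cov H, ∀ w, star H v = star H w → v = w) : Abs2 H := by
  intro v hv w hw
  by_cases hvw : v = w
  · obtain ⟨C, c1, c2, c3⟩ := exists_cover_mem h hv
    exact ⟨C, c1, c2.le, c3, hvw ▸ c3⟩
  have dv := e10_deg h.u5 h3 hm hn hv
  have dw := e10_deg h.u5 h3 hm hn hw
  have hl := qe10b_left hm dv dw
  suffices k : ∃ u, ∀ e ∈ H \ (star H v ∪ star H w), u ∈ e by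
    obtain ⟨u, hu⟩ := k
    exact ⟨_, (qe10b_fin ht hu).1, (qe10b_fin ht hu).2, by simp, by simp⟩
  have h1 : (star H v ∩ star H w).card ≤ 2 := by
    by_contra hlt
    unfold dg at dv dw
    have e1 := eq_of_subset_of_card_le (inter_subset_left (s₁ := star H v) (s₂ := star H w))
      (by omega)
    have e2 := eq_of_subset_of_card_le (inter_subset_right (s₁ := star H v) (s₂ := star H w))
      (by omega)
    exact hvw (hp v hv w (e1.symm.trans e2))
  have h2 : 0 < (star H v ∩ star H w).card := by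
    obtain ⟨e, he, f1, f2⟩ := e10_meet h.u5 h3 hm hn ht hv hw
    exact card_pos.2 ⟨e, mem_inter.2 ⟨mem_star.2 ⟨he, f1⟩, mem_star.2 ⟨he, f2⟩⟩⟩
  by_cases h4 : (H \ (star H v ∪ star H w)).card = 1
  · obtain ⟨p, e⟩ := card_eq_one.1 h4
    obtain ⟨u, hu⟩ := h.u5.ne p (qe10b_out (e ▸ mem_singleton_self p)).1
    exact ⟨u, fun f hf => by rw [e, mem_singleton] at hf; exact hf ▸ hu⟩
  · obtain ⟨p, q, hpq, e⟩ := card_eq_two.1
      (show (H \ (star H v ∪ star H w)).card = 2 by omega)
    obtain ⟨p1, p2, -⟩ := qe10b_out (show p ∈ H \ (star H v ∪ star H w) by simp [e])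
    obtain ⟨q1, q2, -⟩ := qe10b_out (show q ∈ H \ (star H v ∪ star H w) by simp [e])
    have h5 : 0 < (p ∩ q).card := by
      have k1 := card_union_add_card_inter p q
      rw [h.u5 p p1, h.u5 q q1] at k1
      have k2 : p ∪ q ⊆ (cov H).erase v := fun x hx => mem_erase.2
        ⟨fun e => by rw [e] at hx; exact (mem_union.1 hx).elim p2 q2,
          union_subset (qe10b_sub p1) (qe10b_sub q1) hx⟩
      have k3 := card_le_card k2
      rw [card_erase_of_mem hv] at k3
      omega
    obtain ⟨u, hu⟩ := card_pos.1 h5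
    refine ⟨u, fun f hf => ?_⟩
    rw [e] at hf
    rcases mem_insert.1 hf with rfl | hf
    · exact (mem_inter.1 hu).1
    · rw [mem_singleton.1 hf]
      exact (mem_inter.1 hu).2

theorem qe10b_144 {H : Finset (Finset V)} (h5 : U5 H) (h3 : ∀ v, dg H v ≤ 3) (hm : H.card = 6)
    (hn : (cov H).card = 10) (ht : tau H = 3) : Rain H 1 4 4 := by
  intro P Q R hP hQ hR dPQ dPR dQR cP cQ cR
  obtain ⟨v, hv⟩ := card_pos.1 (show 0 < P.card from cP)
  have vc := hP hv
  have dv := e10_deg h5 h3 hm hn vc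
  have hs : ∑ w ∈ cov H, (star H v ∩ star H w).card = 15 := by
    have e1 : ∀ w, (star H v ∩ star H w).card = ∑ e ∈ star H v, if w ∈ e then 1 else 0 := by
      intro w
      rw [← card_filter]
      congr 1
      ext e
      simp only [mem_inter, mem_star, mem_filter]
      tauto
    simp only [e1]
    rw [sum_comm]
    have e2 : ∀ e ∈ star H v, (∑ w ∈ cov H, if w ∈ e then 1 else 0) = 5 := by
      intro e he
      have he' := (mem_star.1 he).1
      rw [← card_filter, filter_mem_eq_inter, inter_eq_right.2 (qe10b_sub he'), h5 e he']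
    rw [sum_congr rfl e2, sum_const, Nat.nsmul_eq_mul]
    unfold dg at dv
    omega
  have h1 : ∀ w ∈ cov H, 1 ≤ (star H v ∩ star H w).card := by
    intro w hw
    obtain ⟨e, he, f1, f2⟩ := e10_meet h5 h3 hm hn ht vc hw
    exact card_pos.2 ⟨e, mem_inter.2 ⟨mem_star.2 ⟨he, f1⟩, mem_star.2 ⟨he, f2⟩⟩⟩
  have vQ : v ∉ Q := disjoint_left.1 dPQ hv
  obtain ⟨w, hw, h2⟩ : ∃ w ∈ Q, (star H v ∩ star H w).card = 1 := by
    by_contra hc
    push Not at hc
    have s1 : insert v Q ⊆ cov H := insert_subset vc hQ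
    rw [← sum_sdiff s1, sum_insert vQ, inter_self] at hs
    have k1 := card_nsmul_le_sum (cov H \ insert v Q) (fun w => (star H v ∩ star H w).card) 1
      fun w hw => h1 w (mem_sdiff.1 hw).1
    have k2 := card_nsmul_le_sum Q (fun w => (star H v ∩ star H w).card) 2 fun w hw => by
      have := h1 w (hQ hw)
      have := hc w hw
      omega
    have k3 := card_le_card s1
    rw [card_sdiff_of_subset s1] at k1
    rw [card_insert_of_notMem vQ] at k1 k3
    simp only [Nat.nsmul_eq_mul] at k1 k2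
    unfold dg at dv
    omega
  rw [← qe10b_left hm dv (e10_deg h5 h3 hm hn (hQ hw))] at h2
  obtain ⟨p, e⟩ := card_eq_one.1 h2
  obtain ⟨p1, p2, p3⟩ := qe10b_out (show p ∈ H \ (star H v ∪ star H w) by simp [e])
  obtain ⟨u, hu, hup⟩ : ∃ u ∈ R, u ∈ p := by
    by_contra hc
    push Not at hc
    have k1 : insert v (insert w R) ⊆ cov H \ p :=
      insert_subset (mem_sdiff.2 ⟨vc, p2⟩) (insert_subset (mem_sdiff.2 ⟨hQ hw, p3⟩)
        fun u hu => mem_sdiff.2 ⟨hR hu, hc u hu⟩)
    have k2 := card_le_card k1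
    have k3 : v ∉ insert w R := by
      rw [mem_insert, not_or]
      exact ⟨fun e => vQ (e ▸ hw), disjoint_left.1 dPR hv⟩
    rw [qe10b_avoid h5 hn p1, card_insert_of_notMem k3,
      card_insert_of_notMem (disjoint_left.1 dQR hw)] at k2
    omega
  have k := qe10b_fin ht (v := v) (w := w) (u := u) fun f hf => by
    rw [e, mem_singleton] at hf
    exact hf ▸ hup
  exact ⟨_, k.1, k.2, ⟨v, hv, by simp⟩, ⟨w, hw, by simp⟩, u, hu, by simp⟩

theorem qe10b_222 {H : Finset (Finset V)} (h5 : U5 H) (h3 : ∀ v, dg H v ≤ 3) (hm : H.card = 6)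
    (hn : (cov H).card = 10) (ht : tau H = 3)
    (hp : ∀ v ∈ cov H, ∀ w, star H v = star H w → v = w) : Rain H 2 2 2 := by
  intro P Q R hP hQ hR dPQ dPR dQR cP cQ cR
  obtain ⟨b0, m0, b1, m1, n01⟩ := one_lt_card.1 (show 1 < P.card from cP)
  obtain ⟨b2, m2, b3, m3, n23⟩ := one_lt_card.1 (show 1 < Q.card from cQ)
  obtain ⟨b4, m4, b5, m5, n45⟩ := one_lt_card.1 (show 1 < R.card from cR)
  rw [disjoint_iff_ne] at dPQ dPR dQR
  obtain ⟨b, bi, bc, e0, e1, e2, e3, e4, e5⟩ : ∃ b : Fin 6 → V, Function.Injective b ∧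
      (∀ i, b i ∈ cov H) ∧ b 0 ∈ P ∧ b 1 ∈ P ∧ b 2 ∈ Q ∧ b 3 ∈ Q ∧ b 4 ∈ R ∧ b 5 ∈ R := by
    refine ⟨fun i => [b0, b1, b2, b3, b4, b5].get i, ?_, ?_, m0, m1, m2, m3, m4, m5⟩
    · refine (List.nodup_iff_injective_get (l := [b0, b1, b2, b3, b4, b5])).1 ?_
      simp [n01, n23, n45, dPQ _ m0 _ m2, dPQ _ m0 _ m3, dPQ _ m1 _ m2, dPQ _ m1 _ m3,
        dPR _ m0 _ m4, dPR _ m0 _ m5, dPR _ m1 _ m4, dPR _ m1 _ m5, dQR _ m2 _ m4, dQR _ m2 _ m5,
        dQR _ m3 _ m4, dQR _ m3 _ m5]
    · intro i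
      have k := List.get_mem [b0, b1, b2, b3, b4, b5] i
      simp only [List.mem_cons, List.not_mem_nil, or_false] at k
      rcases k with k | k | k | k | k | k <;> simp only [k]
      exacts [hP m0, hP m1, hQ m2, hQ m3, hR m4, hR m5]
  obtain ⟨q, qi, q1, q2⟩ := exists_enum hm
  have hs : ∀ i, star H (b i) = (univ.filter fun a => b i ∈ q a).image q := by
    intro i
    ext e
    simp only [mem_star, mem_image, mem_filter, mem_univ, true_and]
    constructor
    · rintro ⟨k1, k2⟩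
      obtain ⟨a, rfl⟩ := q2 e k1
      exact ⟨a, k2, rfl⟩
    · rintro ⟨a, k1, rfl⟩
      exact ⟨q1 a, k1⟩
  obtain ⟨i, hi, j, hj, k, hk, e⟩ := rain222 (fun i => univ.filter fun a => b i ∈ q a)
    (fun i j e => bi (hp _ (bc i) _ (by rw [hs, hs]; exact congrArg (image q) e)))
    (fun i => by
      have := e10_deg h5 h3 hm hn (bc i)
      rwa [dg, hs, card_image_of_injective _ qi] at this)
    (fun i j => by
      obtain ⟨e, he, f1, f2⟩ := e10_meet h5 h3 hm hn ht (bc i) (bc j)
      obtain ⟨a, rfl⟩ := q2 e he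
      exact ⟨a, by simp [f1, f2]⟩)
    (fun a => by
      by_contra hc
      push Not at hc
      have k1 : univ.image b ⊆ cov H \ q a := by
        intro x hx
        obtain ⟨i, -, rfl⟩ := mem_image.1 hx
        exact mem_sdiff.2 ⟨bc i, by simpa using hc i⟩
      have k2 := card_le_card k1
      rw [qe10b_avoid h5 hn (q1 a), card_image_of_injective _ bi] at k2
      simp at k2)
    (fun a a' hne => by
      refine le_trans (card_le_card_of_injOn b (fun i hi => ?_) bi.injOn)
        (e10_codeg h5 h3 hm hn ht hp (q1 a) (q1 a') fun e => hne (qi e))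
      simpa using hi)
  refine ⟨{b i, b j, b k}, fun f hf => ?_, ht ▸ card_le_three, ⟨b i, ?_, by simp⟩,
    ⟨b j, ?_, by simp⟩, b k, ?_, by simp⟩
  · obtain ⟨a, rfl⟩ := q2 f hf
    have k1 := e ▸ mem_univ a
    simp only [mem_union, mem_filter, mem_univ, true_and] at k1
    rcases k1 with (k1 | k1) | k1
    · exact ⟨_, k1, by simp⟩
    · exact ⟨_, k1, by simp⟩
    · exact ⟨_, k1, by simp⟩
  · rcases mem_insert.1 hi with rfl | hi
    · exact e0
    · exact mem_singleton.1 hi ▸ e1
  · rcases mem_insert.1 hj with rfl | hj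
    · exact e2
    · exact mem_singleton.1 hj ▸ e3
  · rcases mem_insert.1 hk with rfl | hk
    · exact e4
    · exact mem_singleton.1 hk ▸ e5

theorem e10_of {H : Finset (Finset V)} (h : CC H) (h3 : ∀ v, dg H v ≤ 3) (hm : H.card = 6)
    (hn : (cov H).card = 10) (ht : tau H = 3)
    (hp : ∀ v ∈ cov H, ∀ w, star H v = star H w → v = w) : E10 H :=
  ⟨hm, hn, ht, fun _ hv => e10_deg h.u5 h3 hm hn hv, qe10b_abs h h3 hm hn ht hp,
    qe10b_222 h.u5 h3 hm hn ht hp, qe10b_144 h.u5 h3 hm hn ht⟩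

theorem e10_class {H : Finset (Finset V)} (h : CC H) (h3 : ∀ v, dg H v ≤ 3) (hm : H.card = 6)
    (hn : (cov H).card = 10) (ht : tau H = 3) : 2 ≤ hi H H ∨ E10 H := by
  by_cases c : ∀ v ∈ cov H, ∀ w, star H v = star H w → v = w
  · exact Or.inr (e10_of h h3 hm hn ht c)
  · push Not at c
    obtain ⟨v, hv, w, hs, hvw⟩ := c
    exact Or.inl (e10_par h.u5 h3 hm hn ht hv hvw hs)

end Pool.Agent.Work.MP_d266e7_co.C5.P24
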