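import Pool.Agent.Work.MP_d266e7_co.P24Q.QDefs

/-!
Same proof as `nlemma` (C5/NLem.lean) with capacities `k W = if W ∈ G then 2 else 1`. Take a
nonempty `K ⊆ F`, minimal in cardinality with `|nlem_nb H F K| ≤ ∑ W ∈ K, k W`. Hall for the hosts
`x ∈ nlem_nb H F K` with the sets `{(W, i) : W ∈ K, 1 ≤ dd W x, i < k W}` in `Finset (Finset V) ×
Fin 2` (or `× Bool`): a violating set `s` with adjacent pieces `B` has `∑ W ∈ B, k W < |s|`, and
`K \ B` is a smaller nonempty violator. With the matching every piece gets at most one host, or at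
most two if it lies in `G`, and a minimum transversal of the piece meets them (`exists_cover_mem`,
`Abs2`). The end is as in `nlemma`.
-/

namespace Pool.Agent.Work.MP_d266e7_co.C5.P24

open Finset

variable {V : Type} [DecidableEq V]

/-- the slots of the pieces of `K`: one for each piece, a second one for the pieces in `G` -/
def qn_sl (G K : Finset (Finset (Finset V))) : Finset (Finset (Finset V) × Bool) :=
  K ×ˢ {false} ∪ (K ∩ G) ×ˢ {true}

theorem qn_mem {G K : Finset (Finset (Finset V))} {p : Finset (Finset V) × Bool} :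
    p ∈ qn_sl G K ↔ p.1 ∈ K ∧ (p.2 = true → p.1 ∈ G) := by
  obtain ⟨W, b⟩ := p
  cases b <;> simp [qn_sl]

theorem qn_card (G K : Finset (Finset (Finset V))) :
    (qn_sl G K).card = K.card + (K ∩ G).card := by
  rw [qn_sl, card_union_of_disjoint, card_product, card_product]
  · simp
  · rw [disjoint_left]
    rintro ⟨W, b⟩ h1 h2
    simp only [mem_product, mem_singleton] at h1 h2
    exact Bool.false_ne_true (h1.2.symm.trans h2.2)

theorem qn_hall {H : Finset (Finset V)} {F G K : Finset (Finset (Finset V))} (hK : K ⊆ F)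
    (hle : (nlem_nb H F K).card ≤ (qn_sl G K).card)
    (hmin : ∀ K' ⊆ F, K'.Nonempty → (nlem_nb H F K').card ≤ (qn_sl G K').card →
      K.card ≤ K'.card) :
    ∃ f : nlem_nb H F K → Finset (Finset V) × Bool, Function.Injective f ∧
      ∀ x, f x ∈ qn_sl G K ∧ 1 ≤ dd (f x).1 x.1 := by
  have key := (all_card_le_biUnion_card_iff_exists_injective
    (fun x : nlem_nb H F K => (qn_sl G K).filter fun p => 1 ≤ dd p.1 x.1)).1 fun s => ?_
  · obtain ⟨f, h1, h2⟩ := key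
    exact ⟨f, h1, fun x => mem_filter.1 (h2 x)⟩
  by_contra hlt
  rw [not_le] at hlt
  obtain ⟨B, hB⟩ : ∃ B, B = s.biUnion fun x : nlem_nb H F K => K.filter fun W => 1 ≤ dd W x.1 :=
    ⟨_, rfl⟩
  have mB : ∀ W, W ∈ B ↔ ∃ x ∈ s, W ∈ K ∧ 1 ≤ dd W x.1 := fun W => by
    simp only [hB, mem_biUnion, mem_filter]
  have hsl : (qn_sl G B).card ≤ (s.biUnion
      fun x : nlem_nb H F K => (qn_sl G K).filter fun p => 1 ≤ dd p.1 x.1).card :=
    card_le_card fun p hp => by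
      obtain ⟨h1, h2⟩ := qn_mem.1 hp
      obtain ⟨x, hx, h3, h4⟩ := (mB _).1 h1
      exact mem_biUnion.2 ⟨x, hx, mem_filter.2 ⟨qn_mem.2 ⟨h3, h2⟩, h4⟩⟩
  have hBG : B ⊆ K := fun W hW => by
    obtain ⟨x, -, h, -⟩ := (mB W).1 hW
    exact h
  have hBp : 0 < B.card := by
    obtain ⟨x, hx⟩ := card_pos.1 (lt_of_le_of_lt (Nat.zero_le _) hlt)
    obtain ⟨-, W, hW, hd⟩ := nlem_mem.1 x.2
    exact card_pos.2 ⟨W, (mB W).2 ⟨x, hx, hW, hd⟩⟩
  have h1 : nlem_nb H F (K \ B) ⊆ nlem_nb H F K \ s.map (Function.Embedding.subtype _) :=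
    fun x hx => by
      obtain ⟨h2, W, hW, hd⟩ := nlem_mem.1 hx
      rw [mem_sdiff] at hW ⊢
      refine ⟨nlem_mem.2 ⟨h2, W, hW.1, hd⟩, fun k => ?_⟩
      obtain ⟨y, hy, rfl⟩ := mem_map.1 k
      exact hW.2 ((mB W).2 ⟨y, hy, hW.1, hd⟩)
  have h2 : s.map (Function.Embedding.subtype _) ⊆ nlem_nb H F K := fun x hx => by
    obtain ⟨y, -, rfl⟩ := mem_map.1 hx
    exact y.2
  have h3 := card_le_card h1
  have h4 := card_sdiff_add_card_eq_card h2
  have h5 := card_sdiff_add_card_eq_card hBG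
  have h6 : (qn_sl G K).card ≤ (qn_sl G (K \ B)).card + (qn_sl G B).card :=
    (card_le_card fun p hp => by
      obtain ⟨k1, k2⟩ := qn_mem.1 hp
      by_cases k : p.1 ∈ B
      · exact mem_union_right _ (qn_mem.2 ⟨k, k2⟩)
      · exact mem_union_left _ (qn_mem.2 ⟨mem_sdiff.2 ⟨k1, k⟩, k2⟩)).trans (card_union_le _ _)
  rw [card_map] at h4
  have h7 : (K \ B).Nonempty := by
    obtain ⟨p, hp⟩ := card_pos.1 (show 0 < (qn_sl G (K \ B)).card by omega)
    exact ⟨p.1, (qn_mem.1 hp).1⟩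
  have := hmin (K \ B) (sdiff_subset.trans hK) h7 (by omega)
  omega

theorem qn_pt {W : Finset (Finset V)} {x : Finset V} (h : 1 ≤ dd W x) : ∃ v ∈ x, v ∈ cov W := by
  obtain ⟨v, hv⟩ := card_pos.1 h
  exact ⟨v, (mem_inter.1 hv).1, (mem_inter.1 hv).2⟩

theorem qn_tau {H M : Finset (Finset V)} {G K : Finset (Finset (Finset V))} (hH : NE H)
    (hK : Fam H K) (hE : ∀ W ∈ G, Abs2 W) (f : M → Finset (Finset V) × Bool)
    (hf : Function.Injective f) (h : ∀ x, f x ∈ qn_sl G K ∧ 1 ≤ dd (f x).1 x.1) :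
    tau (un K ∪ M) ≤ tau (un K) := by
  have key : ∀ W ∈ K, ∃ C, Hits C W ∧ C.card ≤ tau W ∧
      ∀ x, (f x).1 = W → ∃ v ∈ x.1, v ∈ C := by
    intro W hW
    have one : ∀ x, (f x).1 = W → (∀ y, (f y).1 = W → y = x) →
        ∃ C, Hits C W ∧ C.card ≤ tau W ∧ ∀ x, (f x).1 = W → ∃ v ∈ x.1, v ∈ C := by
      intro x hx hu
      obtain ⟨v, h1, h2⟩ := qn_pt (h x).2
      obtain ⟨C, c1, c2, c3⟩ := exists_cover_mem (hK.cc W hW) (hx ▸ h2)
      exact ⟨C, c1, c2.le, fun y hy => hu y hy ▸ ⟨v, h1, c3⟩⟩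
    have two : ∀ y, (f y).1 = W → f y = (W, false) ∨ f y = (W, true) := by
      intro y hy
      rcases Bool.eq_false_or_eq_true (f y).2 with k | k
      · exact Or.inr (Prod.ext hy k)
      · exact Or.inl (Prod.ext hy k)
    by_cases k0 : ∃ x, f x = (W, false)
    · obtain ⟨x, hx⟩ := k0
      have hx1 : (f x).1 = W := by rw [hx]
      by_cases k1 : ∃ y, f y = (W, true)
      · obtain ⟨y, hy⟩ := k1
        have hy1 : (f y).1 = W := by rw [hy]
        have hWG : W ∈ G := hy1 ▸ (qn_mem.1 (h y).1).2 (by rw [hy])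
        obtain ⟨v, v1, v2⟩ := qn_pt (h x).2
        obtain ⟨w, w1, w2⟩ := qn_pt (h y).2
        obtain ⟨C, c1, c2, c3, c4⟩ := hE W hWG v (hx1 ▸ v2) w (hy1 ▸ w2)
        refine ⟨C, c1, c2, fun z hz => ?_⟩
        rcases two z hz with k | k
        · rw [hf (k.trans hx.symm)]
          exact ⟨v, v1, c3⟩
        · rw [hf (k.trans hy.symm)]
          exact ⟨w, w1, c4⟩
      · refine one x hx1 fun y hy => ?_
        rcases two y hy with k | k
        · exact hf (k.trans hx.symm)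
        · exact absurd ⟨y, k⟩ k1
    · by_cases k1 : ∃ y, f y = (W, true)
      · obtain ⟨x, hx⟩ := k1
        refine one x (by rw [hx]) fun y hy => ?_
        rcases two y hy with k | k
        · exact absurd ⟨y, k⟩ k0
        · exact hf (k.trans hx.symm)
      · obtain ⟨C, h1, h2⟩ := exists_opt (hH.mono (hK.sub _ hW))
        refine ⟨C, h1, h2.le, fun y hy => ?_⟩
        rcases two y hy with k | k
        · exact absurd ⟨y, k⟩ k0
        · exact absurd ⟨y, k⟩ k1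
  choose! C c1 c2 c3 using key
  rw [hK.tau_un]
  refine (tau_le (T := K.biUnion C) fun e he => ?_).trans (card_biUnion_le.trans (sum_le_sum c2))
  rcases mem_union.1 he with he | he
  · obtain ⟨W, hW, heW⟩ := mem_un.1 he
    obtain ⟨v, h1, h2⟩ := c1 W hW e heW
    exact ⟨v, h1, mem_biUnion.2 ⟨W, hW, h2⟩⟩
  · have h0 := (qn_mem.1 (h ⟨e, he⟩).1).1
    obtain ⟨v, h1, h2⟩ := c3 _ h0 ⟨e, he⟩ rfl
    exact ⟨v, h1, mem_biUnion.2 ⟨_, h0, h2⟩⟩

theorem nlemma2 {H N : Finset (Finset V)} {F G : Finset (Finset (Finset V))} (hH : CC H)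
    (hF : Fam H F) (hG : G ⊆ F) (hE : ∀ W ∈ G, Abs2 W) (hne : F.Nonempty)
    (hx : ∃ x ∈ H, x ∉ un F)
    (hN : ∀ x ∈ H, x ∉ un F → ∀ W ∈ F, 1 ≤ dd W x → x ∈ N) : F.card + G.card + 1 ≤ N.card := by
  by_contra hcon
  have hne' := nlem_ne hH
  have hc := qn_card G F
  rw [inter_eq_right.2 hG] at hc
  obtain ⟨K, ⟨hK, hKn, hle⟩, hmin⟩ := exists_min'
    (fun K => K ⊆ F ∧ K.Nonempty ∧ (nlem_nb H F K).card ≤ (qn_sl G K).card) card
    ⟨F, Subset.rfl, hne, (card_le_card fun x hx => by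
      obtain ⟨⟨h1, h2⟩, W, hW, hd⟩ := nlem_mem.1 hx
      exact hN x h1 h2 W hW hd).trans (by omega)⟩
  have hK' : Fam H K := hF.mono Subset.rfl hK
  have hKF : un K ⊆ un F := fun e he => by
    obtain ⟨W, hW, heW⟩ := mem_un.1 he
    exact sub_un (hK hW) heW
  have hM : nlem_nb H F K ⊆ H := fun x hx => (nlem_mem.1 hx).1.1
  obtain ⟨f, hf, hf'⟩ := qn_hall hK hle fun K' h1 h2 h3 => hmin K' ⟨h1, h2, h3⟩
  have t1 := qn_tau hne' hK' hE f hf hf'
  obtain ⟨u, hu, z, hz, hz', ha⟩ := hH.conn (un K) hK'.un_sub (by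
    obtain ⟨W, hW⟩ := hKn
    exact (hK'.cc W hW).ne.mono (sub_un hW)) (fun e => by
    obtain ⟨x, h1, h2⟩ := hx
    exact h2 (hKF (e.symm ▸ h1)))
  have hzM := nlem_adj hF hK hu hz hz' ha
  have hU : un K ∪ nlem_nb H F K ⊆ H := union_subset hK'.un_sub hM
  have t2 := tau_union_le (hne'.mono hU) (hne'.mono (sdiff_subset (t := un K ∪ nlem_nb H F K)))
  rw [union_sdiff_of_subset hU] at t2
  have t3 := tau_union_sep (hne'.mono hK'.un_sub)
    (hne'.mono (sdiff_subset (t := un K ∪ nlem_nb H F K))) fun e he y hy k => by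
      rw [mem_sdiff, mem_union, not_or] at hy
      exact hy.2.2 (nlem_adj hF hK he hy.1 hy.2.1 k)
  have t4 : tau (un K ∪ H \ (un K ∪ nlem_nb H F K)) ≤ tau (H.erase z) :=
    tau_mono (hne'.mono (erase_subset _ _)) fun e he => by
      rcases mem_union.1 he with he | he
      · exact mem_erase.2 ⟨fun k => hz' (k ▸ he), hK'.un_sub he⟩
      · rw [mem_sdiff] at he
        exact mem_erase.2 ⟨fun k => he.2 (mem_union_right _ (k ▸ hzM)), he.1⟩
  have t5 := hH.crit z hz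
  omega

theorem absorb2 {W : Finset (Finset V)} (hE : Abs2 W) {x y : Finset V} (hx : 1 ≤ dd W x)
    (hy : 1 ≤ dd W y) : ¬ NJ W x y := by
  intro h
  obtain ⟨v, v1, v2⟩ := qn_pt hx
  obtain ⟨w, w1, w2⟩ := qn_pt hy
  obtain ⟨C, c1, c2, c3, c4⟩ := hE v v2 w w2
  exact h.no_cover c1 c2 v1 w1 c3 c4

end Pool.Agent.Work.MP_d266e7_co.C5.P24
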