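import Pool.Agent.Work.MP_d266e7_co.P24Q.QTwo
import Pool.Agent.Work.MP_d266e7_co.P24Q.QN

/-!
`a x = dd W1 (q x)`, `b x = dd W2 (q x)`. It suffices to find `SGad H W1 4 3` (`pq_sgad43`,
`E10.val`, `hi_mono`). A vertex of `W2` has degree three in `W2`, so it lies in at most one host
(`dg_lt2`): the sets `q x ∩ cov W2` are disjoint and `∑ b ≤ 10`. At least three hosts meet `W2`
(`nlemma2` with `F = G = {W2}`). If `z`, `w` meet `W2` then the two others are `NJ` in `W1`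
(`Quad2.split`, `absorb2`). If `x` meets `W1` no minimum transversal of `W2` meets the three
others (`quad_no3` for `h.symm`), so by `r222`, `r144` their values of `b` are not all at least
two and not at least 1, 4, 4. Case `b x = 0` for some `x` (`a x = 4`): `x` is `NJ` with the three
others, one of them has `b ≤ 1`, `sgad11`. Case all `b ≥ 1`: all pairs are `NJ` in `W1`;
`twoe_num` gives a split into two pairs with sums at least 4 and 3, `sgad22`.
-/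

namespace Pool.Agent.Work.MP_d266e7_co.C5.P24

open Finset

variable {V : Type} [DecidableEq V]

theorem qtwoe_rest : ∀ x : Fin 4, ∃ y z w, x ≠ y ∧ x ≠ z ∧ x ≠ w ∧ y ≠ z ∧ y ≠ w ∧ z ≠ w := by
  decide

theorem qtwoe_rest2 : ∀ x y : Fin 4, x ≠ y → ∃ z w, x ≠ z ∧ x ≠ w ∧ y ≠ z ∧ y ≠ w ∧ z ≠ w := by
  decide

theorem twoe_num {a b : Fin 4 → ℕ} (hs : ∀ x, a x + b x = 4) (hb : ∀ x, 1 ≤ b x)
    (h10 : b 0 + b 1 + b 2 + b 3 ≤ 10)
    (h2 : ∀ x y z w, x ≠ y → x ≠ z → x ≠ w → y ≠ z → y ≠ w → z ≠ w → 1 ≤ a x →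
      ¬ (2 ≤ b y ∧ 2 ≤ b z ∧ 2 ≤ b w) ∧ ¬ (4 ≤ b z ∧ 4 ≤ b w)) :
    ∃ x y z w, x ≠ y ∧ x ≠ z ∧ x ≠ w ∧ y ≠ z ∧ y ≠ w ∧ z ≠ w ∧ 4 ≤ a x + a y ∧
      3 ≤ a z + a w := by
  have k1 : ∀ x, 1 ≤ a x → ∃ y, x ≠ y ∧ 3 ≤ a y := fun x hx => by
    obtain ⟨y, z, w, c1, c2, c3, c4, c5, c6⟩ := qtwoe_rest x
    have := (h2 x y z w c1 c2 c3 c4 c5 c6 hx).1
    have := hs y
    have := hs z
    have := hs w
    by_cases c : 3 ≤ a y
    · exact ⟨y, c1, c⟩
    by_cases c' : 3 ≤ a z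
    · exact ⟨z, c2, c'⟩
    · exact ⟨w, c3, by omega⟩
  obtain ⟨x, hx⟩ : ∃ x, 1 ≤ a x := by
    by_contra hn
    push Not at hn
    have := hn 0
    have := hn 1
    have := hn 2
    have := hs 0
    have := hs 1
    have := hs 2
    omega
  obtain ⟨y, -, hy⟩ := k1 x hx
  obtain ⟨z, c1, hz⟩ := k1 y (by omega)
  obtain ⟨u, w, c2, c3, c4, c5, c6⟩ := qtwoe_rest2 y z c1
  have := (h2 y z u w c1 c2 c3 c4 c5 c6 (by omega)).2
  have := hs u
  have := hs w
  by_cases c : 1 ≤ a u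
  · exact ⟨y, u, z, w, c2, c1, c3, c4.symm, c6, c5, by omega, by omega⟩
  · exact ⟨y, w, z, u, c3, c1, c2, c5.symm, c6.symm, c4, by omega, by omega⟩

theorem quad2E [Infinite V] {k : ℕ} (hU : IHQ V k) {H W1 W2 : Finset (Finset V)}
    {q : Fin 4 → Finset V} (h : Quad2 H W1 W2 q) (hk1 : W1.card + 3 ≤ k)
    (h4 : ∀ v, dg H v ≤ 4) (hs : ∀ x, dd W1 (q x) + dd W2 (q x) = 4) (e2 : E10 W2) :
    67 * (tau W1 + tau W2) ≤ 14 * (W1.card + W2.card) +
      11 * ((cov W1).card + (cov W2).card) + 3 * hi H H + 2 := by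
  suffices g : SGad H W1 4 3 by
    have b1 : 67 * tau W1 + 17 ≤ _ := pq_sgad43 hU (by omega) h.c1 h.s1 h4 g
    have b2 := e2.val
    have b3 : hi H W1 ≤ hi H H := hi_mono subset_rfl h.s1
    omega
  have dis : ∀ x y, x ≠ y → Disjoint (q x ∩ cov W2) (q y ∩ cov W2) := fun x y c =>
    disjoint_left.2 fun v hx hy => by
      have := dg_lt2 h.s2 (h.qmem x) (h.qmem y) (h.qinj.ne c) (h.q2 x) (h.q2 y)
        (mem_inter.1 hx).1 (mem_inter.1 hy).1
      have := e2.d3 v (mem_inter.1 hx).2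
      have := h4 v
      omega
  have nj : ∀ x y z w, x ≠ y → x ≠ z → x ≠ w → y ≠ z → y ≠ w → z ≠ w → 1 ≤ dd W2 (q z) →
      1 ≤ dd W2 (q w) → NJ W1 (q x) (q y) := fun x y z w c1 c2 c3 c4 c5 c6 hz hw =>
    (h.split c1 c2 c3 c4 c5 c6).resolve_right (absorb2 e2.pair hz hw)
  have no : ∀ x y z w, x ≠ y → x ≠ z → x ≠ w → y ≠ z → y ≠ w → z ≠ w → 1 ≤ dd W1 (q x) →
      ∀ i j l, Rain W2 i j l → ¬ (i ≤ dd W2 (q y) ∧ j ≤ dd W2 (q z) ∧ l ≤ dd W2 (q w)) :=
    fun x y z w c1 c2 c3 c4 c5 c6 hx i j l r ⟨k1, k2, k3⟩ => by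
      obtain ⟨C, d1, d2, ⟨u1, d3, d4⟩, ⟨u2, d5, d6⟩, u3, d7, d8⟩ := r _ _ _ inter_subset_right
        inter_subset_right inter_subset_right (dis y z c4) (dis y w c5) (dis z w c6) k1 k2 k3
      exact quad_no3 h.symm c4 c5 c1.symm c6 c2.symm c3.symm hx C d1 d2
        ⟨u1, (mem_inter.1 d3).1, d4⟩ ⟨u2, (mem_inter.1 d5).1, d6⟩ ⟨u3, (mem_inter.1 d7).1, d8⟩
  by_cases hb : ∀ x, 1 ≤ dd W2 (q x)
  · have h10 : ∑ x, dd W2 (q x) ≤ 10 := by
      rw [← e2.n10]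
      exact (card_biUnion fun x _ y _ c => dis x y c).symm.trans_le
        (card_le_card (biUnion_subset.2 fun x _ => inter_subset_right))
    rw [show (univ : Finset (Fin 4)) = {0, 1, 2, 3} from rfl, sum_insert (by decide),
      sum_insert (by decide), sum_pair (by decide), ← add_assoc, ← add_assoc] at h10
    obtain ⟨x, y, z, w, c1, c2, c3, c4, c5, c6, k1, k2⟩ :=
      twoe_num (a := fun x => dd W1 (q x)) (b := fun x => dd W2 (q x)) hs hb h10
        fun x y z w c1 c2 c3 c4 c5 c6 hx => ⟨no x y z w c1 c2 c3 c4 c5 c6 hx _ _ _ e2.r222,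
          fun k => no x y z w c1 c2 c3 c4 c5 c6 hx _ _ _ e2.r144 ⟨hb y, k⟩⟩
    have n : ∀ x y, x ≠ y → NJ W1 (q x) (q y) := fun x y c => by
      obtain ⟨z, w, c2, c3, c4, c5, c6⟩ := qtwoe_rest2 x y c
      exact nj x y z w c c2 c3 c4 c5 c6 (hb z) (hb w)
    exact (sgad22 h.c1 h.s1 (h.qmem x) (h.qmem y) (h.qmem z) (h.qmem w) (h.q1 x) (h.q1 y) (h.q1 z)
      (h.q1 w) (n x y c1) (n x z c2) (n x w c3) (n y z c4) (n y w c5) (n z w c6)).mono k1 k2
  · obtain ⟨x, hx⟩ := not_forall.1 hb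
    have hb' : ∀ y, x ≠ y → 1 ≤ dd W2 (q y) := fun y c => by
      obtain ⟨z, w, c2, c3, c4, c5, c6⟩ := qtwoe_rest2 x y c
      by_contra hy
      have hu : un {W2} = W2 := by simp [un]
      have := nlemma2 (N := {q z, q w}) (F := {W2}) (G := {W2}) h.cc
        ⟨fun W' k => mem_singleton.1 k ▸ h.s2, fun W' k => mem_singleton.1 k ▸ h.c2,
          fun W' k W'' k' m => absurd ((mem_singleton.1 k).trans (mem_singleton.1 k').symm) m⟩
        subset_rfl (fun W' k => mem_singleton.1 k ▸ e2.pair) (singleton_nonempty _)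
        ⟨q x, h.qmem x, hu.symm ▸ h.q2 x⟩ fun e he k1 W' k2 k3 => by
          rw [mem_singleton.1 k2] at k3
          rcases h.all e he with m | m | ⟨t, rfl⟩
          · have := dd_sep h.sep.symm m
            omega
          · exact absurd m (hu ▸ k1)
          · rcases quad_all x y z w t c c2 c3 c4 c5 c6 with rfl | rfl | rfl | rfl
            · exact absurd k3 hx
            · exact absurd k3 hy
            · simp
            · simp
      have := card_le_two (a := q z) (b := q w)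
      simp only [card_singleton] at *
      omega
    have sx := hs x
    obtain ⟨y, c, hy⟩ : ∃ y, x ≠ y ∧ dd W2 (q y) ≤ 1 := by
      obtain ⟨y, z, w, c1, c2, c3, c4, c5, c6⟩ := qtwoe_rest x
      have := no x y z w c1 c2 c3 c4 c5 c6 (by omega) _ _ _ e2.r222
      by_cases k : dd W2 (q y) ≤ 1
      · exact ⟨y, c1, k⟩
      by_cases k' : dd W2 (q z) ≤ 1
      · exact ⟨z, c2, k'⟩
      · exact ⟨w, c3, by omega⟩
    obtain ⟨z, w, c2, c3, c4, c5, c6⟩ := qtwoe_rest2 x y c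
    have sy := hs y
    exact (sgad11 h.s1 (h.qmem x) (h.qmem y) (h.q1 x) (h.q1 y)
      (nj x y z w c c2 c3 c4 c5 c6 (hb' z c2) (hb' w c3))).mono (by omega) (by omega)

end Pool.Agent.Work.MP_d266e7_co.C5.P24
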