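import Mathlib.Data.Nat.Bitwise
import Mathlib.Data.Fintype.Basic
import Mathlib.Tactic.Linarith
import Mathlib.Data.Fin.Tuple.Sort
import Mathlib.Algebra.BigOperators.Fin

/-!
Finite part of the exclusion of `(m, n, tau) = (12, 15, 5)`. The eight vertices of three members
`c = S + D`, `w = S + F`, `y = D + F + x` are numbered `0, 1, 2` (`S`), `3, 4` (`D`), `5, 6` (`F`),
`7` (`x`); `cv` lists the pairs meeting `c`, `w`, `y`. Four hosts have traces `X i` on these
vertices (as numbers); `t u` is the set of the hosts which miss the vertex `u` of the single member.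
If at most one host contains `x`, one vertex `u` and one pair of `cv` meet all four hosts.
-/

namespace Pool.Agent.Work.MP_d266e7_co.C5.P24.X15

/-- pairs of vertices meeting the three members -/
def cv : List (ℕ × ℕ) := [(0, 3), (0, 4), (0, 5), (0, 6), (0, 7), (1, 3), (1, 4), (1, 5), (1, 6),
  (1, 7), (2, 3), (2, 4), (2, 5), (2, 6), (2, 7), (3, 5), (3, 6), (4, 5), (4, 6)]

/-- number of ones among the first eight bits -/
def pc (X : ℕ) : ℕ := (X.testBit 0).toNat + (X.testBit 1).toNat + (X.testBit 2).toNat +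
  (X.testBit 3).toNat + (X.testBit 4).toNat + (X.testBit 5).toNat + (X.testBit 6).toNat +
  (X.testBit 7).toNat

def hit (X : ℕ) (C : ℕ × ℕ) : Bool := X.testBit C.1 || X.testBit C.2

/-- table of the pairs hit by `X` -/
def hv (X : ℕ) : ℕ := Nat.mod (Nat.shiftRight
  16214326337916188618052800571663156732950011759218624477514816781511149322654312595319130215085833951767151850536833035256457664851894383273793010470165029932015331390447113486833387806214553419374731404676056222454972169988360960893717508053399370579515604059893296898039314388143558886602571176320712519335117502340634671988309659837838081452222876049412544505150028518439476658683069125906603726116978516836251476128114347825967887093781103354078247255900445854142541968316072898799328936239859969843686727577309728729446076594884483427417712221625117457297806839816215457982322356234967668944439413570744150726699798358841490899084898881557026510124072044361058210270788541450494385158058556422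36871505891457715114323525957168631230643614115615941444383451441810740302819065142383229733913406224915961222309697585580767064522815245585254501134645225022122599583711354440954418447898800584595884377792394725821679729923085597898556215683231261432113288768577994884735843915743567135635530756072621594066791922639745070908825793221638030050880509704701267085234182573047142678695339482840595169600920464716619963970434056260835020545197587990855684072274327909859144274392800573874090331838739336074672440103339061683755343713664912245158499043308906616472571632140299017310377680677015545426381119658432224293746196566559367286801813242023730364996479128046185493662249172564186737063815774618109429804876191825865481494679597871753497165301466883696251865923584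
  (Nat.mul 19 X)) 524288

/-- table of `pc` -/
def pk (X : ℕ) : ℕ := Nat.mod (Nat.shiftRight
  95125173855764218123276304889944061997689682402263585766959741291920687686033329201817409157123347502415384089435969498586180241031507595463600295898153685276653211633572815512294064538494957912327413386667662218713394765509704508661031522276467630197481635010039778342554499416459730172574551513689147646224
  (Nat.mul 4 X)) 16

def allLt (n : ℕ) (f : ℕ → Bool) : Bool := Nat.rec true (fun k ih => f k && ih) n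

/-- evaluate the argument first -/
def ev (n : ℕ) (f : ℕ → Bool) : Bool := Nat.rec (f 0) (fun j _ => f (Nat.succ j)) n

theorem ev_eq (n : ℕ) (f : ℕ → Bool) : ev n f = f n := by cases n <;> rfl

theorem allLt_spec {n : ℕ} {f : ℕ → Bool} (h : allLt n f = true) : ∀ k, k < n → f k = true := by
  induction n with
  | zero => intro k hk; omega
  | succ n ih =>
    have h' : (f n && allLt n f) = true := h
    rw [Bool.and_eq_true] at h'
    intro k hk
    rcases Nat.lt_succ_iff_lt_or_eq.1 hk with h1 | rfl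
    exacts [ih h'.2 k h1, h'.1]

def z0 (v m : ℕ) : ℕ := cond (Nat.beq (Nat.land v m) 0) 1 0

/-- number of the vertices other than `x` in no pair of `v` -/
def cf (v : ℕ) : ℕ := Nat.add (Nat.add (Nat.add (z0 v 31) (z0 v 992)) (Nat.add (z0 v 31744)
  (z0 v 99361))) (Nat.add (Nat.add (z0 v 395330) (z0 v 168068)) (z0 v 336136))

def cf8 (v : ℕ) : ℕ := Nat.add (cf v) (z0 v 16912)

theorem c0 : allLt 256 (fun X => Nat.beq (pk X) (pc X) && (X.testBit 7 == Nat.ble 128 X) &&
    (allLt 19 fun k => (hv X).testBit k == hit X (cv.getD k (0, 0))) &&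
    (allLt 8 fun j => !X.testBit j || Nat.beq (Nat.land (hv X) (hv (2 ^ j))) (hv (2 ^ j))) &&
    (Nat.blt 0 (hv X) || Nat.beq (pk X) 0)) = true := by
  decide +kernel

theorem c2 : allLt 256 (fun X => ev (hv X) fun a => ev (pk X) fun p => allLt 256 fun Y =>
    Nat.blt 0 (Nat.land a (hv Y)) || Nat.beq p 0 || Nat.beq (pk Y) 0 ||
      ((Nat.beq p 1 || Nat.beq (pk Y) 1) &&
        (Nat.blt (pk Y) 3 || (Nat.beq X 128 && Nat.beq (Nat.land Y 135) 0)))) = true := by
  decide +kernel

theorem c3 : allLt 256 (fun X => ev (hv X) fun a => ev (pk X) fun p => Nat.blt p 3 ||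
    allLt 256 fun Y => Nat.blt (pk Y) 3 || ev (Nat.land a (hv Y)) fun v => ev (cf8 v) fun k =>
      (Nat.blt p 4 || Nat.blt (pk Y) 4 || Nat.blt k 2) && ((Nat.ble 128 X && Nat.ble 128 Y) ||
        cond (Nat.ble 128 X || Nat.ble 128 Y) (Nat.blt (cf v) 3) (Nat.blt k 3))) = true := by
  decide +kernel

theorem c5 : allLt 256 (fun A => !Nat.beq (pk A) 3 || allLt 256 fun D => !Nat.beq (pk D) 4 ||
    ev (Nat.land (hv A) (hv D)) fun v => Nat.blt (cf8 v) 2 || allLt 256 fun B =>
      Nat.blt 0 (Nat.land v (hv B)) || !Nat.beq (pk B) 2 || allLt 256 fun C =>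
        Nat.blt 0 (Nat.land v (hv C)) || !Nat.beq (pk C) 2 ||
          Nat.blt 0 (Nat.land (Nat.land (hv B) (hv C)) (hv D))) = true := by
  decide +kernel

theorem c6 : allLt 256 (fun D => !Nat.beq (Nat.land D 135) 0 || Nat.blt (pk D) 3 ||
    allLt 128 fun C => Nat.blt (pk C) 2 ||
      (Nat.blt (pk D) 4 && (Nat.blt (pk C) 3 || !Nat.beq (Nat.land C 135) 0)) ||
        Nat.blt (cf (Nat.land (hv C) (hv D))) 2) = true := by
  decide +kernel

theorem c7 : allLt 128 (fun X => !Nat.beq (pk X) 4 || allLt 128 fun Y => !Nat.beq (pk Y) 4 ||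
    ev (Nat.land (hv X) (hv Y)) fun v => allLt 128 fun Z => !Nat.beq (pk Z) 4 ||
      ev (Nat.land v (hv Z)) fun v' => Nat.blt (cf8 v') 4) = true := by
  decide +kernel

/-- no pair of `cv` meets all the sets of `L` -/
def NA (L : List ℕ) : Prop := ∀ C ∈ cv, ∃ Y ∈ L, hit Y C = false

theorem c0' {X : ℕ} (h : X < 256) : pk X = pc X ∧ (X.testBit 7 = Nat.ble 128 X) ∧
    (∀ k, k < 19 → (hv X).testBit k = hit X (cv.getD k (0, 0))) ∧
    (∀ j, j < 8 → X.testBit j = true → Nat.land (hv X) (hv (2 ^ j)) = hv (2 ^ j)) ∧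
    (0 < hv X ∨ pk X = 0) := by
  have := allLt_spec c0 X h
  simp only [Bool.and_eq_true, Nat.beq_eq, beq_iff_eq, Bool.or_eq_true, Nat.blt_eq] at this
  obtain ⟨⟨⟨⟨h1, h2⟩, h3⟩, h4⟩, h5⟩ := this
  refine ⟨h1, h2, fun k hk => ?_, fun j hj hb => ?_, h5⟩
  · simpa using allLt_spec h3 k hk
  · have := allLt_spec h4 j hj
    simp only [hb, Bool.not_true, Bool.false_or, Nat.beq_eq] at this
    exact this

theorem zero_of {v : ℕ} {L : List ℕ} (h : NA L) (hL : ∀ Y ∈ L, Y < 256)
    (h' : ∀ j, v.testBit j = true → ∀ Y ∈ L, (hv Y).testBit j = true) : v = 0 := by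
  refine Nat.eq_of_testBit_eq fun j => ?_
  rw [Nat.zero_testBit]
  by_contra hj
  rw [Bool.not_eq_false] at hj
  obtain ⟨Y0, hY0, -⟩ := h (0, 3) (by decide)
  have j19 : j < 19 := by
    by_contra hh
    have a : hv Y0 < 2 ^ 19 := Nat.mod_lt _ (by norm_num)
    have b : hv Y0 < 2 ^ j := a.trans_le (Nat.pow_le_pow_right (by norm_num) (by omega))
    have c := h' j hj Y0 hY0
    rw [Nat.testBit_lt_two_pow b] at c
    exact Bool.false_ne_true c
  have m : cv.getD j (0, 0) ∈ cv := by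
    have : ∀ j, j < 19 → cv.getD j (0, 0) ∈ cv := by decide
    exact this j j19
  obtain ⟨Y, hY, e⟩ := h _ m
  have c := h' j hj Y hY
  rw [(c0' (hL Y hY)).2.2.1 j j19, e] at c
  exact Bool.false_ne_true c

theorem na1 {A : ℕ} (hA : A < 256) (h : NA [A]) : hv A = 0 :=
  zero_of h (by simpa using hA) (by simp)

theorem na2 {A B : ℕ} (hA : A < 256) (hB : B < 256) (h : NA [A, B]) :
    Nat.land (hv A) (hv B) = 0 :=
  zero_of h (by simp [hA, hB]) (by simp)

theorem na3 {A B C : ℕ} (hA : A < 256) (hB : B < 256) (hC : C < 256) (h : NA [A, B, C]) :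
    Nat.land (Nat.land (hv A) (hv B)) (hv C) = 0 :=
  zero_of h (by simp [hA, hB, hC]) (by simp +contextual)

theorem na4 {A B C D : ℕ} (hA : A < 256) (hB : B < 256) (hC : C < 256) (hD : D < 256)
    (h : NA [A, B, C, D]) : Nat.land (Nat.land (Nat.land (hv A) (hv B)) (hv C)) (hv D) = 0 :=
  zero_of h (by simp [hA, hB, hC, hD]) (by simp +contextual)

theorem NA.mono {L M : List ℕ} (h : NA L) (s : ∀ Y ∈ L, Y ∈ M) : NA M := fun C hC => by
  obtain ⟨Y, hY, e⟩ := h C hC
  exact ⟨Y, s Y hY, e⟩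

theorem free1 {v Z : ℕ} (hZ : Z < 256) (h : Nat.land v (hv Z) = 0) {j m : ℕ} (hj : j < 8)
    (hm : hv (2 ^ j) = m) : (Z.testBit j).toNat ≤ z0 v m := by
  cases hb : Z.testBit j
  · exact Nat.zero_le _
  · have a := (c0' hZ).2.2.2.1 j hj hb
    have b : Nat.land v m = 0 := by
      rw [← hm, ← a]
      have : Nat.land v (Nat.land (hv Z) (hv (2 ^ j))) =
          Nat.land (Nat.land v (hv Z)) (hv (2 ^ j)) := (Nat.and_assoc _ _ _).symm
      rw [this, h]
      exact Nat.zero_and _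
    rw [z0, b]
    exact le_rfl

theorem free8 {v Z : ℕ} (hZ : Z < 256) (h : Nat.land v (hv Z) = 0) :
    pk Z ≤ cf8 v ∧ (Z < 128 → pk Z ≤ cf v) := by
  have a0 := free1 hZ h (j := 0) (m := 31) (by norm_num) (by decide +kernel)
  have a1 := free1 hZ h (j := 1) (m := 992) (by norm_num) (by decide +kernel)
  have a2 := free1 hZ h (j := 2) (m := 31744) (by norm_num) (by decide +kernel)
  have a3 := free1 hZ h (j := 3) (m := 99361) (by norm_num) (by decide +kernel)
  have a4 := free1 hZ h (j := 4) (m := 395330) (by norm_num) (by decide +kernel)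
  have a5 := free1 hZ h (j := 5) (m := 168068) (by norm_num) (by decide +kernel)
  have a6 := free1 hZ h (j := 6) (m := 336136) (by norm_num) (by decide +kernel)
  have a7 := free1 hZ h (j := 7) (m := 16912) (by norm_num) (by decide +kernel)
  rw [(c0' hZ).1]
  simp only [pc, cf8, cf, Nat.add_eq]
  refine ⟨by omega, fun h7 => ?_⟩
  rw [Nat.testBit_lt_two_pow (i := 7) h7, Bool.toNat_false]
  omega

theorem f2 {A B : ℕ} (hA : A < 256) (hB : B < 256) (h : NA [A, B]) (a : 1 ≤ pk A) (b : 1 ≤ pk B) :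
    (pk A = 1 ∨ pk B = 1) ∧ (3 ≤ pk B → A = 128 ∧ Nat.land B 135 = 0) := by
  have h1 := allLt_spec c2 A hA
  rw [ev_eq, ev_eq] at h1
  have h2 := allLt_spec h1 B hB
  simp only [na2 hA hB h, Bool.or_eq_true, Bool.and_eq_true, Nat.blt_eq, Nat.beq_eq] at h2
  omega

theorem f3 {A B : ℕ} (hA : A < 256) (hB : B < 256) (a : 3 ≤ pk A) (b : 3 ≤ pk B) :
    (4 ≤ pk A → 4 ≤ pk B → cf8 (Nat.land (hv A) (hv B)) < 2) ∧
    (A < 128 → B < 128 → cf8 (Nat.land (hv A) (hv B)) < 3) ∧
    (A < 128 ∨ B < 128 → cf (Nat.land (hv A) (hv B)) < 3) := by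
  have h1 := allLt_spec c3 A hA
  rw [ev_eq, ev_eq, Bool.or_eq_true, Nat.blt_eq] at h1
  have h2 := allLt_spec (h1.resolve_left (by omega)) B hB
  rw [ev_eq, ev_eq] at h2
  have e : cf (Nat.land (hv A) (hv B)) ≤ cf8 (Nat.land (hv A) (hv B)) := Nat.le_add_right _ _
  have c : ∀ (p q r : Bool), cond p q r = true → (p = true ∧ q = true) ∨ (¬ p = true ∧ r = true) := by
    decide
  rw [Bool.or_eq_true, Bool.and_eq_true, Bool.or_eq_true (_ && _)] at h2
  rcases h2 with h2 | ⟨h2, h3 | h3⟩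
  · rw [Nat.blt_eq] at h2
    omega
  · simp only [Bool.or_eq_true, Bool.and_eq_true, Nat.blt_eq, Nat.ble_eq] at h2 h3
    omega
  · have h4 := c _ _ _ h3
    simp only [Bool.or_eq_true, Nat.blt_eq, Nat.ble_eq] at h2 h4
    omega

theorem p1 {A : ℕ} (hA : A < 256) (h : NA [A]) (a : 1 ≤ pk A) : False := by
  have h1 := (c0' hA).2.2.2.2
  rw [na1 hA h] at h1
  omega

theorem p3 {A B C : ℕ} (hA : A < 256) (hB : B < 256) (hC : C < 256) (h : NA [A, B, C])
    (a : 3 ≤ pk A) (b : 3 ≤ pk B) (c : 3 ≤ pk C) (x1 : A < 128 ∨ B < 128) (x2 : A < 128 ∨ C < 128)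
    (x3 : B < 128 ∨ C < 128) : False := by
  have h1 := f3 hA hB a b
  have h2 := free8 hC (na3 hA hB hC h)
  omega

theorem p3b {A B C : ℕ} (hA : A < 256) (hB : B < 256) (hC : C < 256) (h : NA [A, B, C])
    (a : 2 ≤ pk A) (b : 4 ≤ pk B) (c : 4 ≤ pk C) : False := by
  have h1 := f3 hB hC (by omega) (by omega)
  have h2 := free8 hA (na3 hB hC hA (h.mono (by simp)))
  omega

theorem p6 {B C D : ℕ} (hB : B < 128) (hC : C < 128) (hD : D < 256) (h : NA [B, C, D])
    (b : 2 ≤ pk B) (c : 2 ≤ pk C) (d : 3 ≤ pk D) (e : Nat.land D 135 = 0)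
    (f : 4 ≤ pk D ∨ (3 ≤ pk C ∧ Nat.land C 135 = 0)) : False := by
  have h1 := allLt_spec c6 D hD
  rw [Bool.or_eq_true, Bool.or_eq_true, e, Nat.blt_eq] at h1
  have h2 := allLt_spec (h1.resolve_left (by simp; omega)) C hC
  have h3 := free8 (Z := B) (by omega)
    (na3 (by omega) hD (by omega) (h.mono (M := [C, D, B]) (by simp)))
  simp only [Bool.or_eq_true, Bool.and_eq_true, Nat.blt_eq, Bool.not_eq_true',
    ← Bool.not_eq_true, Nat.beq_eq] at h2
  omega

theorem p7 {A B C D : ℕ} (hA : A < 256) (hB : B < 256) (hC : C < 256) (hD : D < 256)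
    (h1 : NA [A, C, D]) (h2 : NA [A, B, D]) (h3 : NA [B, C, D]) (a : pk A = 3) (b : pk B = 2)
    (c : pk C = 2) (d : pk D = 4) : False := by
  have n1 := na3 hA hD hC (h1.mono (by simp))
  have n2 := na3 hA hD hB (h2.mono (by simp))
  have n3 := na3 hB hC hD h3
  have f := free8 hB n2
  have k1 := allLt_spec c5 A hA
  rw [a, Bool.or_eq_true] at k1
  have k2 := allLt_spec (k1.resolve_left (by decide)) D hD
  rw [d, ev_eq, Bool.or_eq_true, Bool.or_eq_true, Nat.blt_eq] at k2
  have k3 := allLt_spec ((k2.resolve_left (by decide)).resolve_left (by omega)) B hB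
  rw [n2, b, Bool.or_eq_true] at k3
  have k4 := allLt_spec (k3.resolve_left (by decide)) C hC
  rw [n1, n3, c] at k4
  exact absurd k4 (by decide)

theorem p8' {A B C D : ℕ} (hA : A < 128) (hB : B < 128) (hC : C < 128) (hD : D < 256)
    (h : NA [A, B, C, D]) (a : pk A = 4) (b : pk B = 4) (c : pk C = 4) (d : pk D = 4) : False := by
  have f := free8 hD (na4 (by omega) (by omega) (by omega) hD h)
  have k1 := allLt_spec c7 A hA
  rw [a, Bool.or_eq_true] at k1
  have k2 := allLt_spec (k1.resolve_left (by decide)) B hB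
  rw [b, ev_eq, Bool.or_eq_true] at k2
  have k3 := allLt_spec (k2.resolve_left (by decide)) C hC
  rw [c, ev_eq, Bool.or_eq_true, Nat.blt_eq] at k3
  have k4 := k3.resolve_left (by decide)
  omega

/-- one of the configurations of misses and sizes which are excluded; `n m` says that some vertex
of the single member lies in all the hosts of the set `m` -/
def pat (k : ℕ → ℕ) (n : ℕ → Bool) (a b c d : ℕ) : Bool :=
  (n (2 ^ b ||| 2 ^ c ||| 2 ^ d) && Nat.ble 2 (k a)) ||
  (n (2 ^ c ||| 2 ^ d) && Nat.ble 3 (k a) && Nat.ble 3 (k b)) ||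
  (n (2 ^ b ||| 2 ^ d) && n (2 ^ a ||| 2 ^ d) && Nat.beq (k a) 2 && Nat.beq (k b) 2 &&
    Nat.ble 4 (k c)) ||
  (n (2 ^ d) && Nat.ble 4 (k a) && Nat.ble 4 (k b) && Nat.ble 4 (k c)) ||
  (n (2 ^ d) && Nat.ble 3 (k a) && Nat.beq (k b) 5 && Nat.beq (k c) 5) ||
  (n (2 ^ b ||| 2 ^ c) && n (2 ^ a) && Nat.beq (k a) 2 && Nat.beq (k d) 5 && Nat.ble 3 (k b) &&
    Nat.ble 3 (k c)) ||
  (n (2 ^ b ||| 2 ^ d) && n (2 ^ b ||| 2 ^ c) && n (2 ^ a) && Nat.beq (k a) 2 &&
    Nat.beq (k c) 4 && Nat.beq (k d) 4 && Nat.ble 3 (k b)) ||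
  (n (2 ^ b) && n (2 ^ c) && n (2 ^ a) && Nat.beq (k a) 4 && Nat.beq (k b) 3 && Nat.beq (k c) 3 &&
    Nat.beq (k d) 5)

def kill (k : ℕ → ℕ) (n : ℕ → Bool) : Bool :=
  Nat.beq (k 0) 0 || Nat.beq (k 1) 0 || Nat.beq (k 2) 0 || Nat.beq (k 3) 0 || n 15 ||
  pat k n 0 1 2 3 || pat k n 1 2 3 0 || pat k n 2 3 0 1 || pat k n 3 0 1 2 ||
  pat k n 0 2 1 3 || pat k n 1 3 0 2 || pat k n 0 1 3 2 || pat k n 0 2 3 1 ||
  pat k n 0 3 1 2 || pat k n 0 3 2 1 || pat k n 1 0 2 3 || pat k n 1 0 3 2 ||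
  pat k n 1 2 0 3 || pat k n 1 3 2 0 || pat k n 2 0 1 3 || pat k n 2 0 3 1 ||
  pat k n 2 1 0 3 || pat k n 2 1 3 0 || pat k n 2 3 1 0 || pat k n 3 0 2 1 ||
  pat k n 3 1 0 2 || pat k n 3 1 2 0 || pat k n 3 2 0 1 || pat k n 3 2 1 0 ||
  (Nat.beq (k 0) 5 && Nat.beq (k 1) 5 && Nat.beq (k 2) 5 && Nat.beq (k 3) 5)

def ct (t0 t1 t2 t3 t4 i : ℕ) : ℕ := (t0.testBit i).toNat + (t1.testBit i).toNat +
  (t2.testBit i).toNat + (t3.testBit i).toNat + (t4.testBit i).toNat

def kn (t0 t1 t2 t3 t4 m : ℕ) : Bool := Nat.beq (Nat.land t0 m) 0 || Nat.beq (Nat.land t1 m) 0 ||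
  Nat.beq (Nat.land t2 m) 0 || Nat.beq (Nat.land t3 m) 0 || Nat.beq (Nat.land t4 m) 0

/-- table of the sets of hosts disjoint from `t` -/
private def c9t (t : ℕ) : ℕ := Nat.land (Nat.shiftRight
  1766927946675360636308570905342509493025262344256229188911255188239941631
  (Nat.mul 16 t)) 65535

private theorem c9t_spec : allLt 16 (fun t => allLt 16 fun m =>
    (c9t t).testBit m == Nat.beq (Nat.land t m) 0) = true := by
  decide +kernel

/-- the test for given numerals -/
private def c9k (k0 k1 k2 k3 M : ℕ) : Bool :=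
  kill (fun i => cond (Nat.beq i 0) k0 (cond (Nat.beq i 1) k1 (cond (Nat.beq i 2) k2 k3)))
    fun m => M.testBit m

private theorem c9_congr {k k' : ℕ → ℕ} {n n' : ℕ → Bool} (h0 : k 0 = k' 0) (h1 : k 1 = k' 1)
    (h2 : k 2 = k' 2) (h3 : k 3 = k' 3) (hn : ∀ m, m < 16 → n m = n' m) :
    kill k n = kill k' n' := by
  simp (disch := decide) only [kill, pat, h0, h1, h2, h3, hn]

/-- the frequent cases first -/
private def c9f (k0 k1 k2 k3 M : ℕ) : Bool :=
  (Nat.beq k0 0 ||
  (Nat.beq k1 0 ||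
  (Nat.beq k2 0 ||
  (Nat.beq k3 0 ||
  (M.testBit 15 ||
  ((Nat.ble 3 k0 && (Nat.ble 3 k2 && M.testBit 10)) ||
  ((Nat.ble 3 k1 && (Nat.ble 3 k3 && M.testBit 5)) ||
  ((Nat.ble 3 k1 && (Nat.ble 3 k2 && M.testBit 9)) ||
  ((Nat.ble 3 k3 && (Nat.ble 3 k0 && M.testBit 6)) ||
  ((Nat.ble 3 k2 && (Nat.ble 3 k3 && M.testBit 3)) ||
  ((Nat.ble 3 k0 && (Nat.ble 3 k1 && M.testBit 12)) ||
  ((Nat.ble 2 k1 && M.testBit 13) ||
  ((Nat.ble 2 k0 && M.testBit 14) ||
  ((Nat.ble 2 k2 && M.testBit 11) ||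
  ((Nat.ble 2 k3 && M.testBit 7) ||
  c9k k0 k1 k2 k3 M)))))))))))))))

private theorem c9f_spec {k0 k1 k2 k3 M : ℕ} (h : c9f k0 k1 k2 k3 M = true) :
    c9k k0 k1 k2 k3 M = true := by
  simp only [c9f, Bool.or_eq_true, Bool.and_eq_true] at h
  obtain ⟨k, hk⟩ : ∃ k : ℕ → ℕ,
    k = fun i => cond (Nat.beq i 0) k0 (cond (Nat.beq i 1) k1 (cond (Nat.beq i 2) k2 k3)) :=
    ⟨_, rfl⟩
  obtain ⟨n, hn⟩ : ∃ n : ℕ → Bool, n = fun m => M.testBit m := ⟨_, rfl⟩
  have z0 : Nat.beq (k 0) 0 = true → kill k n = true := fun h => by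
    simp only [kill, h, Bool.true_or]
  have z1 : Nat.beq (k 1) 0 = true → kill k n = true := fun h => by
    simp only [kill, h, Bool.or_true, Bool.true_or]
  have z2 : Nat.beq (k 2) 0 = true → kill k n = true := fun h => by
    simp only [kill, h, Bool.or_true, Bool.true_or]
  have z3 : Nat.beq (k 3) 0 = true → kill k n = true := fun h => by
    simp only [kill, h, Bool.or_true, Bool.true_or]
  have z4 : n 15 = true → kill k n = true := fun h => by
    simp only [kill, h, Bool.or_true, Bool.true_or]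
  have y0213 : pat k n 0 2 1 3 = true → kill k n = true := fun h => by
    simp only [kill, h, Bool.or_true, Bool.true_or]
  have y1302 : pat k n 1 3 0 2 = true → kill k n = true := fun h => by
    simp only [kill, h, Bool.or_true, Bool.true_or]
  have y1230 : pat k n 1 2 3 0 = true → kill k n = true := fun h => by
    simp only [kill, h, Bool.or_true, Bool.true_or]
  have y3012 : pat k n 3 0 1 2 = true → kill k n = true := fun h => by
    simp only [kill, h, Bool.or_true, Bool.true_or]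
  have y2301 : pat k n 2 3 0 1 = true → kill k n = true := fun h => by
    simp only [kill, h, Bool.or_true, Bool.true_or]
  have y0123 : pat k n 0 1 2 3 = true → kill k n = true := fun h => by
    simp only [kill, h, Bool.or_true, Bool.true_or]
  have p0 : ∀ a b c d, Nat.ble 2 (k a) = true → n (2 ^ b ||| 2 ^ c ||| 2 ^ d) = true →
      pat k n a b c d = true := fun a b c d h1 h2 => by
    simp only [pat, h1, h2, Bool.and_self, Bool.true_or]
  have p1 : ∀ a b c d, Nat.ble 3 (k a) = true → Nat.ble 3 (k b) = true →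
      n (2 ^ c ||| 2 ^ d) = true → pat k n a b c d = true := fun a b c d h1 h2 h3 => by
    simp only [pat, h1, h2, h3, Bool.and_self, Bool.true_or, Bool.or_true]
  subst hk hn
  rcases h with h | h | h | h | h | h | h | h | h | h | h | h | h | h | h | h
  · exact z0 h
  · exact z1 h
  · exact z2 h
  · exact z3 h
  · exact z4 h
  · exact y0213 (p1 0 2 1 3 h.1 h.2.1 h.2.2)
  · exact y1302 (p1 1 3 0 2 h.1 h.2.1 h.2.2)
  · exact y1230 (p1 1 2 3 0 h.1 h.2.1 h.2.2)
  · exact y3012 (p1 3 0 1 2 h.1 h.2.1 h.2.2)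
  · exact y2301 (p1 2 3 0 1 h.1 h.2.1 h.2.2)
  · exact y0123 (p1 0 1 2 3 h.1 h.2.1 h.2.2)
  · exact y1230 (p0 1 2 3 0 h.1 h.2)
  · exact y0123 (p0 0 1 2 3 h.1 h.2)
  · exact y2301 (p0 2 3 0 1 h.1 h.2)
  · exact y3012 (p0 3 0 1 2 h.1 h.2)
  · exact h

private theorem c9k_all : allLt 16 (fun t4 => allLt (t4 + 1) fun t3 => allLt (t3 + 1) fun t2 =>
    allLt (t2 + 1) fun t1 => allLt (t1 + 1) fun t0 =>
      ev (ct t0 t1 t2 t3 t4 0) fun k0 => ev (ct t0 t1 t2 t3 t4 1) fun k1 =>
      ev (ct t0 t1 t2 t3 t4 2) fun k2 => ev (ct t0 t1 t2 t3 t4 3) fun k3 =>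
      ev (Nat.lor (Nat.lor (Nat.lor (Nat.lor (c9t t0) (c9t t1)) (c9t t2)) (c9t t3)) (c9t t4))
        fun M => c9f k0 k1 k2 k3 M) = true := by
  decide +kernel

private theorem c9_all {n : ℕ} {f : ℕ → Bool} (h : ∀ k, k < n → f k = true) :
    allLt n f = true := by
  induction n with
  | zero => rfl
  | succ n ih =>
    show (f n && allLt n f) = true
    rw [h n (Nat.lt_succ_self n), ih fun k hk => h k (Nat.lt_succ_of_lt hk)]
    rfl

theorem c9 : allLt 16 (fun t4 => allLt (t4 + 1) fun t3 => allLt (t3 + 1) fun t2 =>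
    allLt (t2 + 1) fun t1 => allLt (t1 + 1) fun t0 =>
      kill (ct t0 t1 t2 t3 t4) (kn t0 t1 t2 t3 t4)) = true := by
  refine c9_all fun t4 h4 => c9_all fun t3 h3 => c9_all fun t2 h2 => c9_all fun t1 h1 =>
    c9_all fun t0 h0 => ?_
  have k := allLt_spec (allLt_spec (allLt_spec (allLt_spec (allLt_spec c9k_all t4 h4) t3 h3) t2 h2)
    t1 h1) t0 h0
  simp only [ev_eq] at k
  have e : ∀ t, t < 16 → ∀ m, m < 16 → (c9t t).testBit m = Nat.beq (Nat.land t m) 0 :=
    fun t ht m hm => beq_iff_eq.1 (allLt_spec (allLt_spec c9t_spec t ht) m hm)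
  refine (c9_congr rfl rfl rfl rfl fun m hm => ?_).trans (c9f_spec k)
  rw [kn, ← e t0 (by omega) m hm, ← e t1 (by omega) m hm, ← e t2 (by omega) m hm,
    ← e t3 (by omega) m hm, ← e t4 h4 m hm, ← Nat.testBit_or, ← Nat.testBit_or, ← Nat.testBit_or,
    ← Nat.testBit_or]
  rfl

section core

variable {X : ℕ → ℕ} {k : ℕ → ℕ} {n : ℕ → Bool}

theorem pat_false (hX : ∀ i, X i < 256) (hk : ∀ i, i < 4 → k i = pk (X i) + 1)
    (hn : ∀ m, n m = true → ∀ C ∈ cv, ∃ i, i < 4 ∧ m.testBit i = false ∧ hit (X i) C = false)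
    (hx : ∀ i, i < 4 → ∀ j, j < 4 → i ≠ j → X i < 128 ∨ X j < 128) {a b c d : ℕ}
    (h4 : a < 4 ∧ b < 4 ∧ c < 4 ∧ d < 4 ∧ a ≠ b ∧ a ≠ c ∧ a ≠ d ∧ b ≠ c ∧ b ≠ d ∧ c ≠ d) :
    pat k n a b c d = false := by
  obtain ⟨ha, hb, hc, hd, ab, ac, ad, bc, bd, cd⟩ := h4
  have al : ∀ i, i < 4 → i = a ∨ i = b ∨ i = c ∨ i = d := by omega
  have ka := hk a ha
  have kb := hk b hb
  have kc := hk c hc
  have kd := hk d hd
  have xab := hx a ha b hb ab
  have xac := hx a ha c hc ac
  have xbc := hx b hb c hc bc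
  clear ha hb hc hd ab ac ad bc bd cd
  have al1 : ∀ i, i < 4 → i = a ∨ i = c ∨ i = b ∨ i = d := fun i hi => by
    rcases al i hi with h | h | h | h <;> simp [h]
  have al2 : ∀ i, i < 4 → i = b ∨ i = c ∨ i = a ∨ i = d := fun i hi => by
    rcases al i hi with h | h | h | h <;> simp [h]
  have al3 : ∀ i, i < 4 → i = a ∨ i = d ∨ i = b ∨ i = c := fun i hi => by
    rcases al i hi with h | h | h | h <;> simp [h]
  have al4 : ∀ i, i < 4 → i = b ∨ i = c ∨ i = d ∨ i = a := fun i hi => by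
    rcases al i hi with h | h | h | h <;> simp [h]
  have al5 : ∀ i, i < 4 → i = a ∨ i = c ∨ i = d ∨ i = b := fun i hi => by
    rcases al i hi with h | h | h | h <;> simp [h]
  have al6 : ∀ i, i < 4 → i = a ∨ i = b ∨ i = d ∨ i = c := fun i hi => by
    rcases al i hi with h | h | h | h <;> simp [h]
  have n3 : ∀ {a b c d : ℕ}, (∀ i, i < 4 → i = a ∨ i = b ∨ i = c ∨ i = d) → n (2 ^ d) = true →
      NA [X a, X b, X c] := fun {a b c d} al h C hC => by
    obtain ⟨i, hi, h1, h2⟩ := hn _ h C hC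
    refine ⟨X i, ?_, h2⟩
    rcases al i hi with rfl | rfl | rfl | rfl
    · simp
    · simp
    · simp
    · simp at h1
  have n2 : ∀ {a b c d : ℕ}, (∀ i, i < 4 → i = a ∨ i = b ∨ i = c ∨ i = d) →
      n (2 ^ c ||| 2 ^ d) = true → NA [X a, X b] := fun {a b c d} al h C hC => by
    obtain ⟨i, hi, h1, h2⟩ := hn _ h C hC
    refine ⟨X i, ?_, h2⟩
    rcases al i hi with rfl | rfl | rfl | rfl
    · simp
    · simp
    · simp at h1
    · simp at h1
  have n1 : n (2 ^ b ||| 2 ^ c ||| 2 ^ d) = true → NA [X a] := fun h C hC => by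
    obtain ⟨i, hi, h1, h2⟩ := hn _ h C hC
    refine ⟨X i, ?_, h2⟩
    rcases al i hi with rfl | rfl | rfl | rfl
    · simp
    · simp at h1
    · simp at h1
    · simp at h1
  rw [← Bool.not_eq_true]
  intro h
  simp only [pat, Bool.or_eq_true, Bool.and_eq_true, Nat.ble_eq, Nat.beq_eq] at h
  rcases h with ((((((h | h) | h) | h) | h) | h) | h) | h
  · exact p1 (hX a) (n1 h.1) (by omega)
  · have := f2 (hX a) (hX b) (n2 al h.1.1) (by omega) (by omega)
    omega
  · have h1 := f2 (hX a) (hX c) (n2 al1 h.1.1.1.1) (by omega) (by omega)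
    have h2 := f2 (hX b) (hX c) (n2 al2 h.1.1.1.2) (by omega) (by omega)
    omega
  · exact p3 (hX a) (hX b) (hX c) (n3 al h.1.1.1) (by omega) (by omega) (by omega)
      xab xac xbc
  · exact p3b (hX a) (hX b) (hX c) (n3 al h.1.1.1) (by omega) (by omega) (by omega)
  · have h1 := f2 (hX a) (hX d) (n2 al3 h.1.1.1.1.1) (by omega) (by omega)
    exact p6 (B := X b) (C := X c) (by omega) (by omega) (hX d) (n3 al4 h.1.1.1.1.2)
      (by omega) (by omega) (by omega) (by omega) (by omega)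
  · have h1 := f2 (hX a) (hX c) (n2 al1 h.1.1.1.1.1.1) (by omega) (by omega)
    have h2 := f2 (hX a) (hX d) (n2 al3 h.1.1.1.1.1.2) (by omega) (by omega)
    exact p6 (B := X b) (C := X c) (by omega) (by omega) (hX d) (n3 al4 h.1.1.1.1.2)
      (by omega) (by omega) (by omega) (by omega) (by omega)
  · exact p7 (hX a) (hX b) (hX c) (hX d) (n3 al5 h.1.1.1.1.1.1) (n3 al6 h.1.1.1.1.1.2)
      (n3 al4 h.1.1.1.1.2) (by omega) (by omega) (by omega) (by omega)

theorem kill_false (hX : ∀ i, X i < 256) (hk : ∀ i, i < 4 → k i = pk (X i) + 1)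
    (hn : ∀ m, n m = true → ∀ C ∈ cv, ∃ i, i < 4 ∧ m.testBit i = false ∧ hit (X i) C = false)
    (hx : ∀ i, i < 4 → ∀ j, j < 4 → i ≠ j → X i < 128 ∨ X j < 128) (h0 : n 0 = true) :
    kill k n = false := by
  have pf := @pat_false X k n hX hk hn hx
  have k0 := hk 0 (by omega)
  have k1 := hk 1 (by omega)
  have k2 := hk 2 (by omega)
  have k3 := hk 3 (by omega)
  have e15 : n 15 = false := by
    rw [← Bool.not_eq_true]
    intro h
    obtain ⟨i, hi, h1, -⟩ := hn _ h (0, 3) (by decide)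
    revert h1
    exact (by decide : ∀ i, i < 4 → ¬ (15 : ℕ).testBit i = false) i hi
  have a4 : NA [X 0, X 1, X 2, X 3] := fun C hC => by
    obtain ⟨i, hi, -, h2⟩ := hn _ h0 C hC
    refine ⟨X i, ?_, h2⟩
    rcases (by omega : i = 0 ∨ i = 1 ∨ i = 2 ∨ i = 3) with rfl | rfl | rfl | rfl <;> simp
  rw [← Bool.not_eq_true]
  intro h
  rw [kill, e15, pf, pf, pf, pf, pf, pf, pf, pf, pf, pf, pf, pf, pf, pf, pf, pf, pf, pf, pf, pf,
    pf, pf, pf, pf] at h
  any_goals decide
  simp only [Bool.or_false, Bool.or_eq_true, Bool.and_eq_true, Nat.beq_eq] at h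
  have x01 := hx 0 (by omega) 1 (by omega) (by omega)
  have x02 := hx 0 (by omega) 2 (by omega) (by omega)
  have x03 := hx 0 (by omega) 3 (by omega) (by omega)
  have x12 := hx 1 (by omega) 2 (by omega) (by omega)
  have x13 := hx 1 (by omega) 3 (by omega) (by omega)
  have x23 := hx 2 (by omega) 3 (by omega) (by omega)
  have q0 : pk (X 0) = 4 := by omega
  have q1 : pk (X 1) = 4 := by omega
  have q2 : pk (X 2) = 4 := by omega
  have q3 : pk (X 3) = 4 := by omega
  by_cases y0 : X 0 < 128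
  · by_cases y1 : X 1 < 128
    · by_cases y2 : X 2 < 128
      · exact p8' y0 y1 y2 (hX 3) a4 q0 q1 q2 q3
      · exact p8' y0 y1 (by omega) (hX 2) (a4.mono (by simp)) q0 q1 q3 q2
    · exact p8' y0 (by omega) (by omega) (hX 1) (a4.mono (by simp)) q0 q2 q3 q1
  · exact p8' (by omega) (by omega) (by omega) (hX 0) (a4.mono (by simp)) q1 q2 q3 q0

end core

theorem side_mono (X : ℕ → ℕ) (hX : ∀ i, X i < 256) (t : Fin 5 → ℕ) (ht : ∀ u, t u < 16)
    (hm : Monotone t) (hc : ∀ i, i < 4 → ∑ u, ((t u).testBit i).toNat = pc (X i) + 1)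
    (hx : ∀ i, i < 4 → ∀ j, j < 4 → i ≠ j → X i < 128 ∨ X j < 128) :
    ∃ u, ∃ C ∈ cv, ∀ i, i < 4 → (t u).testBit i = true → hit (X i) C = true := by
  by_contra h
  push Not at h
  have h9 := allLt_spec (allLt_spec (allLt_spec (allLt_spec (allLt_spec c9 (t 4) (ht 4)) (t 3)
    (Nat.lt_succ_of_le (hm (by decide)))) (t 2) (Nat.lt_succ_of_le (hm (by decide)))) (t 1)
    (Nat.lt_succ_of_le (hm (by decide)))) (t 0) (Nat.lt_succ_of_le (hm (by decide)))
  have z : ∀ u m, Nat.land (t u) m = 0 → ∀ C ∈ cv,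
      ∃ i, i < 4 ∧ m.testBit i = false ∧ hit (X i) C = false := fun u m e C hC => by
    obtain ⟨i, hi, h1, h2⟩ := h u C hC
    refine ⟨i, hi, ?_, by simpa using h2⟩
    have : (Nat.land (t u) m).testBit i = (((t u).testBit i) && m.testBit i) := Nat.testBit_and _ _ _
    rw [e, h1, Nat.zero_testBit, Bool.true_and] at this
    exact this.symm
  refine Bool.false_ne_true ((kill_false hX (fun i hi => ?_) (fun m e => ?_) hx ?_).symm.trans h9)
  · rw [(c0' (hX i)).1, ← hc i hi, Fin.sum_univ_five]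
    rfl
  · simp only [kn, Bool.or_eq_true, Nat.beq_eq] at e
    rcases e with (((e | e) | e) | e) | e
    exacts [z 0 m e, z 1 m e, z 2 m e, z 3 m e, z 4 m e]
  · simp [kn]

theorem side_fin (X : ℕ → ℕ) (hX : ∀ i, X i < 256) (t : Fin 5 → ℕ) (ht : ∀ u, t u < 16)
    (hc : ∀ i, i < 4 → ∑ u, ((t u).testBit i).toNat = pc (X i) + 1)
    (hx : ∀ i, i < 4 → ∀ j, j < 4 → i ≠ j → X i < 128 ∨ X j < 128) :
    ∃ u, ∃ C ∈ cv, ∀ i, i < 4 → (t u).testBit i = true → hit (X i) C = true := by
  obtain ⟨u, h⟩ := side_mono X hX (t ∘ Tuple.sort t) (fun u => ht _) (Tuple.monotone_sort t)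
    (fun i hi => by
      rw [← hc i hi]
      exact Equiv.sum_comp (Tuple.sort t) fun u => ((t u).testBit i).toNat) hx
  exact ⟨_, h⟩

end Pool.Agent.Work.MP_d266e7_co.C5.P24.X15
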