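import Pool.Agent.Work.MP_d266e7_co.P24Q.QX15
import Pool.Agent.Work.MP_d266e7_co.P24Q.QX15m

/-!
`x15_full`: twelve members with five vertices each, fifteen vertices, degrees at most four, give
`tau ≤ 4`. As in `x15` all degrees are four and two vertices `v`, `w` have disjoint stars; the four
other members have `tau ≥ 3`, so they are a single member `z` and three members `c`, `w'`, `y` on
eight vertices (`x15_iso`, `x15_eight`, `x15_struct`). The vertex `x` of degree one among these has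
three hosts in the two stars, so at most one in one of them; that star is met, together with the
four members, by three vertices (`x15_side`, from the finite statement `X15.side_fin`), and the
other star by one vertex.
-/

namespace Pool.Agent.Work.MP_d266e7_co.C5.P24

open Finset

variable {V : Type} [DecidableEq V]

theorem x15_iso {R : Finset (Finset V)} (h5 : U5 R) (hm : R.card = 4) (hn : (cov R).card ≤ 13)
    (ht : 3 ≤ tau R) : ∃ z ∈ R, ∀ e ∈ R, e ≠ z → ¬ Adj z e := by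
  obtain ⟨q, -, hq, all⟩ := exists_enum hm
  have al : ∀ e ∈ R, e = q 0 ∨ e = q 1 ∨ e = q 2 ∨ e = q 3 := fun e he => by
    obtain ⟨x, rfl⟩ := all e he
    match x with
    | 0 => exact Or.inl rfl
    | 1 => exact Or.inr (Or.inl rfl)
    | 2 => exact Or.inr (Or.inr (Or.inl rfl))
    | 3 => exact Or.inr (Or.inr (Or.inr rfl))
  have p1 := qx15_pair ht al
  have p2 := qx15_pair (a := q 0) (b := q 2) (c := q 1) (d := q 3) ht fun e he => by
    have := al e he
    tauto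
  have p3 := qx15_pair (a := q 0) (b := q 3) (c := q 1) (d := q 2) ht fun e he => by
    have := al e he
    tauto
  have t0 := qx15_three h5 hn (hq 1) (hq 2) (hq 3)
  have t1 := qx15_three h5 hn (hq 0) (hq 2) (hq 3)
  have t2 := qx15_three h5 hn (hq 0) (hq 1) (hq 3)
  have t3 := qx15_three h5 hn (hq 0) (hq 1) (hq 2)
  have key : (¬ Adj (q 0) (q 1) ∧ ¬ Adj (q 0) (q 2) ∧ ¬ Adj (q 0) (q 3)) ∨
      (¬ Adj (q 0) (q 1) ∧ ¬ Adj (q 1) (q 2) ∧ ¬ Adj (q 1) (q 3)) ∨
      (¬ Adj (q 0) (q 2) ∧ ¬ Adj (q 1) (q 2) ∧ ¬ Adj (q 2) (q 3)) ∨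
      (¬ Adj (q 0) (q 3) ∧ ¬ Adj (q 1) (q 3) ∧ ¬ Adj (q 2) (q 3)) := by
    generalize Adj (q 0) (q 1) = a, Adj (q 0) (q 2) = b, Adj (q 0) (q 3) = c,
      Adj (q 1) (q 2) = d, Adj (q 1) (q 3) = e, Adj (q 2) (q 3) = f at *
    by_cases a <;> by_cases b <;> by_cases c <;> simp_all
  rcases key with ⟨a, b, c⟩ | ⟨a, b, c⟩ | ⟨a, b, c⟩ | ⟨a, b, c⟩
  · refine ⟨_, hq 0, fun e he k => ?_⟩
    rcases al e he with rfl | rfl | rfl | rfl
    exacts [absurd rfl k, a, b, c]
  · refine ⟨_, hq 1, fun e he k => ?_⟩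
    rcases al e he with rfl | rfl | rfl | rfl
    exacts [fun m => a m.symm, absurd rfl k, b, c]
  · refine ⟨_, hq 2, fun e he k => ?_⟩
    rcases al e he with rfl | rfl | rfl | rfl
    exacts [fun m => a m.symm, fun m => b m.symm, absurd rfl k, c]
  · refine ⟨_, hq 3, fun e he k => ?_⟩
    rcases al e he with rfl | rfl | rfl | rfl
    exacts [fun m => a m.symm, fun m => b m.symm, fun m => c m.symm, absurd rfl k]

/-- the eight vertices of three members with intersections of sizes three, two, two -/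
theorem x15_name {c w y : Finset V} (hy : y.card = 5) (ht : ∀ v ∈ c, v ∈ w → v ∉ y)
    (h3 : (c ∩ w).card = 3) (h2 : (c ∩ y).card = 2) (h2' : (w ∩ y).card = 2) :
    ∃ b : ℕ → V, Set.InjOn b (range 8 : Finset ℕ) ∧ (∀ j, j < 8 → b j ∈ c ∨ b j ∈ w ∨ b j ∈ y) ∧
      (∀ C ∈ X15.cv, (b C.1 ∈ c ∨ b C.2 ∈ c) ∧ (b C.1 ∈ w ∨ b C.2 ∈ w) ∧
        (b C.1 ∈ y ∨ b C.2 ∈ y)) ∧ b 7 ∉ c ∧ b 7 ∉ w := by
  obtain ⟨s0, s1, s2, n1, n2, n3, hS⟩ := card_eq_three.1 h3
  obtain ⟨d0, d1, n4, hD⟩ := card_eq_two.1 h2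
  obtain ⟨f0, f1, n5, hF⟩ := card_eq_two.1 h2'
  have hx : ∃ x ∈ y, x ∉ c ∧ x ∉ w := by
    by_contra h
    push Not at h
    have s : y ⊆ c ∩ y ∪ w ∩ y := fun v hv => by
      by_cases k : v ∈ c
      · exact mem_union_left _ (mem_inter.2 ⟨k, hv⟩)
      · exact mem_union_right _ (mem_inter.2 ⟨h v hv k, hv⟩)
    have := (card_le_card s).trans (card_union_le _ _)
    omega
  obtain ⟨x, xy, xc, xw⟩ := hx
  have ⟨a0, b0⟩ := mem_inter.1 (hS ▸ by simp : s0 ∈ c ∩ w)
  have ⟨a1, b1⟩ := mem_inter.1 (hS ▸ by simp : s1 ∈ c ∩ w)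
  have ⟨a2, b2⟩ := mem_inter.1 (hS ▸ by simp : s2 ∈ c ∩ w)
  have ⟨a3, b3⟩ := mem_inter.1 (hD ▸ by simp : d0 ∈ c ∩ y)
  have ⟨a4, b4⟩ := mem_inter.1 (hD ▸ by simp : d1 ∈ c ∩ y)
  have ⟨a5, b5⟩ := mem_inter.1 (hF ▸ by simp : f0 ∈ w ∩ y)
  have ⟨a6, b6⟩ := mem_inter.1 (hF ▸ by simp : f1 ∈ w ∩ y)
  have c0 := ht _ a0 b0
  have c1 := ht _ a1 b1
  have c2 := ht _ a2 b2
  have c5 : f0 ∉ c := fun h => ht _ h a5 b5
  have c6 : f1 ∉ c := fun h => ht _ h a6 b6
  have nd : [s0, s1, s2, d0, d1, f0, f1, x].Nodup := by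
    have q : ∀ {e : Finset V} {u v : V}, u ∉ e → v ∈ e → u ≠ v := fun h1 h2 k => h1 (k ▸ h2)
    simp only [List.nodup_cons, List.mem_cons, List.not_mem_nil, not_or, or_false,
      not_false_eq_true, List.nodup_nil, and_true]
    exact ⟨⟨n1, n2, q c0 b3, q c0 b4, q c0 b5, q c0 b6, q c0 xy⟩,
      ⟨n3, q c1 b3, q c1 b4, q c1 b5, q c1 b6, q c1 xy⟩,
      ⟨q c2 b3, q c2 b4, q c2 b5, q c2 b6, q c2 xy⟩,
      ⟨n4, (q c5 a3).symm, (q c6 a3).symm, (q xc a3).symm⟩,
      ⟨(q c5 a4).symm, (q c6 a4).symm, (q xc a4).symm⟩, ⟨n5, (q xw a5).symm⟩, (q xw a6).symm⟩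
  refine ⟨fun j => [s0, s1, s2, d0, d1, f0, f1, x].getD j x, fun i hi j hj e => ?_,
    fun j hj => ?_, fun C hC => ?_, xc, xw⟩
  · have hi' : i < [s0, s1, s2, d0, d1, f0, f1, x].length := mem_range.1 hi
    have hj' : j < [s0, s1, s2, d0, d1, f0, f1, x].length := mem_range.1 hj
    simp only [List.getD_eq_getElem _ _ hi', List.getD_eq_getElem _ _ hj'] at e
    exact (nd.getElem_inj_iff).1 e
  · rcases (by omega : j = 0 ∨ j = 1 ∨ j = 2 ∨ j = 3 ∨ j = 4 ∨ j = 5 ∨ j = 6 ∨ j = 7) with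
      rfl | rfl | rfl | rfl | rfl | rfl | rfl | rfl
    exacts [Or.inl a0, Or.inl a1, Or.inl a2, Or.inl a3, Or.inl a4, Or.inr (Or.inl a5),
      Or.inr (Or.inl a6), Or.inr (Or.inr xy)]
  · simp only [X15.cv, List.mem_cons, List.not_mem_nil, or_false] at hC
    rcases hC with rfl | rfl | rfl | rfl | rfl | rfl | rfl | rfl | rfl | rfl | rfl | rfl | rfl |
      rfl | rfl | rfl | rfl | rfl | rfl <;>
    simp only [List.getD_cons_zero, List.getD_cons_succ, a0, a1, a2, a3, a4, a5, a6, b0, b1, b2, b3,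
      b4, b5, b6, xy, true_or, or_true, and_self]

theorem x15_eight {H : Finset (Finset V)} (h5 : U5 H) (h2 : ∀ v, dg H v ≤ 2) (hm : H.card = 3)
    (hn : (cov H).card = 8) : ∃ b : ℕ → V, Set.InjOn b (range 8 : Finset ℕ) ∧
      cov H = (range 8).image b ∧ (∀ C ∈ X15.cv, ∀ e ∈ H, b C.1 ∈ e ∨ b C.2 ∈ e) ∧
      dg H (b 7) ≤ 1 := by
  have fin : ∀ c w y : Finset V, (∀ e, e ∈ H ↔ e = c ∨ e = w ∨ e = y) →
      (∀ v ∈ c, v ∈ w → v ∉ y) → (c ∩ w).card = 3 → (c ∩ y).card = 2 → (w ∩ y).card = 2 →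
      ∃ b : ℕ → V, Set.InjOn b (range 8 : Finset ℕ) ∧ cov H = (range 8).image b ∧
        (∀ C ∈ X15.cv, ∀ e ∈ H, b C.1 ∈ e ∨ b C.2 ∈ e) ∧ dg H (b 7) ≤ 1 := by
    intro c w y al ht k1 k2 k3
    obtain ⟨b, b1, b2, b3, b4, b5⟩ := x15_name (h5 y ((al y).2 (by simp))) ht k1 k2 k3
    refine ⟨b, b1, (eq_of_subset_of_card_le (fun v hv => ?_) ?_).symm, fun C hC e he => ?_, ?_⟩
    · obtain ⟨j, hj, rfl⟩ := mem_image.1 hv
      rcases b2 j (mem_range.1 hj) with h | h | h
      exacts [mem_cov.2 ⟨c, (al c).2 (by simp), h⟩, mem_cov.2 ⟨w, (al w).2 (by simp), h⟩,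
        mem_cov.2 ⟨y, (al y).2 (by simp), h⟩]
    · rw [card_image_of_injOn b1, hn, card_range]
    · rcases (al e).1 he with rfl | rfl | rfl
      exacts [(b3 C hC).1, (b3 C hC).2.1, (b3 C hC).2.2]
    · refine (card_le_card (t := {y}) fun e he => ?_).trans (card_singleton y).le
      obtain ⟨h1, h2⟩ := mem_star.1 he
      rcases (al e).1 h1 with rfl | rfl | rfl
      exacts [absurd h2 b4, absurd h2 b5, mem_singleton_self _]
  obtain ⟨x, y, z, hxy, hxz, hyz, hH⟩ := card_eq_three.1 hm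
  have al : ∀ e, e ∈ H ↔ e = x ∨ e = y ∨ e = z := fun e => by rw [hH]; simp
  have ht : ∀ v ∈ x, v ∈ y → v ∉ z := fun v a b c => by
    have h1 : H ⊆ star H v := fun e he => mem_star.2 ⟨he, by
      rcases (al e).1 he with rfl | rfl | rfl <;> assumption⟩
    have h3 := card_le_card h1
    have h4 : (star H v).card ≤ 2 := h2 v
    omega
  have hc : cov H = (x ∪ y) ∪ z := by
    ext v
    rw [mem_cov, hH]
    simp
  have cx := h5 x ((al x).2 (by simp))
  have cy := h5 y ((al y).2 (by simp))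
  have cz := h5 z ((al z).2 (by simp))
  have e1 := card_union_add_card_inter x y
  have e2 := card_union_add_card_inter (x ∪ y) z
  have e3 : ((x ∪ y) ∩ z).card = (x ∩ z).card + (y ∩ z).card := by
    rw [union_inter_distrib_right, card_union_of_disjoint (disjoint_left.2 fun v h1 h3 =>
      ht v (mem_inter.1 h1).1 (mem_inter.1 h3).1 (mem_inter.1 h3).2)]
  rw [← hc, hn, e3] at e2
  have hty : ∀ v ∈ y, v ∈ z → v ∉ x := fun v a b c => ht v c a b
  have htz : ∀ v ∈ x, v ∈ z → v ∉ y := fun v a b c => ht v a c b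
  have b1 := base_two ht
  have b2 := base_two hty
  have b3 := base_two (x := z) (y := x) (z := y) fun v a b c => ht v b c a
  rw [inter_comm y x] at b2
  rw [inter_comm z x, inter_comm z y] at b3
  by_cases k1 : (x ∩ y).card = 3
  · exact fin x y z al ht k1 (by omega) (by omega)
  by_cases k2 : (x ∩ z).card = 3
  · exact fin x z y (fun e => (al e).trans (by tauto)) htz k2 (by omega)
      (by rw [inter_comm]; omega)
  · exact fin y z x (fun e => (al e).trans (by tauto)) hty (by omega) (by rw [inter_comm]; omega)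
      (by rw [inter_comm]; omega)

theorem x15_struct {R : Finset (Finset V)} (h5 : U5 R) (hm : R.card = 4) (hn : (cov R).card ≤ 13)
    (ht : 3 ≤ tau R) : ∃ z ∈ R, ∃ b : ℕ → V, Set.InjOn b (range 8 : Finset ℕ) ∧
      Disjoint z ((range 8).image b) ∧ z ∪ (range 8).image b ⊆ cov R ∧
      (∀ C ∈ X15.cv, ∀ e ∈ R, e ≠ z → b C.1 ∈ e ∨ b C.2 ∈ e) ∧ dg R (b 7) ≤ 1 := by
  obtain ⟨x, hx, h⟩ := x15_iso h5 hm hn ht
  have s : R.erase x ⊆ R := erase_subset _ _
  have m : (R.erase x).card = 3 := by rw [card_erase_of_mem hx, hm]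
  have d2 : ∀ v, dg (R.erase x) v ≤ 2 := fun v => by
    by_contra hv
    have e : star (R.erase x) v = R.erase x :=
      eq_of_subset_of_card_le (filter_subset _ _) (by unfold dg at hv; omega)
    obtain ⟨w, hw⟩ := h5.ne x hx
    have := qx15_two (R := R) v w fun y hy => by
      by_cases k : y = x
      · exact Or.inr (k ▸ hw)
      · exact Or.inl (mem_star.1 (e.symm ▸ mem_erase.2 ⟨k, hy⟩ : y ∈ star (R.erase x) v)).2
    omega
  have h1 : x ∪ cov (R.erase x) ⊆ cov R :=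
    union_subset (fun v hv => mem_cov.2 ⟨x, hx, hv⟩) (cov_mono s)
  have dj : Disjoint x (cov (R.erase x)) := disjoint_left.2 fun v hv hw => by
    obtain ⟨e, he, k⟩ := mem_cov.1 hw
    exact h e (s he) (mem_erase.1 he).1 ⟨v, hv, k⟩
  have h2 := card_le_card h1
  rw [card_union_of_disjoint dj, h5 x hx] at h2
  have h3 := sum_deg (h5.mono s)
  have h4 : ∑ v ∈ cov (R.erase x), (star (R.erase x) v).card ≤ (cov (R.erase x)).card • 2 :=
    sum_le_card_nsmul _ _ _ fun v _ => d2 v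
  rw [nsmul_eq_mul, Nat.cast_id] at h4
  obtain ⟨b, b1, b2, b3, b4⟩ := x15_eight (h5.mono s) d2 m (by omega)
  rw [b2] at h1 dj
  refine ⟨x, hx, b, b1, dj, h1, fun C hC e he k => b3 C hC e (mem_erase.2 ⟨k, he⟩),
    (card_le_card fun e he => ?_).trans b4⟩
  obtain ⟨k1, k2⟩ := mem_star.1 he
  refine mem_star.2 ⟨mem_erase.2 ⟨fun k => ?_, k1⟩, k2⟩
  exact disjoint_left.1 dj (k ▸ k2) (mem_image_of_mem b (by simp))

/-- four hosts, each with four vertices in `z` or among the eight vertices, at most one with `b 7` -/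
theorem x15_side {A : Finset (Finset V)} (hA : A.card = 4) {z : Finset V} (hz : z.card = 5)
    (b : ℕ → V) (hc : ∀ a ∈ A, (z.filter fun u => u ∈ a).card +
      ((range 8).filter fun j => b j ∈ a).card = 4) (hx : dg A (b 7) ≤ 1) :
    ∃ u ∈ z, ∃ C ∈ X15.cv, ∀ a ∈ A, u ∈ a ∨ b C.1 ∈ a ∨ b C.2 ∈ a := by
  obtain ⟨q, q1, q2, q3⟩ := exists_enum hA
  obtain ⟨p, p1, p2, p3⟩ := exists_enum hz
  obtain ⟨X, hX⟩ : ∃ X : ℕ → ℕ, ∀ i, X i =
      Nat.ofBits fun j : Fin 8 => decide (b j ∈ q (Fin.ofNat 4 i)) := ⟨_, fun _ => rfl⟩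
  obtain ⟨t, ht⟩ : ∃ t : Fin 5 → ℕ, ∀ u, t u =
      Nat.ofBits fun i : Fin 4 => decide (p u ∉ q i) := ⟨_, fun _ => rfl⟩
  have o : ∀ i (h : i < 4), Fin.ofNat 4 i = ⟨i, h⟩ := fun i h => Fin.ext (Nat.mod_eq_of_lt h)
  have xb : ∀ i j, j < 8 → (X i).testBit j = decide (b j ∈ q (Fin.ofNat 4 i)) := fun i j hj => by
    rw [hX, Nat.testBit_ofBits_lt _ _ hj]
  have tb : ∀ u i, i < 4 → (t u).testBit i = decide (p u ∉ q (Fin.ofNat 4 i)) := fun u i hi => by
    rw [ht, Nat.testBit_ofBits_lt _ _ hi, o i hi]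
  have x8 : ∀ i, X i < 256 := fun i => by
    rw [hX]
    exact Nat.ofBits_lt_two_pow _
  refine (X15.side_fin X x8 t (fun u => by
    rw [ht]
    exact Nat.ofBits_lt_two_pow _) (fun i hi => ?_) (fun i hi j hj ij => ?_)).elim
      fun u ⟨C, hC, h⟩ => ?_
  rotate_right
  · refine ⟨p u, p2 u, C, hC, fun a ha => ?_⟩
    obtain ⟨i, rfl⟩ := q3 a ha
    by_cases k : p u ∈ q i
    · exact Or.inl k
    have h8 : C.1 < 8 ∧ C.2 < 8 := (by decide : ∀ C ∈ X15.cv, C.1 < 8 ∧ C.2 < 8) C hC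
    have h1 := h i i.2 (by rw [tb u i i.2, o i i.2]; exact decide_eq_true k)
    rw [X15.hit, xb _ _ h8.1, xb _ _ h8.2, o i i.2, Bool.or_eq_true, decide_eq_true_eq,
      decide_eq_true_eq] at h1
    exact Or.inr h1
  · have h1 := hc _ (q2 (Fin.ofNat 4 i))
    have h2 : ((range 8).filter fun j => b j ∈ q (Fin.ofNat 4 i)).card = X15.pc (X i) := by
      rw [card_filter, X15.pc, xb i 0 (by omega), xb i 1 (by omega), xb i 2 (by omega),
        xb i 3 (by omega), xb i 4 (by omega), xb i 5 (by omega), xb i 6 (by omega),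
        xb i 7 (by omega)]
      simp only [sum_range_succ, range_zero, sum_empty, zero_add, Bool.toNat, Bool.cond_decide]
    have h3 : ∑ u, ((t u).testBit i).toNat = (z.filter fun u => u ∉ q (Fin.ofNat 4 i)).card := by
      have e : z = univ.image p := by
        ext v
        simp only [mem_image, mem_univ, true_and]
        exact ⟨fun hv => (p3 v hv).imp fun _ k => k.symm, fun ⟨x, k⟩ => k ▸ p2 x⟩
      rw [card_filter, e, sum_image fun _ _ _ _ k => p1 k]
      refine sum_congr rfl fun u _ => ?_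
      rw [tb u i hi, Bool.toNat, Bool.cond_decide]
    have h4 := card_filter_add_card_filter_not (s := z) fun u => u ∈ q (Fin.ofNat 4 i)
    omega
  · by_contra k
    have h1 : ∀ i, 128 ≤ X i → q (Fin.ofNat 4 i) ∈ star A (b 7) := fun i hi => by
      have := (X15.c0' (x8 i)).2.1
      rw [xb i 7 (by omega), Nat.ble_eq_true_of_le hi, decide_eq_true_eq] at this
      exact mem_star.2 ⟨q2 _, this⟩
    have h2 := q1 (card_le_one.1 hx _ (h1 i (by omega)) _ (h1 j (by omega)))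
    rw [o i hi, o j hj] at h2
    exact ij (congrArg Fin.val h2)

theorem x15_fin {H : Finset (Finset V)} (h5 : U5 H) {v w : V} {z : Finset V} {b : ℕ → V}
    (hz : z.card = 5) (b1 : Set.InjOn b (range 8 : Finset ℕ)) (dj : Disjoint z ((range 8).image b))
    (hv : v ∉ z ∪ (range 8).image b) (hc : cov H ⊆ insert v (insert w (z ∪ (range 8).image b)))
    (vw : ∀ e ∈ H, v ∈ e → w ∉ e) (d4 : dg H v = 4) (hx : dg (star H v) (b 7) ≤ 1)
    (hR : ∀ C ∈ X15.cv, ∀ e ∈ H, v ∉ e → w ∉ e → e ≠ z → b C.1 ∈ e ∨ b C.2 ∈ e) :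
    tau H ≤ 4 := by
  refine (x15_side (A := star H v) d4 hz b (fun a ha => ?_) hx).elim fun u ⟨hu, C, hC, h⟩ => ?_
  rotate_right
  · refine (tau_le (T := {u, b C.1, b C.2, w}) fun e he => ?_).trans card_le_four
    by_cases k1 : w ∈ e
    · exact ⟨w, k1, by simp⟩
    by_cases k2 : v ∈ e
    · rcases h e (mem_star.2 ⟨he, k2⟩) with k | k | k
      exacts [⟨_, k, by simp⟩, ⟨_, k, by simp⟩, ⟨_, k, by simp⟩]
    by_cases k3 : e = z
    · exact ⟨u, k3 ▸ hu, by simp⟩
    rcases hR C hC e he k2 k1 k3 with k | k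
    exacts [⟨_, k, by simp⟩, ⟨_, k, by simp⟩]
  · obtain ⟨h1, h2⟩ := mem_star.1 ha
    have e : a = insert v ((z ∪ (range 8).image b).filter fun u => u ∈ a) := by
      ext y
      rw [mem_insert, mem_filter]
      refine ⟨fun hy => ?_, fun hy => hy.elim (fun k => k ▸ h2) And.right⟩
      rcases mem_insert.1 (hc (mem_cov.2 ⟨a, h1, hy⟩)) with k | k
      · exact Or.inl k
      rcases mem_insert.1 k with k | k
      · exact absurd (k ▸ hy) (vw a h1 h2)
      · exact Or.inr ⟨k, hy⟩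
    have c := congrArg card e
    rw [h5 a h1, card_insert_of_notMem fun k => hv (mem_filter.1 k).1, filter_union,
      card_union_of_disjoint (disjoint_filter_filter dj), filter_image,
      card_image_of_injOn (b1.mono (coe_subset.2 (filter_subset _ _)))] at c
    omega

theorem x15_full {H : Finset (Finset V)} (h5 : U5 H) (hm : H.card = 12) (hn : (cov H).card = 15)
    (h4 : ∀ v, dg H v ≤ 4) : tau H ≤ 4 := by
  by_contra ht
  have d4 : ∀ v ∈ cov H, dg H v = 4 := by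
    refine (sum_eq_sum_iff_of_le (f := fun v => dg H v) (g := fun _ => 4) fun v _ => h4 v).1 ?_
    rw [sum_const, hn]
    exact (sum_deg h5).trans (by rw [hm]; rfl)
  by_cases h : ∀ v ∈ cov H, ∀ w ∈ cov H, ∃ e ∈ H, v ∈ e ∧ w ∈ e
  · exact x15_count h5 hm hn d4 h
  push Not at h
  obtain ⟨v, hv, w, hw, h⟩ := h
  have vw : v ≠ w := by
    rintro rfl
    obtain ⟨e, he, k⟩ := mem_cov.1 hv
    exact h e he k k
  obtain ⟨R, hR⟩ : ∃ R, R = H \ (star H v ∪ star H w) := ⟨_, rfl⟩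
  have s : R ⊆ H := hR ▸ sdiff_subset
  have mem : ∀ e, e ∈ R ↔ e ∈ H ∧ v ∉ e ∧ w ∉ e := fun e => by
    simp only [hR, mem_sdiff, mem_union, mem_star]
    tauto
  have t := tau_le_two (S := H) (h5.mono s).ne v w fun e he => by
    rw [mem]
    tauto
  have m4 : R.card = 4 := by
    have a := d4 v hv
    have b := d4 w hw
    unfold dg at a b
    rw [hR, card_sdiff_of_subset (show star H v ∪ star H w ⊆ H from
      union_subset (filter_subset _ _) (filter_subset _ _)),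
      card_union_of_disjoint (disjoint_left.2 fun e h1 h2 =>
        h e (mem_star.1 h1).1 (mem_star.1 h1).2 (mem_star.1 h2).2), a, b, hm]
  have c : cov R ⊆ cov H \ {v, w} := fun u hu => by
    obtain ⟨e, he, k⟩ := mem_cov.1 hu
    obtain ⟨h1, h2, h3⟩ := (mem e).1 he
    refine mem_sdiff.2 ⟨mem_cov.2 ⟨e, h1, k⟩, fun m => ?_⟩
    rcases mem_insert.1 m with rfl | m
    · exact h2 k
    · exact h3 (mem_singleton.1 m ▸ k)
  have c13 : (cov H \ {v, w}).card = 13 := by
    rw [card_sdiff_of_subset (insert_subset hv (singleton_subset_iff.2 hw)), card_pair vw, hn]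
  obtain ⟨z, hz, b, b1, dj, b2, b3, -⟩ :=
    x15_struct (h5.mono s) m4 ((card_le_card c).trans c13.le) (by omega)
  have z5 := h5 z (s hz)
  have e : z ∪ (range 8).image b = cov H \ {v, w} := eq_of_subset_of_card_le (b2.trans c) (by
    rw [c13, card_union_of_disjoint dj, z5, card_image_of_injOn b1, card_range])
  have dj' : Disjoint (star (star H v) (b 7)) (star (star H w) (b 7)) :=
    disjoint_left.2 fun a h1 h2 => h a (mem_star.1 (mem_star.1 h1).1).1
      (mem_star.1 (mem_star.1 h1).1).2 (mem_star.1 (mem_star.1 h2).1).2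
  have hy : ∃ y ∈ R, b 7 ∈ y := mem_cov.1 (b2 (mem_union_right _ (mem_image_of_mem b (by simp))))
  obtain ⟨y, y1, y2⟩ := hy
  have sy : insert y (star (star H v) (b 7) ∪ star (star H w) (b 7)) ⊆ star H (b 7) :=
    fun a ha => by
      rcases mem_insert.1 ha with rfl | ha
      · exact mem_star.2 ⟨s y1, y2⟩
      · simp only [mem_union, mem_star] at ha ⊢
        tauto
  have cy := card_le_card sy
  rw [card_insert_of_notMem (by
    have := (mem y).1 y1
    simp only [mem_union, mem_star]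
    tauto), card_union_of_disjoint dj'] at cy
  have dx : (star H (b 7)).card ≤ 4 := h4 _
  by_cases k : dg (star H v) (b 7) ≤ 1
  · refine ht (x15_fin h5 (v := v) (w := w) z5 b1 dj (by rw [e]; simp) (fun u hu => ?_) h (d4 v hv)
      k fun C hC a ha k1 k2 => b3 C hC a ((mem a).2 ⟨ha, k1, k2⟩))
    rw [e]
    simp only [mem_insert, mem_sdiff, mem_singleton]
    tauto
  · refine ht (x15_fin h5 (v := w) (w := v) z5 b1 dj (by rw [e]; simp) (fun u hu => ?_)
      (fun a ha k1 k2 => h a ha k2 k1) (d4 w hw) (by unfold dg at k ⊢; omega)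
      fun C hC a ha k1 k2 => b3 C hC a ((mem a).2 ⟨ha, k2, k1⟩))
    rw [e]
    simp only [mem_insert, mem_sdiff, mem_singleton]
    tauto

end Pool.Agent.Work.MP_d266e7_co.C5.P24
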