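import Pool.Agent.Work.MP_d266e7_co.P24Q.QDefs

/-!
`x15_four`: no vertex has degree three or more (else `tau ≤ 2`, `tau_le_two`). Name the four
members (`exists_enum`). For each of the three ways to split them into two pairs one pair is
disjoint (else `tau ≤ 2`). So three members are pairwise disjoint (fifteen vertices, too many) or
one member is disjoint from the three others; these cover at most eight vertices with degrees at
most two, so exactly eight (`sum_deg`), `h8_trace`, `hi_mono`. `x15_count`: put `l v w = (star H v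
∩ star H w).card`. For fixed `v`: `∑ w, l v w = 20`, `l v v = 4`, the fourteen other terms are at
least one and add up to 16, so `∑ w, (l v w)^2 ≤ 16 + 22` (write `l = 1 + e`, `∑ e = 2`, `e^2 ≤ 2
e`). Double counting: `∑ v w, (l v w)^2 = ∑ e f, |e ∩ f|^2` and `∑ e f, |e ∩ f| = ∑ v, 16 = 240`;
the diagonal gives `12 * 25`, off the diagonal `3 k ≤ k^2 + 2` on 132 pairs with sum 180 gives at
least 276; `576 ≤ 570` is false. `x15`: all degrees are four (`sum_deg`); if two vertices have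
disjoint stars, remove both stars (`tau_le_two`) and use `x15_four`, else `x15_count`.
-/

namespace Pool.Agent.Work.MP_d266e7_co.C5.P24

open Finset

variable {V : Type} [DecidableEq V]

theorem qx15_two {R : Finset (Finset V)} (v w : V) (h : ∀ e ∈ R, v ∈ e ∨ w ∈ e) : tau R ≤ 2 := by
  have := tau_le_two (S := R) (A := ∅) (fun e he => absurd he (notMem_empty e)) v w
    fun e he => Or.inr (h e he)
  rwa [tau_empty] at this

theorem qx15_pair {R : Finset (Finset V)} (ht : 3 ≤ tau R) {a b c d : Finset V}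
    (h : ∀ e ∈ R, e = a ∨ e = b ∨ e = c ∨ e = d) : ¬ (Adj a b ∧ Adj c d) := by
  rintro ⟨⟨v, va, vb⟩, w, wc, wd⟩
  have := qx15_two (R := R) v w fun e he => by
    rcases h e he with rfl | rfl | rfl | rfl
    exacts [Or.inl va, Or.inl vb, Or.inr wc, Or.inr wd]
  omega

omit [DecidableEq V] in
theorem qx15_disj {a b : Finset V} (h : ¬ Adj a b) : Disjoint a b :=
  disjoint_left.2 fun v h1 h2 => h ⟨v, h1, h2⟩

theorem qx15_three {R : Finset (Finset V)} (h5 : U5 R) (hn : (cov R).card ≤ 13) {a b c : Finset V}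
    (ha : a ∈ R) (hb : b ∈ R) (hc : c ∈ R) : Adj a b ∨ Adj a c ∨ Adj b c := by
  by_contra h
  simp only [not_or] at h
  have h1 : a ∪ b ∪ c ⊆ cov R := fun v hv => by
    simp only [mem_union] at hv
    rcases hv with (hv | hv) | hv
    exacts [mem_cov.2 ⟨a, ha, hv⟩, mem_cov.2 ⟨b, hb, hv⟩, mem_cov.2 ⟨c, hc, hv⟩]
  have h2 := card_le_card h1
  rw [card_union_of_disjoint (disjoint_union_left.2 ⟨qx15_disj h.2.1, qx15_disj h.2.2⟩),
    card_union_of_disjoint (qx15_disj h.1), h5 a ha, h5 b hb, h5 c hc] at h2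
  omega

theorem qx15_iso {R : Finset (Finset V)} (h5 : U5 R) (hm : R.card = 4) (hn : (cov R).card ≤ 13)
    (ht : 3 ≤ tau R) {x : Finset V} (hx : x ∈ R) (h : ∀ e ∈ R, e ≠ x → ¬ Adj x e) :
    1 ≤ hi R R := by
  have s : R.erase x ⊆ R := erase_subset _ _
  have m : (R.erase x).card = 3 := by rw [card_erase_of_mem hx, hm]
  have d2 : ∀ v, dg (R.erase x) v ≤ 2 := fun v => by
    by_contra hv
    have e : star (R.erase x) v = R.erase x :=
      eq_of_subset_of_card_le (filter_subset _ _) (by unfold dg at hv; omega)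
    obtain ⟨w, hw⟩ := h5.ne x hx
    have := qx15_two (R := R) v w fun y hy => by
      by_cases k : y = x
      · exact Or.inr (k ▸ hw)
      · exact Or.inl (mem_star.1 (e.symm ▸ mem_erase.2 ⟨k, hy⟩ : y ∈ star (R.erase x) v)).2
    omega
  have h1 : x ∪ cov (R.erase x) ⊆ cov R :=
    union_subset (fun v hv => mem_cov.2 ⟨x, hx, hv⟩) (cov_mono s)
  have h2 := card_le_card h1
  rw [card_union_of_disjoint (disjoint_left.2 fun v hv hw => by
    obtain ⟨e, he, k⟩ := mem_cov.1 hw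
    exact h e (s he) (mem_erase.1 he).1 ⟨v, hv, k⟩), h5 x hx] at h2
  have h3 := sum_deg (h5.mono s)
  have h4 : ∑ v ∈ cov (R.erase x), (star (R.erase x) v).card ≤ (cov (R.erase x)).card • 2 :=
    sum_le_card_nsmul _ _ _ fun v _ => d2 v
  rw [nsmul_eq_mul, Nat.cast_id] at h4
  exact (h8_trace (h5.mono s) d2 m (by omega)).trans (hi_mono s s)

theorem x15_four {R : Finset (Finset V)} (h5 : U5 R) (hm : R.card = 4) (hn : (cov R).card ≤ 13)
    (ht : 3 ≤ tau R) : 1 ≤ hi R R := by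
  obtain ⟨q, -, hq, all⟩ := exists_enum hm
  have al : ∀ e ∈ R, e = q 0 ∨ e = q 1 ∨ e = q 2 ∨ e = q 3 := fun e he => by
    obtain ⟨x, rfl⟩ := all e he
    match x with
    | 0 => exact Or.inl rfl
    | 1 => exact Or.inr (Or.inl rfl)
    | 2 => exact Or.inr (Or.inr (Or.inl rfl))
    | 3 => exact Or.inr (Or.inr (Or.inr rfl))
  have p1 := qx15_pair ht al
  have p2 := qx15_pair (a := q 0) (b := q 2) (c := q 1) (d := q 3) ht fun e he => by
    have := al e he
    tauto
  have p3 := qx15_pair (a := q 0) (b := q 3) (c := q 1) (d := q 2) ht fun e he => by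
    have := al e he
    tauto
  have t0 := qx15_three h5 hn (hq 1) (hq 2) (hq 3)
  have t1 := qx15_three h5 hn (hq 0) (hq 2) (hq 3)
  have t2 := qx15_three h5 hn (hq 0) (hq 1) (hq 3)
  have t3 := qx15_three h5 hn (hq 0) (hq 1) (hq 2)
  have key : (¬ Adj (q 0) (q 1) ∧ ¬ Adj (q 0) (q 2) ∧ ¬ Adj (q 0) (q 3)) ∨
      (¬ Adj (q 0) (q 1) ∧ ¬ Adj (q 1) (q 2) ∧ ¬ Adj (q 1) (q 3)) ∨
      (¬ Adj (q 0) (q 2) ∧ ¬ Adj (q 1) (q 2) ∧ ¬ Adj (q 2) (q 3)) ∨
      (¬ Adj (q 0) (q 3) ∧ ¬ Adj (q 1) (q 3) ∧ ¬ Adj (q 2) (q 3)) := by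
    generalize Adj (q 0) (q 1) = a, Adj (q 0) (q 2) = b, Adj (q 0) (q 3) = c,
      Adj (q 1) (q 2) = d, Adj (q 1) (q 3) = e, Adj (q 2) (q 3) = f at *
    by_cases a <;> by_cases b <;> by_cases c <;> simp_all
  rcases key with ⟨a, b, c⟩ | ⟨a, b, c⟩ | ⟨a, b, c⟩ | ⟨a, b, c⟩
  · refine qx15_iso h5 hm hn ht (hq 0) fun e he k => ?_
    rcases al e he with rfl | rfl | rfl | rfl
    exacts [absurd rfl k, a, b, c]
  · refine qx15_iso h5 hm hn ht (hq 1) fun e he k => ?_
    rcases al e he with rfl | rfl | rfl | rfl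
    exacts [fun m => a m.symm, absurd rfl k, b, c]
  · refine qx15_iso h5 hm hn ht (hq 2) fun e he k => ?_
    rcases al e he with rfl | rfl | rfl | rfl
    exacts [fun m => a m.symm, fun m => b m.symm, absurd rfl k, c]
  · refine qx15_iso h5 hm hn ht (hq 3) fun e he k => ?_
    rcases al e he with rfl | rfl | rfl | rfl
    exacts [fun m => a m.symm, fun m => b m.symm, fun m => c m.symm, absurd rfl k]

/-- the numerical form of the double counting -/
theorem qx15_num {A B : Type} [DecidableEq A] [DecidableEq B] {C : Finset A} {H : Finset B}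
    {χ : A → B → ℤ} (hC : C.card = 15) (hH : H.card = 12) (hs : ∀ v e, χ v e * χ v e = χ v e)
    (hr : ∀ v ∈ C, ∑ e ∈ H, χ v e = 4) (hc : ∀ e ∈ H, ∑ v ∈ C, χ v e = 5)
    (h1 : ∀ v ∈ C, ∀ w ∈ C, 1 ≤ ∑ e ∈ H, χ v e * χ w e) : False := by
  have a : ∀ v ∈ C, ∑ w ∈ C, (∑ e ∈ H, χ v e * χ w e) ^ 2 ≤ 38 := fun v hv => by
    have s1 : ∑ w ∈ C, ∑ e ∈ H, χ v e * χ w e = 20 := by
      rw [sum_comm, sum_congr rfl fun e he => by rw [← mul_sum, hc e he], ← sum_mul, hr v hv]
      rfl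
    have s2 : ∑ e ∈ H, χ v e * χ v e = 4 := by simp only [hs, hr v hv]
    have m : ((C.erase v).card : ℤ) = 14 := by rw [card_erase_of_mem hv, hC]; rfl
    rw [← add_sum_erase _ _ hv, s2] at s1 ⊢
    have s3 : ∑ w ∈ C.erase v, ((∑ e ∈ H, χ v e * χ w e) - 1) = 2 := by
      rw [sum_sub_distrib, sum_const, nsmul_one, m]
      omega
    have s4 : ∑ w ∈ C.erase v, (∑ e ∈ H, χ v e * χ w e) ^ 2 ≤
        ∑ w ∈ C.erase v, (4 * ((∑ e ∈ H, χ v e * χ w e) - 1) + 1) := sum_le_sum fun w hw => by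
      have k := single_le_sum (f := fun w => (∑ e ∈ H, χ v e * χ w e) - 1)
        (fun u hu => sub_nonneg.2 (h1 v hv u (mem_of_mem_erase hu))) hw
      have k' := h1 v hv w (mem_of_mem_erase hw)
      rw [s3] at k
      nlinarith
    rw [sum_add_distrib, ← mul_sum, s3, sum_const, nsmul_one, m] at s4
    omega
  have b : ∀ e ∈ H, 48 ≤ ∑ f ∈ H, (∑ v ∈ C, χ v e * χ v f) ^ 2 := fun e he => by
    have s1 : ∑ f ∈ H, ∑ v ∈ C, χ v e * χ v f = 20 := by
      rw [sum_comm, sum_congr rfl fun v hv => by rw [← mul_sum, hr v hv], ← sum_mul, hc e he]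
      rfl
    have s2 : ∑ v ∈ C, χ v e * χ v e = 5 := by simp only [hs, hc e he]
    have m : ((H.erase e).card : ℤ) = 11 := by rw [card_erase_of_mem he, hH]; rfl
    rw [← add_sum_erase _ _ he, s2] at s1 ⊢
    have s4 : ∑ f ∈ H.erase e, (3 * (∑ v ∈ C, χ v e * χ v f) - 2) ≤
        ∑ f ∈ H.erase e, (∑ v ∈ C, χ v e * χ v f) ^ 2 := sum_le_sum fun f _ => by
      generalize ∑ v ∈ C, χ v e * χ v f = k
      rcases le_or_gt k 1 with h | h <;> nlinarith
    rw [sum_sub_distrib, ← mul_sum, sum_const, nsmul_eq_mul, m] at s4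
    omega
  have e : ∑ v ∈ C, ∑ w ∈ C, (∑ e ∈ H, χ v e * χ w e) ^ 2 =
      ∑ e ∈ H, ∑ f ∈ H, (∑ v ∈ C, χ v e * χ v f) ^ 2 := by
    simp only [sq, sum_mul_sum]
    refine (sum_congr rfl fun v _ => sum_comm.trans (sum_congr rfl fun e _ => sum_comm)).trans
      (sum_comm.trans (sum_congr rfl fun e _ => sum_comm.trans (sum_congr rfl fun f _ =>
        sum_congr rfl fun v _ => sum_congr rfl fun w _ => by ring)))
  have a' := sum_le_card_nsmul _ _ _ a
  have b' := card_nsmul_le_sum _ _ _ b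
  rw [e, hC] at a'
  rw [hH] at b'
  have := b'.trans a'
  norm_num at this

theorem x15_count {H : Finset (Finset V)} (h5 : U5 H) (hm : H.card = 12)
    (hn : (cov H).card = 15) (h4 : ∀ v ∈ cov H, dg H v = 4)
    (h : ∀ v ∈ cov H, ∀ w ∈ cov H, ∃ e ∈ H, v ∈ e ∧ w ∈ e) : False := by
  refine qx15_num (χ := fun v e => if v ∈ e then 1 else 0) hn hm
    (fun v e => by split_ifs <;> rfl) (fun v hv => ?_) (fun e he => ?_) fun v hv w hw => ?_
  · rw [sum_boole]
    exact_mod_cast h4 v hv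
  · rw [sum_boole, filter_mem_eq_inter, inter_eq_right.2 fun v hv => mem_cov.2 ⟨e, he, hv⟩, h5 e he]
    rfl
  · obtain ⟨e, he, h1, h2⟩ := h v hv w hw
    refine le_trans ?_ (single_le_sum
      (f := fun e => (if v ∈ e then (1 : ℤ) else 0) * if w ∈ e then 1 else 0)
      (fun f _ => by split_ifs <;> norm_num) he)
    simp only [h1, h2, if_true, mul_one, le_refl]

theorem x15 {H : Finset (Finset V)} (h5 : U5 H) (hm : H.card = 12) (hn : (cov H).card = 15)
    (h4 : ∀ v, dg H v ≤ 4) (ht : 5 ≤ tau H) : 1 ≤ hi H H := by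
  have d4 : ∀ v ∈ cov H, dg H v = 4 := by
    refine (sum_eq_sum_iff_of_le (f := fun v => dg H v) (g := fun _ => 4) fun v _ => h4 v).1 ?_
    rw [sum_const, hn]
    exact (sum_deg h5).trans (by rw [hm]; rfl)
  by_cases h : ∀ v ∈ cov H, ∀ w ∈ cov H, ∃ e ∈ H, v ∈ e ∧ w ∈ e
  · exact (x15_count h5 hm hn d4 h).elim
  push Not at h
  obtain ⟨v, hv, w, hw, h⟩ := h
  have vw : v ≠ w := by
    rintro rfl
    obtain ⟨e, he, k⟩ := mem_cov.1 hv
    exact h e he k k
  have s : H \ (star H v ∪ star H w) ⊆ H := sdiff_subset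
  have mem : ∀ e, e ∈ H \ (star H v ∪ star H w) ↔ e ∈ H ∧ v ∉ e ∧ w ∉ e := fun e => by
    simp only [mem_sdiff, mem_union, mem_star]
    tauto
  have t := tau_le_two (S := H) (h5.mono s).ne v w fun e he => by
    rw [mem]
    tauto
  refine (x15_four (h5.mono s) ?_ ?_ (by omega)).trans (hi_mono s s)
  · have a := d4 v hv
    have b := d4 w hw
    unfold dg at a b
    rw [card_sdiff_of_subset (show star H v ∪ star H w ⊆ H from
      union_subset (filter_subset _ _) (filter_subset _ _)),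
      card_union_of_disjoint (disjoint_left.2 fun e h1 h2 =>
        h e (mem_star.1 h1).1 (mem_star.1 h1).2 (mem_star.1 h2).2), a, b, hm]
  · have c : cov (H \ (star H v ∪ star H w)) ⊆ cov H \ {v, w} := fun u hu => by
      obtain ⟨e, he, k⟩ := mem_cov.1 hu
      obtain ⟨h1, h2, h3⟩ := (mem e).1 he
      refine mem_sdiff.2 ⟨mem_cov.2 ⟨e, h1, k⟩, fun m => ?_⟩
      rcases mem_insert.1 m with rfl | m
      · exact h2 k
      · exact h3 (mem_singleton.1 m ▸ k)
    have c' := card_le_card c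
    rw [card_sdiff_of_subset (insert_subset hv (singleton_subset_iff.2 hw)), card_pair vw, hn] at c'
    exact c'

end Pool.Agent.Work.MP_d266e7_co.C5.P24
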