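import Pool.Agent.Work.MP_d266e7_co.P24Q.QStep
import Pool.Agent.Work.MP_d266e7_co.P24Q.QX15
import Pool.Agent.Work.MP_d266e7_co.C5.Final

/-!
`final24`: same induction as `final_aux` in C5/Final.lean with `hi_mono` and `hi_add`; in the last
case `ihq`, `four_le`, `c5_inf`; `E10` is direct; for `TB _ 2` a violation forces `n ≤ 15` and
then `(m, n, tau, hi) = (12, 15, 5, 0)` (checked numerically; give omega the bound on `n` first,
or split on `n`), excluded by `x15`. `export24`: as `export_inf`; the number of traces does not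
grow along `map Fin.valEmbedding` (`card_le_card_of_surjOn` or an explicit image; `sd c w =
symmDiff c w`).
-/

namespace Pool.Agent.Work.MP_d266e7_co.C5.P24

open Finset

variable {V : Type} [DecidableEq V]

theorem qfinal_num {t m n h : ℕ} (h1 : 67 * t ≤ 14 * m + 11 * n + 3 * h + 2) (h2 : 5 * m ≤ 4 * n)
    (h3 : 16 * t ≤ 3 * n + 3 * m) (h4 : ¬ 44 * t ≤ 9 * n + 7 * m + 2 * h) :
    m = 12 ∧ n = 15 ∧ t = 5 ∧ h = 0 := by
  have hn : n ≤ 40 := by omega
  have hm : m ≤ 32 := by omega
  have ht : t ≤ 14 := by omega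
  interval_cases t <;> omega

theorem qfinal_aux [Infinite V]
    (hbad : ∀ H : Finset (Finset V), Bad2 H → H.card = 6 ∧ (cov H).card = 10) (n : ℕ) :
    ∀ K : Finset (Finset V), K.card < n → U5 K →
      44 * tau K ≤ 9 * (cov K).card + 7 * K.card + 2 * hi K K := by
  induction n with
  | zero => intro K h; omega
  | succ n ih =>
    intro K hn hK
    have IH : ∀ S ⊆ K, S.card < K.card →
        44 * tau S ≤ 9 * (cov S).card + 7 * S.card + 2 * hi S S :=
      fun S h1 h2 => ih S (by omega) (hK.mono h1)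
    by_contra hcon
    have hN := hK.ne
    have deg4 : ∀ v, dg K v ≤ 4 := by
      intro v
      by_contra h
      rw [dg] at h
      have h1 := tau_star hN v
      have h2 := card_star (S := K) v
      have h3 := cov_star (card_pos.1 (show 0 < (star K v).card by omega))
      have h4 := IH (K \ star K v) sdiff_subset (by omega)
      have h5 : hi (K \ star K v) (K \ star K v) ≤ hi K K := hi_mono sdiff_subset sdiff_subset
      omega
    have crit : Crit K := by
      intro e he
      have h1 := card_erase_add_one he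
      have h2 := IH (K.erase e) (erase_subset _ _) (by omega)
      have h3 := card_le_card (cov_mono (erase_subset e K))
      have h5 : hi (K.erase e) (K.erase e) ≤ hi K K :=
        hi_mono (erase_subset _ _) (erase_subset _ _)
      omega
    have conn : Conn K := by
      by_contra h
      obtain ⟨W, w1, w2, w3, w4⟩ := not_conn h
      have e1 := tau_union_le (hN.mono w1) (hN.mono (sdiff_subset (s := K) (t := W)))
      have e5 := w4.card_cov
      rw [union_sdiff_of_subset w1] at e1 e5
      have e2 := card_sdiff_add_card_eq_card w1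
      have e3 : W.card < K.card := card_lt_card (Finset.ssubset_iff_subset_ne.2 ⟨w1, w3⟩)
      have e4 := card_pos.2 w2
      have i1 := IH W w1 e3
      have i2 := IH (K \ W) sdiff_subset (by omega)
      have j1 : hi W W ≤ hi K W := hi_mono w1 Subset.rfl
      have j2 : hi (K \ W) (K \ W) ≤ hi K (K \ W) := hi_mono sdiff_subset Subset.rfl
      have j3 : hi K W + hi K (K \ W) ≤ hi K K := hi_add disjoint_sdiff w1 sdiff_subset
      omega
    have hne : K.Nonempty := by
      refine nonempty_iff_ne_empty.2 fun e => hcon ?_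
      rw [e, tau_empty]
      exact Nat.zero_le _
    have h2 := four_le hK deg4
    have h3 := c5_inf hK
    rcases ihq hbad K.card K le_rfl ⟨hK, crit, conn, hne⟩ deg4 with h1 | h1
    · obtain ⟨a1, a2, a3, a4⟩ := qfinal_num h1 h2 h3 hcon
      have := x15 hK a1 a2 deg4 a3.ge
      omega
    · have a1 := h1.m6
      have a2 := h1.n10
      have a3 := h1.t3
      omega

theorem qfinal_sd (c w : Finset V) : sd c w = symmDiff c w := by
  ext v
  rw [mem_sd, mem_symmDiff]
  tauto

theorem qfinal_hi {W : Type} [DecidableEq W] (f : W ↪ V) (E : Finset (Finset W)) :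
    hi (E.image (map f)) (E.image (map f)) ≤ hi E E := by
  unfold hi
  refine card_le_card_of_surjOn (fun p => p.image (map f)) fun p hp => ?_
  obtain ⟨h1, c, hc, w, hw, h3, y, hy, h4⟩ := mem_filter.1 (mem_coe.1 hp)
  obtain ⟨h5, h6⟩ := mem_powersetCard.1 h1
  obtain ⟨q, hq, rfl⟩ := subset_image_iff.1 h5
  obtain ⟨c', hc', rfl⟩ := mem_image.1 hc
  obtain ⟨w', hw', rfl⟩ := mem_image.1 hw
  obtain ⟨y', hy', rfl⟩ := mem_image.1 hy
  refine ⟨q, mem_coe.2 (mem_filter.2 ⟨mem_powersetCard.2 ⟨hq, ?_⟩, c', hc', w', hw', ?_, y', hy',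
    fun v hv => ?_⟩), rfl⟩
  · rwa [card_image_of_injective _ (map_injective f)] at h6
  · rwa [← map_inter, card_map] at h3
  · refine (mem_map' f).1 (h4 ?_)
    rw [mem_sd] at hv ⊢
    simpa only [mem_map'] using hv

theorem final24 [Infinite V]
    (hbad : ∀ H : Finset (Finset V), Bad2 H → H.card = 6 ∧ (cov H).card = 10)
    {K : Finset (Finset V)} (hK : U5 K) :
    44 * tau K ≤ 9 * (cov K).card + 7 * K.card + 2 * hi K K :=
  qfinal_aux hbad _ K (Nat.lt_succ_self _) hK

theorem export24
    (hbad : ∀ H : Finset (Finset ℕ), Bad2 H → H.card = 6 ∧ (cov H).card = 10)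
    (n : ℕ) (E : Finset (Finset (Fin n))) (hE : ∀ e ∈ E, e.card = 5) :
    ∃ T : Finset (Fin n), (∀ e ∈ E, (e ∩ T).Nonempty) ∧
      44 * T.card ≤ 9 * n + 7 * E.card + 2 * ((E.powersetCard 2).filter fun p =>
        ∃ c ∈ p, ∃ w ∈ p, (c ∩ w).card = 3 ∧ ∃ y ∈ E, symmDiff c w ⊆ y).card := by
  have h5 : U5 (E.image (map Fin.valEmbedding)) := fun e he => by
    obtain ⟨f, hf, rfl⟩ := mem_image.1 he
    rw [card_map, hE f hf]
  obtain ⟨T, h1, h2⟩ := exists_opt h5.ne
  have h4 : (cov (E.image (map Fin.valEmbedding))).card ≤ n := by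
    refine (card_le_card (t := range n) fun v hv => ?_).trans (card_range n).le
    obtain ⟨e, he, hv⟩ := mem_cov.1 hv
    obtain ⟨f, -, rfl⟩ := mem_image.1 he
    obtain ⟨w, -, rfl⟩ := mem_map.1 hv
    exact mem_range.2 w.2
  have h6 := final24 hbad h5
  have h7 := qfinal_hi Fin.valEmbedding E
  have h8 : (E.image (map Fin.valEmbedding)).card ≤ E.card := card_image_le
  have h9 : (univ.filter fun v : Fin n => v.1 ∈ T).card ≤ T.card :=
    card_le_card_of_injOn Fin.val (fun v hv => (mem_filter.1 hv).2) Fin.val_injective.injOn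
  have h10 : hi E E = ((E.powersetCard 2).filter fun p =>
      ∃ c ∈ p, ∃ w ∈ p, (c ∩ w).card = 3 ∧ ∃ y ∈ E, symmDiff c w ⊆ y).card := by
    unfold hi
    congr 1
    refine filter_congr fun p _ => ?_
    simp only [Tr, qfinal_sd]
  refine ⟨univ.filter fun v : Fin n => v.1 ∈ T, fun e he => ?_, by omega⟩
  obtain ⟨v, hv, h3⟩ := h1 _ (mem_image_of_mem _ he)
  obtain ⟨w, hw, rfl⟩ := mem_map.1 hv
  exact ⟨w, mem_inter.2 ⟨hw, mem_filter.2 ⟨mem_univ _, h3⟩⟩⟩

end Pool.Agent.Work.MP_d266e7_co.C5.P24
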