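import Pool.Agent.Work.MP_d266e7_co.P24.T1
import Pool.Agent.Work.MP_d266e7_co.C5.Quad
import Pool.Agent.Work.MP_d266e7_co.C5.Sides

/-!
Definitions for the degree four level of the bound `44 tau ≤ 9 n + 7 m + 2 h`.
Words as in `C5`: a member is a node, a vertex is a block. See `PLAN.md`.
-/

namespace Pool.Agent.Work.MP_d266e7_co.C5.P24

open Finset

variable {V : Type} [DecidableEq V]

/-- the bound for maximum degree four with constant `c` -/
def TB (X : Finset (Finset V)) (c : ℕ) : Prop :=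
  67 * tau X ≤ 14 * X.card + 11 * (cov X).card + 3 * hi X X + c

/-- any two covered vertices lie in a common minimum transversal -/
def Abs2 (X : Finset (Finset V)) : Prop :=
  ∀ v ∈ cov X, ∀ w ∈ cov X, ∃ C, Hits C X ∧ C.card ≤ tau X ∧ v ∈ C ∧ w ∈ C

/-- three disjoint vertex sets of sizes at least `p`, `q`, `r` meet a common minimum
transversal -/
def Rain (X : Finset (Finset V)) (p q r : ℕ) : Prop :=
  ∀ P Q R : Finset V, P ⊆ cov X → Q ⊆ cov X → R ⊆ cov X → Disjoint P Q → Disjoint P R →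
    Disjoint Q R → p ≤ P.card → q ≤ Q.card → r ≤ R.card →
    ∃ C, Hits C X ∧ C.card ≤ tau X ∧ (∃ v ∈ P, v ∈ C) ∧ (∃ v ∈ Q, v ∈ C) ∧ ∃ v ∈ R, v ∈ C

/-- the exceptional family with six members on ten vertices -/
structure E10 (X : Finset (Finset V)) : Prop where
  m6 : X.card = 6
  n10 : (cov X).card = 10
  t3 : tau X = 3
  d3 : ∀ v ∈ cov X, dg X v = 3
  pair : Abs2 X
  r222 : Rain X 2 2 2
  r144 : Rain X 1 4 4

/-- the statement proved by induction -/
def QB (X : Finset (Finset V)) : Prop := TB X 2 ∨ E10 X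

/-- `QB` for all families of size at most `k` -/
def IHQ (V : Type) [DecidableEq V] (k : ℕ) : Prop :=
  ∀ X : Finset (Finset V), X.card ≤ k → CC X → (∀ v, dg X v ≤ 4) → QB X

/-- the bound for a piece `W` with gain `g`; the traces of `H` inside `Y` are counted -/
def PQ (H W Y : Finset (Finset V)) (g : ℕ) : Prop :=
  67 * tau W + g ≤ 14 * W.card + 11 * (cov W).card + 3 * hi H Y + 2

/-- no minimum transversal of `W` meets all three vertex sets -/
def No3 (W : Finset (Finset V)) (a b c : Finset V) : Prop :=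
  ∀ C, Hits C W → C.card ≤ tau W → (∃ v ∈ a, v ∈ C) → (∃ v ∈ b, v ∈ C) → (∃ v ∈ c, v ∈ C) →
    False

/-- some minimum transversal of `W` meets both vertex sets -/
def Jt (W : Finset (Finset V)) (a b : Finset V) : Prop :=
  ∃ C, Hits C W ∧ C.card ≤ tau W ∧ (∃ v ∈ a, v ∈ C) ∧ ∃ v ∈ b, v ∈ C

/-- three new nodes through a new vertex `s`, pairwise joint, not joint all three -/
structure Tri3 (W : Finset (Finset V)) (a b c : Finset V) (s : V) : Prop where
  cc : CC W
  a5 : a.card = 5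
  b5 : b.card = 5
  c5 : c.card = 5
  sa : s ∈ a
  sb : s ∈ b
  sc : s ∈ c
  sW : s ∉ cov W
  no : No3 W a b c
  jab : Jt W a b
  jac : Jt W a c
  jbc : Jt W b c

/-- four hosts through `t` with 4, 3, 3, 3 vertices in the piece `W` -/
structure Pat (H W : Finset (Finset V)) (x y z w : Finset V) (t : V) : Prop where
  u5 : U5 H
  d4 : ∀ v, dg H v ≤ 4
  cc : CC W
  sub : W ⊆ H
  xH : x ∈ H
  yH : y ∈ H
  zH : z ∈ H
  wH : w ∈ H
  xy : x ≠ y
  xz : x ≠ z
  xw : x ≠ w
  yz : y ≠ z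
  yw : y ≠ w
  zw : z ≠ w
  tx : t ∈ x
  ty : t ∈ y
  tz : t ∈ z
  tw : t ∈ w
  tW : t ∉ cov W
  dx : dd W x = 4
  dy : dd W y = 3
  dz : dd W z = 3
  dw : dd W w = 3
  nog : ¬ Gad W (dg H) 2 2
  nyz : No3 W x y z
  nyw : No3 W x y w
  nzw : No3 W x z w

/-- the two hosts share one vertex of `W` and a member of `W` contains their other vertices
in `W` -/
def F2 (W : Finset (Finset V)) (y z : Finset V) : Prop :=
  (y ∩ cov W ∩ (z ∩ cov W)).card = 1 ∧ ∃ d ∈ W, sd (y ∩ cov W) (z ∩ cov W) ⊆ d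

end Pool.Agent.Work.MP_d266e7_co.C5.P24
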