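import Pool.Agent.Work.MP_d266e7_co.P24Q.QDefs

/-!
All ten vertices have degree three (`sum_deg`), and two stars are never disjoint (else the two
vertices cover the six members and `tau ≤ 2`): `e10_deg`, `e10_meet`. Let `v ≠ w` have the same
star `S = {x0, x1, x2}` and `R = H \ S` (three members). `cov R` avoids `v`, `w`, so it has at
most eight vertices, and no vertex has degree three in `R` (its star would be disjoint from `S`);
`sum_deg` gives exactly eight, `h8_trace` gives `1 ≤ hi R R`. Counting `∑ dg R = 15` on the eight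
other vertices: exactly one vertex `s` has `dg R s = 1` (so two members `x0`, `x1` of `S` and one
member `y` of `R` contain it), the seven others lie in two members of `R` and one of `S`. `x0 ∩ x1
= {v, w, s}`. The three vertices of `x2` other than `v`, `w` have stars meeting the star of `s`,
so they lie in `y`. Hence at most one vertex of `sd x0 x1` lies in `y`, the others lie in both
other members `c`, `c'` of `R`, and the one in `y` lies in `c` or in `c'`. So `{x0, x1}` is a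
trace inside `S` (`hi_pos`), and `hi_add`, `hi_mono` finish. Any other correct route is welcome
(for instance `exists_enum` to `Fin 6` and a finite check).
-/

namespace Pool.Agent.Work.MP_d266e7_co.C5.P24

open Finset

variable {V : Type} [DecidableEq V]

theorem e10_deg {H : Finset (Finset V)} (h5 : U5 H) (h3 : ∀ v, dg H v ≤ 3) (hm : H.card = 6)
    (hn : (cov H).card = 10) {v : V} (hv : v ∈ cov H) : dg H v = 3 := by
  have h1 : (cov H).sum (dg H) = 5 * H.card := sum_deg h5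
  have h2 := sum_le_card_nsmul ((cov H).erase v) (fun x => dg H x) 3 fun u _ => h3 u
  rw [← add_sum_erase _ _ hv] at h1
  rw [card_erase_of_mem hv, hn, Nat.nsmul_eq_mul] at h2
  have := h3 v
  omega

theorem e10_meet {H : Finset (Finset V)} (h5 : U5 H) (h3 : ∀ v, dg H v ≤ 3) (hm : H.card = 6)
    (hn : (cov H).card = 10) (ht : tau H = 3) {v w : V} (hv : v ∈ cov H) (hw : w ∈ cov H) :
    ∃ e ∈ H, v ∈ e ∧ w ∈ e := by
  by_contra k
  have hd : Disjoint (star H v) (star H w) := disjoint_left.2 fun e a b =>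
    k ⟨e, (mem_star.1 a).1, (mem_star.1 a).2, (mem_star.1 b).2⟩
  have h1 : (star H v).card = 3 := e10_deg h5 h3 hm hn hv
  have h2 : (star H w).card = 3 := e10_deg h5 h3 hm hn hw
  have h4 : star H v ∪ star H w = H := eq_of_subset_of_card_le
    (union_subset (filter_subset _ _) (filter_subset _ _)) (by rw [card_union_of_disjoint hd]; omega)
  have h6 := tau_le_two (S := H) (A := ∅) (fun _ h => absurd h (notMem_empty _)) v w fun e he =>
    Or.inr ((mem_union.1 (h4.symm ▸ he : e ∈ star H v ∪ star H w)).imp (fun a => (mem_star.1 a).2)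
      fun a => (mem_star.1 a).2)
  rw [tau_empty] at h6
  omega

theorem e10_par {H : Finset (Finset V)} (h5 : U5 H) (h3 : ∀ v, dg H v ≤ 3) (hm : H.card = 6)
    (hn : (cov H).card = 10) (ht : tau H = 3) {v w : V} (hv : v ∈ cov H) (hvw : v ≠ w)
    (hs : star H v = star H w) : 2 ≤ hi H H := by
  obtain ⟨S, hS⟩ : ∃ S, S = star H v := ⟨_, rfl⟩
  obtain ⟨R, hR⟩ : ∃ R, R = H \ S := ⟨_, rfl⟩
  have sS : S ⊆ H := hS ▸ filter_subset _ _
  have sR : R ⊆ H := hR ▸ sdiff_subset
  have dis : Disjoint S R := hR ▸ disjoint_sdiff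
  have cS : S.card = 3 := hS ▸ e10_deg h5 h3 hm hn hv
  have cR : R.card = 3 := by rw [hR, card_sdiff_of_subset sS, hm, cS]
  have mv : ∀ e ∈ H, e ∈ S ↔ v ∈ e := fun e he => by rw [hS, mem_star, and_iff_right he]
  have mw : ∀ e ∈ H, e ∈ S ↔ w ∈ e := fun e he => by rw [hS, hs, mem_star, and_iff_right he]
  have mR : ∀ e ∈ H, e ∈ S ∨ e ∈ R := fun e he => by
    rw [hR, mem_sdiff, and_iff_right he]
    exact em _
  have hw : w ∈ cov H := by
    obtain ⟨e, he, k⟩ := mem_cov.1 hv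
    exact mem_cov.2 ⟨e, he, (mw e he).1 ((mv e he).2 k)⟩
  have sp : ∀ u ∈ cov H, dg S u + dg R u = 3 := fun u hu => by
    rw [← e10_deg h5 h3 hm hn hu, dg, dg, dg, star, star, star,
      ← card_union_of_disjoint (disjoint_filter_filter dis), ← filter_union, hR,
      union_sdiff_of_subset sS]
  have r2 : ∀ u, dg R u ≤ 2 := fun u => by
    by_cases hu : u ∈ cov H
    · obtain ⟨e, he, a, b⟩ := e10_meet h5 h3 hm hn ht hv hu
      have h1 : 0 < dg S u := card_pos.2 ⟨e, mem_star.2 ⟨(mv e he).2 a, b⟩⟩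
      have := sp u hu
      omega
    · rw [dg, eq_empty_of_forall_notMem fun e he =>
        hu (mem_cov.2 ⟨e, sR (mem_star.1 he).1, (mem_star.1 he).2⟩)]
      exact Nat.zero_le _
  have sm : (cov R).sum (dg R) = 5 * R.card := sum_deg (h5.mono sR)
  have sb : cov R ⊆ ((cov H).erase v).erase w := fun u hu => by
    obtain ⟨e, he, k⟩ := mem_cov.1 hu
    have n := disjoint_right.1 dis he
    exact mem_erase.2 ⟨fun q => n ((mw e (sR he)).2 (q ▸ k)),
      mem_erase.2 ⟨fun q => n ((mv e (sR he)).2 (q ▸ k)), cov_mono sR hu⟩⟩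
  have c8 : (((cov H).erase v).erase w).card = 8 := by
    rw [card_erase_of_mem (mem_erase.2 ⟨hvw.symm, hw⟩), card_erase_of_mem hv, hn]
  have c9 := sum_le_card_nsmul (cov R) (dg R) 2 fun u _ => r2 u
  rw [Nat.nsmul_eq_mul] at c9
  have eR := eq_of_subset_of_card_le sb (by omega)
  have cc : (cov R).card = 8 := eR ▸ c8
  have t1 := (h8_trace (h5.mono sR) r2 cR cc).trans (hi_mono sR Subset.rfl)
  refine le_trans ?_ (hi_add dis sS sR)
  refine Nat.add_le_add (a := 1) (c := 1) ?_ t1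
  obtain ⟨s, ms, ds⟩ : ∃ s ∈ cov R, dg R s < 2 := by
    by_contra k
    have := card_nsmul_le_sum (cov R) (dg R) 2 fun u hu => not_lt.1 fun q => k ⟨u, hu, q⟩
    rw [Nat.nsmul_eq_mul] at this
    omega
  have d2 : ∀ u ∈ cov H, u ≠ v → u ≠ w → u ≠ s → dg R u = 2 ∧ dg S u = 1 := fun u hu a b c => by
    have m : u ∈ (cov R).erase s := mem_erase.2 ⟨c, eR ▸ mem_erase.2 ⟨b, mem_erase.2 ⟨a, hu⟩⟩⟩
    have := sum_le_card_nsmul (((cov R).erase s).erase u) (fun x => dg R x) 2
      fun u _ => r2 u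
    rw [card_erase_of_mem m, card_erase_of_mem ms, cc, Nat.nsmul_eq_mul] at this
    rw [← add_sum_erase _ _ ms, ← add_sum_erase _ _ m] at sm
    have := r2 u
    have := sp u hu
    omega
  have one : ∀ u, u ≠ v → u ≠ w → u ≠ s → ∀ a ∈ S, ∀ b ∈ S, u ∈ a → u ∈ b → a = b :=
    fun u a b c e he e' he' k k' => card_le_one.1 (d2 u (mem_cov.2 ⟨e, sS he, k⟩) a b c).2.le
      e (mem_star.2 ⟨he, k⟩) e' (mem_star.2 ⟨he', k'⟩)
  obtain ⟨y, my, sy⟩ := mem_cov.1 ms
  have d1 : 0 < dg R s := card_pos.2 ⟨y, mem_star.2 ⟨my, sy⟩⟩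
  have d3 := sp s (cov_mono sR ms)
  obtain ⟨x0, x1, n01, e01⟩ := card_eq_two.1 (show (star S s).card = 2 by unfold dg at *; omega)
  obtain ⟨m0, s0⟩ := mem_star.1 (e01.symm ▸ mem_insert_self _ _ : x0 ∈ star S s)
  obtain ⟨m1, s1⟩ := mem_star.1 (e01.symm ▸ mem_insert_of_mem (mem_singleton_self _) :
    x1 ∈ star S s)
  obtain ⟨x2, m2, n2⟩ := exists_mem_notMem_of_card_lt_card
    (show (star S s).card < S.card by unfold dg at *; omega)
  have s2 : s ∉ x2 := fun k => n2 (mem_star.2 ⟨m2, k⟩)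
  obtain ⟨sw, sv, -⟩ : s ≠ w ∧ s ≠ v ∧ s ∈ cov H := by simpa only [mem_erase] using sb ms
  have vS := fun e he => (mv e (sS he)).1 he
  have wS := fun e he => (mw e (sS he)).1 he
  have i3 : (x0 ∩ x1).card = 3 := by
    refine card_eq_three.2 ⟨v, w, s, hvw, sv.symm, sw.symm, Subset.antisymm (fun u hu => ?_) ?_⟩
    · by_contra k
      simp only [mem_insert, mem_singleton, not_or] at k
      exact n01 (one u k.1 k.2.1 k.2.2 x0 m0 x1 m1 (mem_inter.1 hu).1 (mem_inter.1 hu).2)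
    · simp only [insert_subset_iff, singleton_subset_iff, mem_inter]
      exact ⟨⟨vS _ m0, vS _ m1⟩, ⟨wS _ m0, wS _ m1⟩, s0, s1⟩
  have y4 : insert s ((x2.erase v).erase w) ⊆ y := insert_subset sy fun u hu => by
    obtain ⟨a, b, c⟩ : u ≠ w ∧ u ≠ v ∧ u ∈ x2 := by simpa only [mem_erase] using hu
    obtain ⟨e, he, k, k'⟩ := e10_meet h5 h3 hm hn ht (mem_cov.2 ⟨x2, sS m2, c⟩) (cov_mono sR ms)
    rcases mR e he with q | q
    · exact absurd (one u b a (fun r => s2 (r ▸ c)) e q x2 m2 k c ▸ k') s2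
    · exact card_le_one.1 (show (star R s).card ≤ 1 by unfold dg at *; omega) e
        (mem_star.2 ⟨q, k'⟩) y (mem_star.2 ⟨my, sy⟩) ▸ k
  have c4 : (y \ insert s ((x2.erase v).erase w)).card ≤ 1 := by
    rw [card_sdiff_of_subset y4, card_insert_of_notMem fun k => s2 (mem_of_mem_erase
      (mem_of_mem_erase k)), card_erase_of_mem (mem_erase.2 ⟨hvw.symm, wS _ m2⟩),
      card_erase_of_mem (vS _ m2), h5 _ (sS m2), h5 _ (sR my)]
  have out : ∀ u ∈ sd x0 x1, dg R u = 2 ∧ u ∉ insert s ((x2.erase v).erase w) := fun u hu => by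
    obtain ⟨a, b, ma, mb, sa, sb, k, k'⟩ : ∃ a b, a ∈ S ∧ b ∈ S ∧ s ∈ a ∧ s ∈ b ∧ u ∈ a ∧ u ∉ b :=
      (mem_sd.1 hu).elim (fun q => ⟨x0, x1, m0, m1, s0, s1, q⟩)
        fun q => ⟨x1, x0, m1, m0, s1, s0, q.symm⟩
    have q1 : u ≠ v := fun r => k' (r ▸ vS _ mb)
    have q2 : u ≠ w := fun r => k' (r ▸ wS _ mb)
    have q3 : u ≠ s := fun r => k' (r ▸ sb)
    refine ⟨(d2 u (mem_cov.2 ⟨a, sS ma, k⟩) q1 q2 q3).1, fun r => (mem_insert.1 r).elim q3
      fun r => s2 ?_⟩
    exact one u q1 q2 q3 a ma x2 m2 k (mem_of_mem_erase (mem_of_mem_erase r)) ▸ sa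
  obtain ⟨c, mc, hc⟩ : ∃ c ∈ R.erase y, ∀ u ∈ sd x0 x1, u ∈ y → u ∈ c := by
    by_cases k : ∃ u ∈ sd x0 x1, u ∈ y
    · obtain ⟨u, hu, uy⟩ := k
      obtain ⟨c, mc, nc⟩ := exists_mem_ne (s := star R u) (by
        have := (out u hu).1
        unfold dg at this
        omega) y
      exact ⟨c, mem_erase.2 ⟨nc, (mem_star.1 mc).1⟩, fun u' hu' k => card_le_one.1 c4 u
        (mem_sdiff.2 ⟨uy, (out u hu).2⟩) u' (mem_sdiff.2 ⟨k, (out u' hu').2⟩) ▸ (mem_star.1 mc).2⟩
    · obtain ⟨c, mc, nc⟩ := exists_mem_ne (s := R) (by omega) y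
      exact ⟨c, mem_erase.2 ⟨nc, mc⟩, fun u hu q => absurd ⟨u, hu, q⟩ k⟩
  refine hi_pos m0 m1 n01 i3 (sR (mem_of_mem_erase mc)) fun u hu => ?_
  by_cases k : u ∈ y
  · exact hc u hu k
  · have e : star R u = R.erase y := eq_of_subset_of_card_le (fun a ha => mem_erase.2
      ⟨fun r => k (r ▸ (mem_star.1 ha).2), (mem_star.1 ha).1⟩) (by
        rw [card_erase_of_mem my, cR]
        exact (out u hu).1.ge)
    exact (mem_star.1 (e.symm ▸ mc : c ∈ star R u)).2

end Pool.Agent.Work.MP_d266e7_co.C5.P24
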