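import Pool.Agent.Work.MP_d266e7_co.P24Q.QDefs

/-!
`tb_of_new`: if `X` were `E10`, take two vertices of `cov X \ cov W` and a minimum transversal `C`
through both; `C ∩ cov W` hits `W` and has at most `tau W - 1` elements. `ear_gain`: `Ear.cc_ins`,
`tau_ins`, `card_ins`, `cov_ins`; if the number of new vertices is at most one use `QB` directly
(`E10` has `67 tau = 14 m + 11 n + 7`; at least one new vertex exists by `Ear.out`). `pq_gad`:
subsets of size two, `exists_ear` with `k = 3`, `new_card`, `hi_two`, degrees by `dg_ins` (a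
common vertex of the two new nodes is outside `cov W`). `pq_sgad`: `gainv_sub` with `k = 1`,
`hi_one`. `pq_real`: `ear_of_nj`, `hi_mono`.
-/

namespace Pool.Agent.Work.MP_d266e7_co.C5.P24

open Finset

variable {V : Type} [DecidableEq V]

theorem pq_zero {k : ℕ} (hU : IHQ V k) {H W : Finset (Finset V)} (hk : W.card ≤ k) (hW : CC W)
    (hs : W ⊆ H) (h4 : ∀ v, dg H v ≤ 4) (hE : ¬ E10 W) : PQ H W W 0 := by
  have h1 : TB W 2 := (hU W hk hW fun v => (dg_mono hs v).trans (h4 v)).resolve_right hE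
  have h2 : hi W W ≤ hi H W := hi_mono hs Subset.rfl
  unfold TB at h1
  unfold PQ
  omega

theorem E10.val {W : Finset (Finset V)} (h : E10 W) :
    67 * tau W = 14 * W.card + 11 * (cov W).card + 7 := by
  rw [h.m6, h.n10, h.t3]

theorem tb_of_new {k : ℕ} (hU : IHQ V k) {W X : Finset (Finset V)} (hk : X.card ≤ k) (hX : CC X)
    (h4 : ∀ v, dg X v ≤ 4) (hs : W ⊆ X) (ht : tau X = tau W + 1)
    (hn : 2 ≤ (cov X \ cov W).card) : TB X 2 := by
  refine (hU X hk hX h4).resolve_right fun hE => ?_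
  obtain ⟨v, hv, w, hw, hvw⟩ := one_lt_card.1 hn
  obtain ⟨C, h1, h2, h3, h5⟩ := hE.pair v (mem_sdiff.1 hv).1 w (mem_sdiff.1 hw).1
  have h6 : tau W ≤ ((C.erase v).erase w).card := tau_le fun e he => by
    obtain ⟨u, a1, a2⟩ := h1 e (hs he)
    have a3 : u ∈ cov W := mem_cov.2 ⟨e, he, a1⟩
    exact ⟨u, a1, mem_erase.2 ⟨fun h => (mem_sdiff.1 hw).2 (h ▸ a3),
      mem_erase.2 ⟨fun h => (mem_sdiff.1 hv).2 (h ▸ a3), a2⟩⟩⟩
  have h7 := card_erase_add_one h3
  have h8 := card_erase_add_one (mem_erase.2 ⟨hvw.symm, h5⟩)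
  omega

theorem ear_gain {k : ℕ} (hU : IHQ V k) {W : Finset (Finset V)} (hk : W.card + 2 ≤ k)
    {a b : Finset V} (e : Ear W a b) (h4 : ∀ v, dg (insert a (insert b W)) v ≤ 4) {j : ℕ}
    (hj : ((a ∪ b) \ cov W).card ≤ j) (hj2 : 2 ≤ j) :
    67 * tau W + 39 ≤ 14 * W.card + 11 * (cov W).card + 11 * j +
      3 * hi (insert a (insert b W)) (insert a (insert b W)) + 2 := by
  have h1 := e.card_ins
  have h2 := e.tau_ins
  have h3 := e.cov_ins
  have hs : W ⊆ insert a (insert b W) := (subset_insert _ _).trans (subset_insert _ _)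
  by_cases hn : 2 ≤ ((a ∪ b) \ cov W).card
  · have h5 := card_sdiff_add_card_eq_card (cov_mono hs)
    have h6 : TB _ 2 := tb_of_new hU (h1.le.trans hk) e.cc_ins h4 hs h2 (by omega)
    unfold TB at h6
    omega
  · rcases hU _ (h1.le.trans hk) e.cc_ins h4 with h6 | h6
    · unfold TB at h6
      omega
    · have h7 := h6.val
      omega

theorem qgain_dg {H W : Finset (Finset V)} {a b : Finset V} (e : Ear W a b)
    (h4 : ∀ v, dg H v ≤ 4) (hd : ∀ v ∈ cov W, dg (insert a (insert b W)) v ≤ dg H v) (v : V) :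
    dg (insert a (insert b W)) v ≤ 4 := by
  by_cases hv : v ∈ cov W
  · exact (hd v hv).trans (h4 v)
  · rw [e.dg_ins, gain_out hv]
    split_ifs <;> omega

theorem qgain_one [Infinite V] {k : ℕ} (hU : IHQ V k) {H W : Finset (Finset V)}
    (hk : W.card + 2 ≤ k) (hW : CC W) (hs : W ⊆ H) (h4 : ∀ v, dg H v ≤ 4) {p q g : ℕ}
    (hg : SGad H W p q) (hp : 1 ≤ p) (hq : 1 ≤ q) (h1 : p ≤ 4) (h2 : q ≤ 4) (h3 : p + q ≤ 7)
    (h : g + 60 ≤ 11 * (p + q)) : PQ H W W g := by
  obtain ⟨a, b, e, rfl, rfl, k1, s1, s2, hd⟩ :=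
    gainv_sub hW hs hg hp hq le_rfl (by omega) (by omega)
  have k4 := e.new_card
  have k2 := ear_gain hU hk e (qgain_dg e h4 hd) le_rfl (by omega)
  have k3 := e.hi_one hs k1 s1 s2
  unfold PQ
  omega

theorem pq_gad [Infinite V] {k : ℕ} (hU : IHQ V k) {H W : Finset (Finset V)}
    (hk : W.card + 2 ≤ k) (hW : CC W) (hs : W ⊆ H) (h4 : ∀ v, dg H v ≤ 4)
    (hg : Gad W (dg H) 2 2) : PQ H W W 3 := by
  obtain ⟨A, B, hA, hB, hr, hc, k1, k2⟩ := hg
  obtain ⟨A0, a1, a2⟩ := exists_subset_card_eq k1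
  obtain ⟨B0, b1, b2⟩ := exists_subset_card_eq k2
  have hg : SGad H W 2 2 := ⟨A0, B0, a1.trans hA, b1.trans hB,
    fun v hv => hr v (union_subset_union a1 b1 hv), hc.mono a1 b1, a2.ge, b2.ge,
    safe_small hW.u5 (by omega), safe_small hW.u5 (by omega)⟩
  obtain ⟨a, b, e, k5, k6, k7, -, -, hd⟩ := gainv_sub (k := 3) hW hs hg
    (by omega) (by omega) (by omega) le_rfl le_rfl
  have k4 := e.new_card
  have k8 := ear_gain hU hk e (qgain_dg e h4 hd) le_rfl (by omega)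
  have k3 := e.hi_two hs k5.le k6.le
  unfold PQ
  omega

theorem pq_sgad42 [Infinite V] {k : ℕ} (hU : IHQ V k) {H W : Finset (Finset V)}
    (hk : W.card + 2 ≤ k) (hW : CC W) (hs : W ⊆ H) (h4 : ∀ v, dg H v ≤ 4)
    (hg : SGad H W 4 2) : PQ H W W 6 := by
  exact qgain_one hU hk hW hs h4 hg (by omega) (by omega) (by omega) (by omega) (by omega)
    (by omega)

theorem pq_sgad43 [Infinite V] {k : ℕ} (hU : IHQ V k) {H W : Finset (Finset V)}
    (hk : W.card + 2 ≤ k) (hW : CC W) (hs : W ⊆ H) (h4 : ∀ v, dg H v ≤ 4)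
    (hg : SGad H W 4 3) : PQ H W W 17 := by
  exact qgain_one hU hk hW hs h4 hg (by omega) (by omega) (by omega) (by omega) (by omega)
    (by omega)

theorem pq_real {k : ℕ} (hU : IHQ V k) {H W : Finset (Finset V)} (hk : W.card + 2 ≤ k)
    (hW : CC W) (hs : W ⊆ H) (h5 : U5 H) (h4 : ∀ v, dg H v ≤ 4) {x y : Finset V} (hx : x ∈ H)
    (hy : y ∈ H) (h : NJ W x y) (h1 : 1 ≤ dd W x) (h2 : 1 ≤ dd W y) (hc : (x ∩ y).Nonempty)
    (hn : ((x ∪ y) \ cov W).card ≤ 3) : PQ H W (insert x (insert y W)) 6 := by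
  have e := ear_of_nj hW (h5 x hx) (h5 y hy) h h1 h2 hc
  have k1 : insert x (insert y W) ⊆ H := insert_subset hx (insert_subset hy hs)
  have k2 := ear_gain hU hk e (fun v => (dg_mono k1 v).trans (h4 v)) hn (by omega)
  have k3 : hi (insert x (insert y W)) (insert x (insert y W)) ≤ hi H (insert x (insert y W)) :=
    hi_mono k1 Subset.rfl
  unfold PQ
  omega

end Pool.Agent.Work.MP_d266e7_co.C5.P24
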