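import Pool.Agent.Work.MP_d266e7_co.P24Q.QDefs

/-!
A finite check (verified by a separate enumeration of the 15^4 values of `d`). Take for `R` only
the pairs forced by `Shadow.rule`; `u l y z` is bounded by `d l y + d l z`, and by one when `g12`
applies. See C5/Abs3.lean for a check of the same kind. Suggested: prove it for `i = 0`, `j = 1`,
`k = 2` with the eight numbers `d 1 x`, `d 2 x` (`d 0 x = 4 - d 1 x - d 2 x`) by a Boolean
function and `decide +kernel` (prune with `n1`, `n2`, `g11`), then transport along the map `![i,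
j, k]` (the `Shadow` of `fun l => d (![i, j, k] l)` holds again).
-/

namespace Pool.Agent.Work.MP_d266e7_co.C5.P24

open Finset

variable {V : Type} [DecidableEq V]

/-- one of the two matchings of the complementary pair -/
def qnum3_r (bz bw cz cw : ℕ) : Bool :=
  (Nat.ble 1 bz && Nat.ble 1 cw) || (Nat.ble 1 bw && Nat.ble 1 cz)

/-- the pair `x, y` is bounded by one through the centre `z` -/
def qnum3_g (ax ay aw bz cx cy cw : ℕ) : Bool :=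
  Nat.ble 2 bz && (qnum3_r ay aw cy cw && qnum3_r ax aw cx cw)

/-- the bound for the pair `x, y` -/
def qnum3_u (ax ay az aw bx by' bz bw cx cy cz cw : ℕ) : ℕ :=
  bif qnum3_g ax ay aw bz cx cy cw || qnum3_g ax ay az bw cx cy cz then min 1 (bx + by')
  else bx + by'

/-- tests for a pair -/
def qnum3_p (ax ay az aw bx by' bz bw cx cy cz cw : ℕ) : Bool :=
  (Nat.ble 2 bx && (Nat.ble 2 by' && qnum3_r az aw cz cw)) ||
    ((Nat.ble 2 cx && (Nat.ble 2 cy && qnum3_r az aw bz bw)) ||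
    (Nat.ble 1 ax && (Nat.ble 1 ay && (qnum3_r bz bw cz cw &&
      Nat.ble (qnum3_u ax ay az aw bx by' bz bw cx cy cz cw +
        qnum3_u ax ay az aw cx cy cz cw bx by' bz bw) 2))))

/-- tests for a triple -/
def qnum3_t (ax ay az aw bx by' bz bw cx cy cz cw : ℕ) : Bool :=
  (qnum3_g ay az aw bx cy cz cw && (Nat.ble 2 (by' + bz) && qnum3_r ax aw cx cw)) ||
    ((qnum3_g ay az aw cx by' bz bw && (Nat.ble 2 (cy + cz) && qnum3_r ax aw bx bw)) ||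
    (qnum3_g by' bz bw ax cy cz cw && (Nat.ble 2 ay && (Nat.ble 2 az && qnum3_r bx bw cx cw))))

/-- the number of positive entries -/
def qnum3_n (a b c e : ℕ) : ℕ := min 1 a + min 1 b + min 1 c + min 1 e

/-- the final test -/
def qnum3_fin (a0 a1 a2 a3 b0 b1 b2 b3 c0 c1 c2 c3 : ℕ) : Bool :=
  qnum3_p a0 a1 a2 a3 b0 b1 b2 b3 c0 c1 c2 c3 ||
    qnum3_p a0 a2 a1 a3 b0 b2 b1 b3 c0 c2 c1 c3 ||
    qnum3_p a0 a3 a1 a2 b0 b3 b1 b2 c0 c3 c1 c2 ||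
    qnum3_p a1 a2 a0 a3 b1 b2 b0 b3 c1 c2 c0 c3 ||
    qnum3_p a1 a3 a0 a2 b1 b3 b0 b2 c1 c3 c0 c2 ||
    qnum3_p a2 a3 a0 a1 b2 b3 b0 b1 c2 c3 c0 c1 ||
    qnum3_t a0 a1 a2 a3 b0 b1 b2 b3 c0 c1 c2 c3 ||
    qnum3_t a0 a1 a3 a2 b0 b1 b3 b2 c0 c1 c3 c2 ||
    qnum3_t a0 a2 a3 a1 b0 b2 b3 b1 c0 c2 c3 c1 ||
    qnum3_t a1 a0 a2 a3 b1 b0 b2 b3 c1 c0 c2 c3 ||
    qnum3_t a1 a0 a3 a2 b1 b0 b3 b2 c1 c0 c3 c2 ||
    qnum3_t a1 a2 a3 a0 b1 b2 b3 b0 c1 c2 c3 c0 ||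
    qnum3_t a2 a0 a1 a3 b2 b0 b1 b3 c2 c0 c1 c3 ||
    qnum3_t a2 a0 a3 a1 b2 b0 b3 b1 c2 c0 c3 c1 ||
    qnum3_t a2 a1 a3 a0 b2 b1 b3 b0 c2 c1 c3 c0 ||
    qnum3_t a3 a0 a1 a2 b3 b0 b1 b2 c3 c0 c1 c2 ||
    qnum3_t a3 a0 a2 a1 b3 b0 b2 b1 c3 c0 c2 c1 ||
    qnum3_t a3 a1 a2 a0 b3 b1 b2 b0 c3 c1 c2 c0 ||
    !(Nat.ble 2 (qnum3_n a0 a1 a2 a3) && Nat.ble 2 (qnum3_n b0 b1 b2 b3) &&
      Nat.ble 2 (qnum3_n c0 c1 c2 c3) &&
      Nat.ble 3 (qnum3_n (a0 + b0) (a1 + b1) (a2 + b2) (a3 + b3)) &&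
      Nat.ble 3 (qnum3_n (a0 + c0) (a1 + c1) (a2 + c2) (a3 + c3)) &&
      Nat.ble 3 (qnum3_n (b0 + c0) (b1 + c1) (b2 + c2) (b3 + c3)))

/-- all fifteen patterns of one host -/
def qnum3_all (f : ℕ → ℕ → ℕ → Bool) : Bool :=
  f 0 0 4 && f 0 1 3 && f 0 2 2 && f 0 3 1 && f 0 4 0 &&
    f 1 0 3 && f 1 1 2 && f 1 2 1 && f 1 3 0 && f 2 0 2 &&
    f 2 1 1 && f 2 2 0 && f 3 0 1 && f 3 1 0 && f 4 0 0

theorem qnum3_check : (qnum3_all fun a0 b0 c0 => qnum3_all fun a1 b1 c1 =>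
    qnum3_all fun a2 b2 c2 => qnum3_all fun a3 b3 c3 =>
    qnum3_fin a0 a1 a2 a3 b0 b1 b2 b3 c0 c1 c2 c3) = true := by
  simp only [qnum3_fin, Bool.or_assoc]
  decide +kernel

theorem qnum3_all_spec {f : ℕ → ℕ → ℕ → Bool} (h : qnum3_all f = true) {a b c : ℕ}
    (hs : a + b + c = 4) : f a b c = true := by
  simp only [qnum3_all, Bool.and_eq_true] at h
  have key : ∀ n : ℕ, n = 0 ∨ n = 1 ∨ n = 2 ∨ n = 3 ∨ n = 4 ∨ 5 ≤ n := fun n => by omega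
  obtain rfl : c = 4 - a - b := by omega
  rcases key a with rfl | rfl | rfl | rfl | rfl | ha <;>
  rcases key b with rfl | rfl | rfl | rfl | rfl | hb <;>
  first
    | (exfalso; omega)
    | simp only [h]

theorem qnum3_card (f : Fin 4 → ℕ) (P : Fin 4 → Prop) [DecidablePred P] (h : ∀ x, P x → 1 ≤ f x) :
    (univ.filter P).card ≤ qnum3_n (f 0) (f 1) (f 2) (f 3) := by
  have k : ∀ x, (if P x then 1 else 0) ≤ min 1 (f x) := fun x => by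
    split_ifs with k
    · exact le_min le_rfl (h x k)
    · exact Nat.zero_le _
  rw [Finset.card_filter, show (univ : Finset (Fin 4)) = {0, 1, 2, 3} by decide,
    Finset.sum_insert (by decide), Finset.sum_insert (by decide), Finset.sum_insert (by decide),
    Finset.sum_singleton, ← add_assoc, ← add_assoc]
  exact add_le_add (add_le_add (add_le_add (k 0) (k 1)) (k 2)) (k 3)

theorem qnum3_sum (f : Fin 3 → ℕ) {i j k : Fin 3} (hij : i ≠ j) (hik : i ≠ k) (hjk : j ≠ k) :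
    f i + f j + f k = f 0 + f 1 + f 2 := by
  have key : ∀ n : Fin 3, n = 0 ∨ n = 1 ∨ n = 2 := by decide
  rcases key i with rfl | rfl | rfl <;> rcases key j with rfl | rfl | rfl <;>
  rcases key k with rfl | rfl | rfl <;> omega

theorem qnum3_R {d : Fin 3 → Fin 4 → ℕ} {R : Fin 3 → Fin 4 → Fin 4 → Prop} (h : Shadow d R)
    {i j k : Fin 3} (hij : i ≠ j) (hik : i ≠ k) (hjk : j ≠ k) {x y z w : Fin 4} (h1 : x ≠ y)
    (h2 : x ≠ z) (h3 : x ≠ w) (h4 : y ≠ z) (h5 : y ≠ w) (h6 : z ≠ w)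
    (hr : qnum3_r (d j z) (d j w) (d k z) (d k w) = true) : R i x y := by
  simp only [qnum3_r, Bool.or_eq_true, Bool.and_eq_true, Nat.ble_eq] at hr
  rcases hr with ⟨u, v⟩ | ⟨u, v⟩
  · exact h.rule i j k x y z w hij hik hjk h1 h2 h3 h4 h5 h6 u v
  · exact h.rule i j k x y w z hij hik hjk h1 h3 h2 h5 h4 h6.symm u v

theorem qnum3_G {d : Fin 3 → Fin 4 → ℕ} {R : Fin 3 → Fin 4 → Fin 4 → Prop} (h : Shadow d R)
    {i j k : Fin 3} (hij : i ≠ j) (hik : i ≠ k) (hjk : j ≠ k) {x y z w : Fin 4} (h1 : x ≠ y)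
    (h2 : x ≠ z) (h3 : x ≠ w) (h4 : y ≠ z) (h5 : y ≠ w) (h6 : z ≠ w)
    (hg : qnum3_g (d j x) (d j y) (d j w) (d i z) (d k x) (d k y) (d k w) = true) :
    R i z x ∧ R i z y ∧ 2 ≤ d i z := by
  simp only [qnum3_g, Bool.and_eq_true, Nat.ble_eq] at hg
  exact ⟨qnum3_R h hij hik hjk h2.symm h4.symm h6 h1 h3 h5 hg.2.1,
    qnum3_R h hij hik hjk h4.symm h2.symm h6 h1.symm h5 h3 hg.2.2, hg.1⟩

theorem abs3Q {d : Fin 3 → Fin 4 → ℕ} {R : Fin 3 → Fin 4 → Fin 4 → Prop}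
    {u : Fin 3 → Fin 4 → Fin 4 → ℕ} (h : Shadow d R) (hs : ∀ x, d 0 x + d 1 x + d 2 x = 4)
    {i j k : Fin 3} (hij : i ≠ j) (hik : i ≠ k) (hjk : j ≠ k)
    (hu : ∀ l x y, u l x y ≤ d l x + d l y)
    (hu' : ∀ l x y, x ≠ y → R l x y → d l x + d l y ≤ u l x y)
    (g11 : ∀ l, l ≠ i → ∀ x y, x ≠ y → R l x y → 2 ≤ d l x → 2 ≤ d l y → False)
    (g12 : ∀ l, l ≠ i → ∀ x y z, x ≠ y → x ≠ z → y ≠ z → R l x y → R l x z → 2 ≤ d l x →
      u l y z ≤ 1) :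
    (∃ x y, x ≠ y ∧ R i x y ∧ 1 ≤ d i x ∧ 1 ≤ d i y ∧ u j x y + u k x y ≤ 2) ∨
      ∃ x y z, x ≠ y ∧ x ≠ z ∧ y ≠ z ∧ R i x y ∧ R i x z ∧ R i y z ∧
        2 ≤ d i x ∧ 2 ≤ d i y ∧ 2 ≤ d i z := by
  have U : ∀ j k : Fin 3, i ≠ j → i ≠ k → j ≠ k → ∀ x y z w : Fin 4, x ≠ y → x ≠ z → x ≠ w →
      y ≠ z → y ≠ w → z ≠ w → u j x y ≤ qnum3_u (d i x) (d i y) (d i z) (d i w) (d j x) (d j y)
        (d j z) (d j w) (d k x) (d k y) (d k z) (d k w) := by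
    intro j k hij hik hjk x y z w h1 h2 h3 h4 h5 h6
    rw [qnum3_u, Bool.cond_eq_ite]
    split_ifs with c
    · refine le_min ?_ (hu j x y)
      rcases Bool.or_eq_true_iff.1 c with c | c
      · obtain ⟨c1, c2, c3⟩ := qnum3_G h hij.symm hjk hik h1 h2 h3 h4 h5 h6 c
        exact g12 j hij.symm z x y h2.symm h4.symm h1 c1 c2 c3
      · obtain ⟨c1, c2, c3⟩ := qnum3_G h hij.symm hjk hik h1 h3 h2 h5 h4 h6.symm c
        exact g12 j hij.symm w x y h3.symm h5.symm h1 c1 c2 c3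
    · exact hu j x y
  by_contra hn
  have P : ∀ x y z w : Fin 4, (x ≠ y ∧ x ≠ z ∧ x ≠ w ∧ y ≠ z ∧ y ≠ w ∧ z ≠ w) →
      qnum3_p (d i x) (d i y) (d i z) (d i w) (d j x) (d j y) (d j z) (d j w) (d k x) (d k y)
        (d k z) (d k w) = true → False := by
    rintro x y z w ⟨h1, h2, h3, h4, h5, h6⟩ c
    simp only [qnum3_p, Bool.or_eq_true, Bool.and_eq_true, Nat.ble_eq] at c
    rcases c with ⟨c1, c2, c3⟩ | ⟨c1, c2, c3⟩ | ⟨c1, c2, c3, c4⟩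
    · exact g11 j hij.symm x y h1 (qnum3_R h hij.symm hjk hik h1 h2 h3 h4 h5 h6 c3) c1 c2
    · exact g11 k hik.symm x y h1 (qnum3_R h hik.symm hjk.symm hij h1 h2 h3 h4 h5 h6 c3) c1 c2
    · exact hn (Or.inl ⟨x, y, h1, qnum3_R h hij hik hjk h1 h2 h3 h4 h5 h6 c3, c1, c2,
        (add_le_add (U j k hij hik hjk x y z w h1 h2 h3 h4 h5 h6)
          (U k j hik hij hjk.symm x y z w h1 h2 h3 h4 h5 h6)).trans c4⟩)
  have T : ∀ x y z w : Fin 4, (x ≠ y ∧ x ≠ z ∧ x ≠ w ∧ y ≠ z ∧ y ≠ w ∧ z ≠ w) →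
      qnum3_t (d i x) (d i y) (d i z) (d i w) (d j x) (d j y) (d j z) (d j w) (d k x) (d k y)
        (d k z) (d k w) = true → False := by
    rintro x y z w ⟨h1, h2, h3, h4, h5, h6⟩ c
    simp only [qnum3_t, Bool.or_eq_true, Bool.and_eq_true, Nat.ble_eq] at c
    rcases c with ⟨c1, c2, c3⟩ | ⟨c1, c2, c3⟩ | ⟨c1, c2, c3, c4⟩
    · obtain ⟨e1, e2, e3⟩ := qnum3_G h hij.symm hjk hik h4 h1.symm h5 h2.symm h6 h3 c1
      have e4 := hu' j y z h4 (qnum3_R h hij.symm hjk hik h4 h1.symm h5 h2.symm h6 h3 c3)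
      have e5 := g12 j hij.symm x y z h1 h2 h4 e1 e2 e3
      omega
    · obtain ⟨e1, e2, e3⟩ := qnum3_G h hik.symm hjk.symm hij h4 h1.symm h5 h2.symm h6 h3 c1
      have e4 := hu' k y z h4 (qnum3_R h hik.symm hjk.symm hij h4 h1.symm h5 h2.symm h6 h3 c3)
      have e5 := g12 k hik.symm x y z h1 h2 h4 e1 e2 e3
      omega
    · obtain ⟨e1, e2, e3⟩ := qnum3_G h hij hik hjk h4 h1.symm h5 h2.symm h6 h3 c1
      exact hn (Or.inr ⟨x, y, z, h1, h2, h4, e1, e2,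
        qnum3_R h hij hik hjk h4 h1.symm h5 h2.symm h6 h3 c4, e3, c2, c3⟩)
  have s : ∀ x, d i x + d j x + d k x = 4 := fun x =>
    (qnum3_sum (fun l => d l x) hij hik hjk).trans (hs x)
  have c := qnum3_all_spec (qnum3_all_spec (qnum3_all_spec (qnum3_all_spec qnum3_check (s 0))
    (s 1)) (s 2)) (s 3)
  have t : ∀ l, Nat.ble 2 (qnum3_n (d l 0) (d l 1) (d l 2) (d l 3)) = true := fun l =>
    Nat.ble_eq ▸ (h.n1 l).trans (qnum3_card (d l) _ fun _ k => k)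
  have r : ∀ l m, l ≠ m → Nat.ble 3 (qnum3_n (d l 0 + d m 0) (d l 1 + d m 1) (d l 2 + d m 2)
      (d l 3 + d m 3)) = true := fun l m k =>
    Nat.ble_eq ▸ (h.n2 l m k).trans (qnum3_card (fun x => d l x + d m x) _ fun _ k => by omega)
  simp only [qnum3_fin, t, r i j hij, r i k hik, r j k hjk, Bool.and_self, Bool.not_true,
    Bool.or_false, Bool.or_eq_true, or_assoc] at c
  rcases c with c | c | c | c | c | c | c | c | c | c | c | c | c | c | c | c | c | c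
  exacts [P 0 1 2 3 (by decide) c,
    P 0 2 1 3 (by decide) c,
    P 0 3 1 2 (by decide) c,
    P 1 2 0 3 (by decide) c,
    P 1 3 0 2 (by decide) c,
    P 2 3 0 1 (by decide) c,
    T 0 1 2 3 (by decide) c,
    T 0 1 3 2 (by decide) c,
    T 0 2 3 1 (by decide) c,
    T 1 0 2 3 (by decide) c,
    T 1 0 3 2 (by decide) c,
    T 1 2 3 0 (by decide) c,
    T 2 0 1 3 (by decide) c,
    T 2 0 3 1 (by decide) c,
    T 2 1 3 0 (by decide) c,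
    T 3 0 1 2 (by decide) c,
    T 3 0 2 1 (by decide) c,
    T 3 1 2 0 (by decide) c]

end Pool.Agent.Work.MP_d266e7_co.C5.P24
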