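import Pool.Agent.Work.MP_d266e7_co.P24Q.QTriHi

/-!
Write `A = x ∩ cov W`, `B = y ∩ cov W`, `C = z ∩ cov W`. Hosts contain `t ∉ cov W`, so they are
not in `W`. Pairs of hosts are joint (`gad11`, `Gad.mono`, `nog`, `joint_of_not_nj`). `Pat.key`: a
minimum transversal meeting `x` and `w` misses `y` and `z` (`nyw`, `nzw`), so neither `A` nor a
member of `W` lies inside `y ∪ z`. `Pat.one`: a vertex of `cov W` in two of `y`, `z`, `w` is in no
minimum transversal that meets `x`; two such vertices give `Gad W (dg H) 2 2` with `A` (`dg_lt`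
for the room). `pat_t1`: `exists_tri` with `A`, `B`, `C` (minimum transversals lie in `cov W`,
`min_sub`), `tri_deg`, `tri_gain`, `tri_hi`. For `h1` (pairs with `b = B + s + r`): `u = b` has
five common vertices; `u = c`: `|B ∩ C| = 1` and `sd b c = sd B C` lies in `k`, not in `b` or `c`,
`k = a` gives `A = sd B C` (both have four elements) against `key`, `k ∈ W` gives `F2`; `u = a`:
`r ∈ sd` forces `k = c` (not `b`), so `A ⊆ B ∪ C`; `u = d ∈ W`: `B ⊆ d`, `r ∈ sd` forces `k = c`,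
so `d ⊆ B ∪ C`. `h2` is symmetric. `h3` with `k = z`, `h4` by `safe_small`.
-/

namespace Pool.Agent.Work.MP_d266e7_co.C5.P24

open Finset

variable {V : Type} [DecidableEq V]

omit [DecidableEq V] in
theorem qpata_no3 {W : Finset (Finset V)} {a b c : Finset V} (h : No3 W a b c) : No3 W a c b :=
  fun C h1 h2 h3 h4 h5 => h C h1 h2 h3 h5 h4

theorem Pat.swap {H W : Finset (Finset V)} {x y z w : Finset V} {t : V}
    (h : Pat H W x y z w t) : Pat H W x z y w t :=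
  ⟨h.u5, h.d4, h.cc, h.sub, h.xH, h.zH, h.yH, h.wH, h.xz, h.xy, h.xw, h.yz.symm, h.zw, h.yw,
    h.tx, h.tz, h.ty, h.tw, h.tW, h.dx, h.dz, h.dy, h.dw, h.nog, qpata_no3 h.nyz, h.nzw, h.nyw⟩

theorem Pat.rot {H W : Finset (Finset V)} {x y z w : Finset V} {t : V}
    (h : Pat H W x y z w t) : Pat H W x z w y t :=
  ⟨h.u5, h.d4, h.cc, h.sub, h.xH, h.zH, h.wH, h.yH, h.xz, h.xw, h.xy, h.zw, h.yz.symm, h.yw.symm,
    h.tx, h.tz, h.tw, h.ty, h.tW, h.dx, h.dz, h.dw, h.dy, h.nog, h.nzw, qpata_no3 h.nyz,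
    qpata_no3 h.nyw⟩

theorem Pat.out {H W : Finset (Finset V)} {x y z w : Finset V} {t : V}
    (h : Pat H W x y z w t) : x ∉ W ∧ y ∉ W ∧ z ∉ W ∧ w ∉ W :=
  ⟨fun e => h.tW (mem_cov.2 ⟨_, e, h.tx⟩), fun e => h.tW (mem_cov.2 ⟨_, e, h.ty⟩),
    fun e => h.tW (mem_cov.2 ⟨_, e, h.tz⟩), fun e => h.tW (mem_cov.2 ⟨_, e, h.tw⟩)⟩

theorem qpata_jt {H W : Finset (Finset V)} (hW : CC W) (hs : W ⊆ H) (nog : ¬ Gad W (dg H) 2 2)
    {e f : Finset V} {t : V} (he : e ∈ H) (hf : f ∈ H) (eW : e ∉ W) (fW : f ∉ W) (te : t ∈ e)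
    (tf : t ∈ f) (de : 2 ≤ dd W e) (df : 2 ≤ dd W f) : Jt W (e ∩ cov W) (f ∩ cov W) :=
  joint_of_not_nj (nlem_ne hW) ⟨t, te⟩ ⟨t, tf⟩ fun hn =>
    nog ((gad11 hs he hf eW fW hn).mono de df)

theorem Pat.jt {H W : Finset (Finset V)} {x y z w : Finset V} {t : V}
    (h : Pat H W x y z w t) :
    Jt W (x ∩ cov W) (y ∩ cov W) ∧ Jt W (y ∩ cov W) (z ∩ cov W) := by
  obtain ⟨o1, o2, o3, -⟩ := h.out
  have := h.dx
  have := h.dy
  have := h.dz
  exact ⟨qpata_jt h.cc h.sub h.nog h.xH h.yH o1 o2 h.tx h.ty (by omega) (by omega),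
    qpata_jt h.cc h.sub h.nog h.yH h.zH o2 o3 h.ty h.tz (by omega) (by omega)⟩

theorem Pat.key {H W : Finset (Finset V)} {x y z w : Finset V} {t : V}
    (h : Pat H W x y z w t) : ¬ x ∩ cov W ⊆ y ∪ z ∧ ∀ d ∈ W, ¬ d ⊆ y ∪ z := by
  obtain ⟨C, c1, c2, ⟨a, a1, a2⟩, b, b1, b2⟩ := h.rot.rot.jt.1
  have key : ∀ v ∈ y ∪ z, v ∉ C := by
    intro v hv hC
    rcases mem_union.1 hv with hv | hv
    · exact h.nyw C c1 c2 ⟨a, (mem_inter.1 a1).1, a2⟩ ⟨v, hv, hC⟩ ⟨b, (mem_inter.1 b1).1, b2⟩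
    · exact h.nzw C c1 c2 ⟨a, (mem_inter.1 a1).1, a2⟩ ⟨v, hv, hC⟩ ⟨b, (mem_inter.1 b1).1, b2⟩
  refine ⟨fun hs => key a (hs a1) a2, fun d hd hs => ?_⟩
  obtain ⟨v, v1, v2⟩ := c1 d hd
  exact key v (hs v1) v2

theorem Pat.one {H W : Finset (Finset V)} {x y z w : Finset V} {t : V}
    (h : Pat H W x y z w t) {u v : V} (hu : u ∈ cov W) (hv : v ∈ cov W)
    (h1 : (u ∈ y ∧ u ∈ z) ∨ (u ∈ y ∧ u ∈ w) ∨ (u ∈ z ∧ u ∈ w))
    (h2 : (v ∈ y ∧ v ∈ z) ∨ (v ∈ y ∧ v ∈ w) ∨ (v ∈ z ∧ v ∈ w)) : u = v := by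
  by_contra hne
  obtain ⟨o1, o2, o3, -⟩ := h.out
  have hB : ∀ b ∈ ({u, v} : Finset V), b ∈ cov W ∧
      ((b ∈ y ∧ b ∈ z) ∨ (b ∈ y ∧ b ∈ w) ∨ (b ∈ z ∧ b ∈ w)) := by
    intro b hb
    rcases mem_insert.1 hb with rfl | hb
    · exact ⟨hu, h1⟩
    · rw [mem_singleton.1 hb]
      exact ⟨hv, h2⟩
  refine h.nog ⟨x ∩ cov W, {u, v}, inter_subset_right, fun b hb => (hB b hb).1, fun b hb => ?_,
    fun C c1 c2 a ha b hb a2 b2 => ?_, ?_, (card_pair hne).ge⟩
  · rcases mem_union.1 hb with hb | hb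
    · exact dg_lt h.sub h.xH o1 (mem_inter.1 hb).1
    · rcases (hB b hb).2 with g | g | g
      · exact dg_lt h.sub h.yH o2 g.1
      · exact dg_lt h.sub h.yH o2 g.1
      · exact dg_lt h.sub h.zH o3 g.1
  · have hx : ∃ v ∈ x, v ∈ C := ⟨a, (mem_inter.1 ha).1, a2⟩
    rcases (hB b hb).2 with g | g | g
    · exact h.nyz C c1 c2 hx ⟨b, g.1, b2⟩ ⟨b, g.2, b2⟩
    · exact h.nyw C c1 c2 hx ⟨b, g.1, b2⟩ ⟨b, g.2, b2⟩
    · exact h.nzw C c1 c2 hx ⟨b, g.1, b2⟩ ⟨b, g.2, b2⟩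
  · have : (x ∩ cov W).card = 4 := h.dx
    omega

theorem qpata_side {b u : Finset V} (hu : u.card = 5) (h3 : (b ∩ u).card = 3) : ¬ sd b u ⊆ b := by
  intro hs
  have : u ⊆ b := fun v hv => by
    by_contra hn
    exact hn (hs (mem_sd.2 (Or.inr ⟨hn, hv⟩)))
  rw [inter_eq_right.2 this] at h3
  omega

theorem qpata_f2 {W : Finset (Finset V)} {y z : Finset V} (h : F2 W z y) : F2 W y z := by
  obtain ⟨h1, d, h2, h3⟩ := h
  exact ⟨by rw [inter_comm]; exact h1, d, h2, by rw [sd_comm]; exact h3⟩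

theorem qpata_h1 {H W : Finset (Finset V)} {x y z w : Finset V} {t : V}
    (h : Pat H W x y z w t) (hF : ¬ F2 W y z) {s r : V} (sr : s ≠ r) (sW : s ∉ cov W)
    (rW : r ∉ cov W) {a b c : Finset V} (ha : a = insert s (x ∩ cov W))
    (hb : b = insert s (insert r (y ∩ cov W))) (hc : c = insert s (insert r (z ∩ cov W)))
    (a5 : a.card = 5) (b5 : b.card = 5) (c5 : c.card = 5) {u k : Finset V}
    (hu : u = a ∨ u = b ∨ u = c ∨ u ∈ W) (hk : k = a ∨ k = b ∨ k = c ∨ k ∈ W)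
    (h3 : (b ∩ u).card = 3) : ¬ sd b u ⊆ k := by
  intro hs
  obtain ⟨k1, k2⟩ := h.key
  have ns : ∀ v ∈ cov W, v ≠ s := fun v hv e => sW (e ▸ hv)
  have nr : ∀ v ∈ cov W, v ≠ r := fun v hv e => rW (e ▸ hv)
  have ma : ∀ v ∈ cov W, v ∈ a ↔ v ∈ x := fun v hv => by
    simp [ha, ns v hv, hv]
  have mb : ∀ v ∈ cov W, v ∈ b ↔ v ∈ y := fun v hv => by
    simp [hb, ns v hv, nr v hv, hv]
  have mc : ∀ v ∈ cov W, v ∈ c ↔ v ∈ z := fun v hv => by
    simp [hc, ns v hv, nr v hv, hv]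
  have rb : r ∈ b := by simp [hb]
  have ra : r ∉ a := by simp [ha, sr.symm, rW]
  have u5 : u.card = 5 := by
    rcases hu with e | e | e | e
    · rw [e, a5]
    · rw [e, b5]
    · rw [e, c5]
    · exact h.cc.u5 u e
  have kb : k ≠ b := fun e => qpata_side u5 h3 (e ▸ hs)
  have ku : k ≠ u := fun e => qpata_side (b := u) (u := b) b5 (by rw [inter_comm]; exact h3)
    (by rw [sd_comm]; exact e ▸ hs)
  have fin : r ∉ u → ∀ v ∈ cov W, v ∈ u → v ∈ y ∪ z := by
    intro ru v hv vu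
    have rk : r ∈ k := hs (mem_sd.2 (Or.inl ⟨rb, ru⟩))
    have e : k = c := by
      rcases hk with e | e | e | e
      · exact absurd (e ▸ rk) ra
      · exact absurd e kb
      · exact e
      · exact absurd (mem_cov.2 ⟨k, e, rk⟩) rW
    by_cases vb : v ∈ b
    · exact mem_union_left _ ((mb v hv).1 vb)
    · exact mem_union_right _ ((mc v hv).1 (e ▸ hs (mem_sd.2 (Or.inr ⟨vb, vu⟩))))
  rcases hu with e | e | e | e
  · refine k1 fun v hv => fin (e ▸ ra) v (mem_inter.1 hv).2 ?_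
    rw [e]
    exact (ma v (mem_inter.1 hv).2).2 (mem_inter.1 hv).1
  · rw [e, inter_self] at h3
    omega
  · subst e
    have e1 : b ∩ u = insert s (insert r (y ∩ cov W ∩ (z ∩ cov W))) := by
      rw [hb, hc]
      ext v
      simp only [mem_inter, mem_insert, ← or_and_left]
    have e2 : sd b u = sd (y ∩ cov W) (z ∩ cov W) := by
      ext v
      by_cases hv : v ∈ cov W
      · simp only [mem_sd, mem_inter, mb v hv, mc v hv, hv, and_true]
      · rw [hb, hc]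
        simp only [mem_sd, mem_inter, mem_insert, hv, and_false, or_false, and_not_self,
          not_and_self_iff, not_false_eq_true, and_true]
    have e3 : (y ∩ cov W ∩ (z ∩ cov W)).card = 1 := by
      rw [e1, card_insert_of_notMem (by simp [sr, sW]),
        card_insert_of_notMem (by simp [rW])] at h3
      omega
    have e4 := sd_card b5 u5 h3
    rcases hk with e | e | e | e
    · have e5 : sd b u ⊆ x ∩ cov W := by
        intro v hv
        have h5 : v ∈ cov W := by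
          rw [e2, mem_sd] at hv
          rcases hv with g | g
          · exact (mem_inter.1 g.1).2
          · exact (mem_inter.1 g.2).2
        exact mem_inter.2 ⟨(ma v h5).1 (e ▸ hs hv), h5⟩
      have e6 : (x ∩ cov W).card = 4 := h.dx
      have e7 := eq_of_subset_of_card_le e5 (by omega)
      refine k1 fun v hv => ?_
      rw [← e7, e2, mem_sd] at hv
      rcases hv with g | g
      · exact mem_union_left _ (mem_inter.1 g.1).1
      · exact mem_union_right _ (mem_inter.1 g.2).1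
    · exact kb e
    · exact ku e
    · exact hF ⟨e3, k, e, e2 ▸ hs⟩
  · exact k2 u e fun v hv =>
      fin (fun g => rW (mem_cov.2 ⟨u, e, g⟩)) v (mem_cov.2 ⟨u, e, hv⟩) hv

theorem pat_t1 [Infinite V] {k : ℕ} (hU : IHQ V k) {H W : Finset (Finset V)}
    (hk : W.card + 3 ≤ k) {x y z w : Finset V} {t : V} (h : Pat H W x y z w t)
    (hF : ¬ F2 W y z) : PQ H W (insert x W) 3 := by
  obtain ⟨o1, o2, o3, o4⟩ := h.out
  have dx : (x ∩ cov W).card = 4 := h.dx
  have dy : (y ∩ cov W).card = 3 := h.dy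
  have dz : (z ∩ cov W).card = 3 := h.dz
  obtain ⟨s, r, sr, rW, hT⟩ := exists_tri h.cc (A := x ∩ cov W) (B := y ∩ cov W) (C := z ∩ cov W)
    inter_subset_right inter_subset_right inter_subset_right dx dy (Or.inl dz)
    (fun C c1 c2 ⟨a, a1, a2⟩ ⟨b, b1, b2⟩ ⟨c, e1, e2⟩ => h.nyz C c1 c2 ⟨a, (mem_inter.1 a1).1, a2⟩
      ⟨b, (mem_inter.1 b1).1, b2⟩ ⟨c, (mem_inter.1 e1).1, e2⟩) h.jt.1 h.swap.jt.1 h.jt.2
  rw [if_pos dz] at hT
  obtain ⟨a, ha⟩ : ∃ a, a = insert s (x ∩ cov W) := ⟨_, rfl⟩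
  obtain ⟨b, hb⟩ : ∃ b, b = insert s (insert r (y ∩ cov W)) := ⟨_, rfl⟩
  obtain ⟨c, hc⟩ : ∃ c, c = insert s (insert r (z ∩ cov W)) := ⟨_, rfl⟩
  rw [← ha, ← hb, ← hc] at hT
  have sW := hT.sW
  have ns : ∀ v ∈ cov W, v ≠ s := fun v hv e => sW (e ▸ hv)
  have nr : ∀ v ∈ cov W, v ≠ r := fun v hv e => rW (e ▸ hv)
  have ma : ∀ v ∈ cov W, v ∈ a ↔ v ∈ x := fun v hv => by
    simp [ha, ns v hv, hv]
  have mb : ∀ v ∈ cov W, v ∈ b ↔ v ∈ y := fun v hv => by
    simp [hb, ns v hv, nr v hv, hv]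
  have mc : ∀ v ∈ cov W, v ∈ c ↔ v ∈ z := fun v hv => by
    simp [hc, ns v hv, nr v hv, hv]
  have ia : a ∩ cov W = x ∩ cov W := by
    ext v
    simp only [mem_inter]
    exact and_congr_left fun hv => ma v hv
  have ib : b ∩ cov W = y ∩ cov W := by
    ext v
    simp only [mem_inter]
    exact and_congr_left fun hv => mb v hv
  have ic : c ∩ cov W = z ∩ cov W := by
    ext v
    simp only [mem_inter]
    exact and_congr_left fun hv => mc v hv
  have g1 := tri_gain hU hk hT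
    (tri_deg h.sub h.d4 h.xH h.yH h.zH h.wH o1 o2 o3 o4 h.xy h.xz h.xw h.yz h.yw
      (ia ▸ inter_subset_left) (ib ▸ inter_subset_left)
      (ic ▸ inter_subset_left.trans subset_union_left))
    (le_trans (card_le_card (t := {s, r}) fun v hv => by
      rw [ha, hb, hc] at hv
      simp only [mem_sdiff, mem_union, mem_insert, mem_inter, mem_singleton] at hv ⊢
      obtain ⟨hv, hw⟩ := hv
      simp only [hw, and_false, or_false] at hv
      clear * - hv
      tauto) card_le_two)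
  have x5 := h.u5 x h.xH
  have ex : insert t (x ∩ cov W) = x :=
    eq_of_subset_of_card_le (insert_subset h.tx inter_subset_left)
      (by rw [card_insert_of_notMem fun g => h.tW (mem_inter.1 g).2]; omega)
  have g2 := tri_hi h.sub hT h.xH h.yH h.tx h.ty h.tW x5 h.dx ha
    (show (b ∩ cov W).card = 3 by rw [ib, dy]) (ib ▸ inter_subset_left)
    (fun u hu k hk h3 => qpata_h1 h hF sr sW rW ha hb hc hT.a5 hT.b5 hT.c5
      (by simpa only [mem_insert] using hu) (by simpa only [mem_insert] using hk) h3)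
    (fun u hu k hk h3 => qpata_h1 h.swap (fun g => hF (qpata_f2 g)) sr sW rW ha hc hb hT.a5 hT.c5
      hT.b5 (by simpa only [mem_insert, or_left_comm (a := u = c) (b := u = b)] using hu)
      (by simpa only [mem_insert, or_left_comm (a := k = c) (b := k = b)] using hk) h3)
    (fun d hd _ hs => ⟨z, h.zH, fun v hv => by
      by_cases hv' : v ∈ cov W
      · refine (mc v hv').1 (hs ?_)
        rw [mem_sd] at hv ⊢
        rw [ma v hv']
        exact hv
      · rcases mem_sd.1 hv with g | g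
        · have g1 := g.1
          rw [← ex] at g1
          rcases mem_insert.1 g1 with e | e
          · exact e ▸ h.tz
          · exact absurd (mem_inter.1 e).2 hv'
        · exact absurd (mem_cov.2 ⟨d, hd, g.2⟩) hv'⟩)
    (safe_small h.cc.u5 (by rw [ic, dz]))
  unfold PQ
  omega

end Pool.Agent.Work.MP_d266e7_co.C5.P24
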