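import Pool.Agent.Work.MP_d266e7_co.P24Q.QPatA

/-!
`a0` is the common vertex of `y`, `z`, `w` in `cov W`; by `Pat.one` it is the only vertex of `cov
W` in two of them. `A = x ∩ cov W`, `B = y ∩ cov W`, `C = sd (z ∩ cov W) (w ∩ cov W)` has four
elements, is disjoint from `B` (`Pat.one`) and from `A` (`hx`), and lies in a member `d3` of `W`
(`F2 W z w`), so it is safe (`safe_host`, `inter` with `cov W` changes nothing). `exists_tri` with
`C.card = 4`: `c = C + s`, `r` lies in `b` only. `No3`: an element of `C` lies in `z` or in `w`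
(`nyz`, `nyw`). `Jt A C`: a minimum transversal meeting `x` and `w` does not use `a0 ∈ y`, and its
vertex in `w` is not in `z`. `Jt B C`: otherwise `Cross W B C` and `Gad W (dg H) 2 2`. `h1`: `r ∈
sd b u` for `u ≠ b` forces `k = b`, but `u \ b` is nonempty. `h2`: `u = b` as before; `u = a` has
one common vertex; `u = d ∈ W`: `s ∈ sd c d` forces `k ∈ {a, b}` and the element of `C \ d` is in
neither. `h3`: the element of `A \ d` would lie in `C`.
-/

namespace Pool.Agent.Work.MP_d266e7_co.C5.P24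

open Finset

variable {V : Type} [DecidableEq V]

theorem qpatb_self {b u : Finset V} (hu : u.card = 5) (h : (b ∩ u).card = 3) : ¬ sd b u ⊆ b := by
  intro k
  rw [inter_eq_right.2 fun v hv => by_contra fun hb => hb (k (mem_sd.2 (Or.inr ⟨hb, hv⟩)))] at h
  omega

theorem qpatb_out {A d : Finset V} {s : V} (hA : A.card = 4) (h : (insert s A ∩ d).card = 3) :
    ∃ v ∈ A, v ∉ d := by
  by_contra k
  push Not at k
  have := card_le_card (show A ⊆ insert s A ∩ d from fun v hv =>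
    mem_inter.2 ⟨mem_insert_of_mem hv, k v hv⟩)
  omega

theorem qpatb_main [Infinite V] {k : ℕ} (hU : IHQ V k) {H W : Finset (Finset V)}
    (hk : W.card + 3 ≤ k) {x y z w : Finset V} {t : V} (h : Pat H W x y z w t) {C d3 : Finset V}
    (c4 : C.card = 4) (cW : C ⊆ cov W) (czw : C ⊆ z ∪ w) (cx : ∀ v ∈ C, v ∉ x)
    (cy : ∀ v ∈ C, v ∉ y) (dW : d3 ∈ W) (cd : C ⊆ d3) (jac : Jt W (x ∩ cov W) C) :
    PQ H W (insert x W) 3 := by
  obtain ⟨xW, yW, zW, wW⟩ := h.out
  have no : No3 W (x ∩ cov W) (y ∩ cov W) C := by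
    rintro T h1 h2 ⟨u, hu, k1⟩ ⟨v, hv, k2⟩ ⟨o, ho, k3⟩
    rcases mem_union.1 (czw ho) with k4 | k4
    · exact h.nyz T h1 h2 ⟨u, (mem_inter.1 hu).1, k1⟩ ⟨v, (mem_inter.1 hv).1, k2⟩ ⟨o, k4, k3⟩
    · exact h.nyw T h1 h2 ⟨u, (mem_inter.1 hu).1, k1⟩ ⟨v, (mem_inter.1 hv).1, k2⟩ ⟨o, k4, k3⟩
  have jbc : Jt W (y ∩ cov W) C := by
    by_contra hn
    refine h.nog ⟨y ∩ cov W, C, inter_subset_right, cW, fun v hv => ?_,
      fun T h1 h2 v hv u hu k1 k2 => hn ⟨T, h1, h2, ⟨v, hv, k1⟩, u, hu, k2⟩, ?_, by omega⟩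
    · rcases mem_union.1 hv with k1 | k1
      · exact dg_lt h.sub h.yH yW (mem_inter.1 k1).1
      rcases mem_union.1 (czw k1) with k2 | k2
      · exact dg_lt h.sub h.zH zW k2
      · exact dg_lt h.sub h.wH wW k2
    · exact (show 2 ≤ 3 by omega).trans h.dy.ge
  obtain ⟨s, r, sr, rW, T⟩ := exists_tri h.cc inter_subset_right inter_subset_right cW h.dx h.dy
    (Or.inr c4) no h.jt.1 jac jbc
  rw [if_neg (by omega)] at T
  have sW := T.sW
  have u5 := T.main.1.u5
  have ns : ∀ v ∈ cov W, v ≠ s := fun v hv e => sW (e ▸ hv)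
  have nr : ∀ v ∈ cov W, v ≠ r := fun v hv e => rW (e ▸ hv)
  have hb : insert s (insert r (y ∩ cov W)) ∩ cov W = y ∩ cov W := by
    rw [insert_inter_of_notMem sW, insert_inter_of_notMem rW, inter_assoc, inter_self]
  have hc : insert s C ∩ cov W = C := by
    rw [insert_inter_of_notMem sW, inter_eq_left.2 cW]
  have ca : ∀ v ∈ C, v ∉ insert s (x ∩ cov W) := fun v hv k =>
    cx v hv (mem_inter.1 ((mem_insert.1 k).resolve_left (ns v (cW hv)))).1
  have cb : ∀ v ∈ C, v ∉ insert s (insert r (y ∩ cov W)) := fun v hv k =>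
    cy v hv (mem_inter.1 (hb ▸ mem_inter.2 ⟨k, cW hv⟩)).1
  have one : ∀ u : Finset V, (∀ v ∈ C, v ∉ u) → (insert s C ∩ u).card ≠ 3 := fun u hu e => by
    have := card_le_card (show insert s C ∩ u ⊆ {s} from fun v hv => mem_singleton.2
      ((mem_insert.1 (mem_inter.1 hv).1).resolve_right fun k => hu v k (mem_inter.1 hv).2))
    rw [card_singleton] at this
    omega
  have rb : ∀ u ∈ insert (insert s (x ∩ cov W)) (insert (insert s (insert r (y ∩ cov W)))
      (insert (insert s C) W)), r ∈ u → u = insert s (insert r (y ∩ cov W)) := by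
    intro u hu k
    simp only [mem_insert] at hu
    rcases hu with rfl | rfl | rfl | hu
    · exact (rW (mem_inter.1 ((mem_insert.1 k).resolve_left sr.symm)).2).elim
    · rfl
    · exact (rW (cW ((mem_insert.1 k).resolve_left sr.symm))).elim
    · exact (rW (mem_cov.2 ⟨u, hu, k⟩)).elim
  have hn : (insert s (x ∩ cov W) ∪ insert s (insert r (y ∩ cov W)) ∪ insert s C) \ cov W ⊆
      {s, r} := fun v hv => by
    have := @cW v
    simp only [mem_sdiff, mem_union, mem_insert, mem_inter, mem_singleton] at hv ⊢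
    tauto
  have g1 := tri_gain hU hk T (tri_deg h.sub h.d4 h.xH h.yH h.zH h.wH xW yW zW wW h.xy h.xz h.xw
    h.yz h.yw (by
      rw [insert_inter_of_notMem sW]
      exact inter_subset_left.trans inter_subset_left) (hb.le.trans inter_subset_left) (hc.symm ▸ czw))
    ((card_le_card hn).trans card_le_two)
  have g2 := tri_hi h.sub T h.xH h.yH h.tx h.ty h.tW (h.u5 x h.xH) h.dx rfl
    ((congrArg card hb).trans h.dy) (hb.le.trans inter_subset_left) (by
      intro u hu k hk' e m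
      by_cases ru : r ∈ u
      · rw [rb u hu ru, inter_self, T.b5] at e
        omega
      · rw [rb k hk' (m (mem_sd.2 (Or.inl ⟨by simp, ru⟩)))] at m
        exact qpatb_self (u5 u hu) e m) (by
      intro u hu k hk' e m
      have u5' := u5 u hu
      simp only [mem_insert] at hu hk'
      rcases hu with rfl | rfl | rfl | hu
      · exact one _ ca e
      · exact one _ cb e
      · rw [inter_self, T.c5] at e
        omega
      obtain ⟨v, hv, vu⟩ := qpatb_out c4 e
      have vk := m (mem_sd.2 (Or.inl ⟨mem_insert_of_mem hv, vu⟩))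
      rcases hk' with rfl | rfl | rfl | hk'
      · exact ca v hv vk
      · exact cb v hv vk
      · exact qpatb_self u5' e m
      · exact sW (mem_cov.2 ⟨k, hk', m (mem_sd.2 (Or.inl
          ⟨mem_insert_self _ _, fun su => sW (mem_cov.2 ⟨u, hu, su⟩)⟩))⟩)) (by
      intro d _ e m
      obtain ⟨v, hv, vd⟩ := qpatb_out h.dx e
      have vc := m (mem_sd.2 (Or.inl ⟨mem_insert_of_mem hv, vd⟩))
      exact (cx v ((mem_insert.1 vc).resolve_left (ns v (mem_inter.1 hv).2))
        (mem_inter.1 hv).1).elim) (safe_host (h.sub dW) (hc.symm ▸ cd))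
  unfold PQ
  omega

theorem pat_t2 [Infinite V] {k : ℕ} (hU : IHQ V k) {H W : Finset (Finset V)}
    (hk : W.card + 3 ≤ k) {x y z w : Finset V} {t : V} (h : Pat H W x y z w t)
    {a0 : V} (aW : a0 ∈ cov W) (ay : a0 ∈ y) (az : a0 ∈ z) (aw : a0 ∈ w) (hF : F2 W z w)
    (hx : ∀ v ∈ cov W, v ∈ x → (v ∈ z ∨ v ∈ w) → False) : PQ H W (insert x W) 3 := by
  obtain ⟨f1, d3, dW, cd⟩ := hF
  have mC : ∀ v, v ∈ sd (z ∩ cov W) (w ∩ cov W) ↔
      v ∈ cov W ∧ ((v ∈ z ∧ v ∉ w) ∨ (v ∉ z ∧ v ∈ w)) := fun v => by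
    simp only [mem_sd, mem_inter]
    tauto
  refine qpatb_main hU hk h ?_ (fun v hv => ((mC v).1 hv).1) (fun v hv => ?_) (fun v hv k => ?_)
    (fun v hv k => ?_) dW cd ?_
  · have h1 := card_union_add_card_inter (z ∩ cov W) (w ∩ cov W)
    have h2 : (z ∩ cov W).card = 3 := h.dz
    have h3 : (w ∩ cov W).card = 3 := h.dw
    rw [sd, card_sdiff_of_subset inter_subset_union]
    omega
  · exact mem_union.2 (((mC v).1 hv).2.imp And.left And.right)
  · exact hx v ((mC v).1 hv).1 k (((mC v).1 hv).2.imp And.left And.right)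
  · obtain ⟨vW, h1 | h1⟩ := (mC v).1 hv
    · exact h1.2 (h.one vW aW (Or.inl ⟨k, h1.1⟩) (Or.inl ⟨ay, az⟩) ▸ aw)
    · exact h1.1 (h.one vW aW (Or.inr (Or.inl ⟨k, h1.2⟩)) (Or.inl ⟨ay, az⟩) ▸ az)
  · obtain ⟨T, h1, h2, ⟨v, hv, k1⟩, u, hu, k2⟩ := h.rot.rot.jt.1
    refine ⟨T, h1, h2, ⟨v, hv, k1⟩, u, (mC u).2 ⟨(mem_inter.1 hu).2, Or.inr
      ⟨fun uz => ?_, (mem_inter.1 hu).1⟩⟩, k2⟩
    exact h.nzw T h1 h2 ⟨v, (mem_inter.1 hv).1, k1⟩ ⟨u, uz, k2⟩ ⟨u, (mem_inter.1 hu).1, k2⟩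

end Pool.Agent.Work.MP_d266e7_co.C5.P24
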