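import Pool.Agent.Work.MP_d266e7_co.P24Q.QPatB

/-!
`pat_t3`: `y ∩ cov W = {a0, T, T'}`, `z ∩ cov W = {a0, U, U'}`, `w ∩ cov W = {a0, R, R'}` (all
different by `Pat.one`; `U`, `R` differ from `a0` since a vertex in `x`, `y`, `z` lies in a
minimum transversal, `exists_cover_mem`, `nyz`). `d1 ⊇ T T' U U'` (`F2 W y z`), `d3 ⊇ U U' R R'`
(`F2 W z w`), `d1 ≠ d3` (six vertices); the star of `U` is `{x, z, d1, d3}` (degree at most four),
so a member of `W` through `U` is `d1` or `d3`. `A = x ∩ cov W`, `B = y ∩ cov W`, `C = insert U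
((w ∩ cov W).erase a0) = {U, R, R'}`, disjoint from `B`. `exists_tri` with `C.card = 3`. `No3`,
`Jt` as in `pat_t2`. `h1` (`b = B + s + r`): `u = c` has two common vertices; `u = a`: `r ∈ sd`
forces `k = c`, but the element of `B \ A` is not in `C`; `u = d ∈ W`: `B ⊆ d ⊆ B ∪ C`; if `U ∉ d`
then `d ⊆ y ∪ w` (against `Pat.key` of a permuted pattern), `d = d1` gives `d1 ⊆ y ∪ z`, `d = d3`
has seven vertices. `h2` (`c = C + s + r`): `u = a`: `k = b`, but the element of `C \ A` is not in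
`B`; `u = d ∈ W`: `C ⊆ d ⊆ B ∪ C`, `d = d1` has six vertices, `d3 ∋ U'`. `h3`: `sd a d ⊆ c` and
both have `s` and three elements of `cov W`, so `U, R ∈ sd a d`, both in `A \ d`, which has one
element. `h4` by `safe_small`. `pat_gain`: if one of `F2 W y z`, `F2 W z w`, `F2 W w y` fails use
`pat_t1` for a permuted pattern (`F2` is symmetric, `sd_comm`). Else the three common vertices are
equal (`Pat.one`); if `x` meets (inside `cov W`) at most one of `y`, `z`, `w` use `pat_t2`, else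
`pat_t3`, for a permuted pattern.
-/

namespace Pool.Agent.Work.MP_d266e7_co.C5.P24

open Finset

variable {V : Type} [DecidableEq V]

theorem qpatc_len {α : Type} [DecidableEq α] {d : Finset α} (l : List α) (hn : l.Nodup)
    (h : ∀ v ∈ l, v ∈ d) : l.length ≤ d.card := by
  rw [← List.toFinset_card_of_nodup hn]
  exact card_le_card fun v hv => h v (List.mem_toFinset.1 hv)

theorem qpatc_three {S : Finset V} (h : S.card = 3) {a b : V} (ha : a ∈ S) (hb : b ∈ S)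
    (hab : b ≠ a) : ∃ c, c ≠ a ∧ c ≠ b ∧ ∀ v, v ∈ S ↔ v = a ∨ v = b ∨ v = c := by
  have h1 : ((S.erase a).erase b).card = 1 := by
    rw [card_erase_of_mem (mem_erase.2 ⟨hab, hb⟩), card_erase_of_mem ha, h]
  obtain ⟨c, hc⟩ := card_eq_one.1 h1
  have h2 : ∀ v, v ≠ b ∧ v ≠ a ∧ v ∈ S ↔ v = c := fun v => by
    rw [← mem_singleton, ← hc, mem_erase, mem_erase]
  have h3 := (h2 c).2 rfl
  refine ⟨c, h3.2.1, h3.1, fun v => ?_⟩
  have := h2 v
  grind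

theorem qpatc_self {b u : Finset V} (hu : u.card = 5) (h : (b ∩ u).card = 3) : ¬ sd b u ⊆ b := by
  intro k
  have : u ⊆ b ∩ u := fun v hv => mem_inter.2 ⟨by_contra fun m =>
    m (k (mem_sd.2 (Or.inr ⟨m, hv⟩))), hv⟩
  have := card_le_card this
  omega

theorem qpatc_main {H W : Finset (Finset V)} {x y z w : Finset V} {t : V} (h : Pat H W x y z w t)
    {a0 : V} (aW : a0 ∈ cov W) (ay : a0 ∈ y) (az : a0 ∈ z) (aw : a0 ∈ w) (hF : F2 W y z)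
    (hF' : F2 W z w) {U R : V} (UW : U ∈ cov W) (Ux : U ∈ x) (Uz : U ∈ z) (RW : R ∈ cov W)
    (Rx : R ∈ x) (Rw : R ∈ w) : ∃ R', R' ∈ cov W ∧ R' ∈ w ∧ a0 ∉ x ∧ U ∉ y ∧ R ∉ y ∧ R' ∉ y ∧
      U ≠ R ∧ U ≠ R' ∧ R ≠ R' ∧
      ∀ d ∈ W, ¬ ∀ v ∈ d, v ∈ y ∨ v = U ∨ v = R ∨ v = R' := by
  have ax : a0 ∉ x := fun k => by
    obtain ⟨C, c1, c2, c3⟩ := exists_cover_mem h.cc aW
    exact h.nyz C c1 c2.le ⟨_, k, c3⟩ ⟨_, ay, c3⟩ ⟨_, az, c3⟩
  have one : ∀ v ∈ cov W, v ≠ a0 → ¬ (v ∈ y ∧ v ∈ z) ∧ ¬ (v ∈ y ∧ v ∈ w) ∧ ¬ (v ∈ z ∧ v ∈ w) :=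
    fun v hv hne => ⟨fun k => hne (h.one hv aW (Or.inl k) (Or.inl ⟨ay, az⟩)),
      fun k => hne (h.one hv aW (Or.inr (Or.inl k)) (Or.inl ⟨ay, az⟩)),
      fun k => hne (h.one hv aW (Or.inr (Or.inr k)) (Or.inl ⟨ay, az⟩))⟩
  have Ua : U ≠ a0 := fun e => ax (e ▸ Ux)
  have Ra : R ≠ a0 := fun e => ax (e ▸ Rx)
  obtain ⟨T, Ty, Ta⟩ := exists_mem_ne (s := y ∩ cov W) (by have := h.dy; unfold dd at this; omega) a0
  obtain ⟨T', T1, T2, hT⟩ := qpatc_three h.dy (mem_inter.2 ⟨ay, aW⟩) Ty Ta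
  obtain ⟨U', U1, U2, hU⟩ := qpatc_three h.dz (mem_inter.2 ⟨az, aW⟩) (mem_inter.2 ⟨Uz, UW⟩) Ua
  obtain ⟨R', R1, R2, hR⟩ := qpatc_three h.dw (mem_inter.2 ⟨aw, aW⟩) (mem_inter.2 ⟨Rw, RW⟩) Ra
  obtain ⟨t1, t2⟩ := mem_inter.1 Ty
  obtain ⟨t3, t4⟩ := mem_inter.1 ((hT T').2 (Or.inr (Or.inr rfl)))
  obtain ⟨u3, u4⟩ := mem_inter.1 ((hU U').2 (Or.inr (Or.inr rfl)))
  obtain ⟨r3, r4⟩ := mem_inter.1 ((hR R').2 (Or.inr (Or.inr rfl)))
  clear hT hU hR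
  have Tz : T ∉ z := fun k => (one T t2 Ta).1 ⟨t1, k⟩
  have Tw : T ∉ w := fun k => (one T t2 Ta).2.1 ⟨t1, k⟩
  have Tz' : T' ∉ z := fun k => (one T' t4 T1).1 ⟨t3, k⟩
  have Tw' : T' ∉ w := fun k => (one T' t4 T1).2.1 ⟨t3, k⟩
  have Uy : U ∉ y := fun k => (one U UW Ua).1 ⟨k, Uz⟩
  have Uw : U ∉ w := fun k => (one U UW Ua).2.2 ⟨Uz, k⟩
  have Uy' : U' ∉ y := fun k => (one U' u4 U1).1 ⟨k, u3⟩
  have Uw' : U' ∉ w := fun k => (one U' u4 U1).2.2 ⟨u3, k⟩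
  have Ry : R ∉ y := fun k => (one R RW Ra).2.1 ⟨k, Rw⟩
  have Rz : R ∉ z := fun k => (one R RW Ra).2.2 ⟨k, Rw⟩
  have Ry' : R' ∉ y := fun k => (one R' r4 R1).2.1 ⟨k, r3⟩
  have Rz' : R' ∉ z := fun k => (one R' r4 R1).2.2 ⟨k, r3⟩
  clear one
  obtain ⟨-, d1, m1, s1⟩ := hF
  obtain ⟨-, d3, m3, s3⟩ := hF'
  have e1 : ∀ v ∈ cov W, (v ∈ y ∧ v ∉ z) ∨ (v ∉ y ∧ v ∈ z) → v ∈ d1 := fun v hv k =>
    s1 (by simpa only [mem_sd, mem_inter, hv, and_true] using k)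
  have e3 : ∀ v ∈ cov W, (v ∈ z ∧ v ∉ w) ∨ (v ∉ z ∧ v ∈ w) → v ∈ d3 := fun v hv k =>
    s3 (by simpa only [mem_sd, mem_inter, hv, and_true] using k)
  have f1 := e1 T t2 (Or.inl ⟨t1, Tz⟩)
  have f2 := e1 T' t4 (Or.inl ⟨t3, Tz'⟩)
  have f3 := e1 U UW (Or.inr ⟨Uy, Uz⟩)
  have f4 := e1 U' u4 (Or.inr ⟨Uy', u3⟩)
  have f5 := e3 U UW (Or.inl ⟨Uz, Uw⟩)
  have f6 := e3 U' u4 (Or.inl ⟨u3, Uw'⟩)
  have f7 := e3 R RW (Or.inr ⟨Rz, Rw⟩)
  have f8 := e3 R' r4 (Or.inr ⟨Rz', r3⟩)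
  clear e1 e3 s1 s3 Ty
  have ne : d1 ≠ d3 := by
    rintro rfl
    have := qpatc_len (d := d1) [T, T', U, U', R, R'] (by
      simp only [List.nodup_cons, List.mem_cons, List.not_mem_nil, List.nodup_nil]
      grind (splits := 20)) (by simp [f1, f2, f3, f4, f7, f8])
    rw [h.cc.u5 d1 m1] at this
    simp at this
  refine ⟨R', r4, r3, ax, Uy, Ry, Ry', fun e => Uw (e ▸ Rw), fun e => Uw (e ▸ r3), R2.symm,
    fun d hd k => ?_⟩
  by_cases hd' : U ∈ d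
  · have nU : U' ∉ d := fun m => by
      have := k U' m
      grind
    obtain ⟨xW, -, zW, -⟩ := h.out
    have := qpatc_len (d := star H U) [x, z, d1, d3, d] (by
      have := h.xz
      simp only [List.nodup_cons, List.mem_cons, List.not_mem_nil, List.nodup_nil]
      grind) (by simp [mem_star, h.xH, h.zH, h.sub m1, h.sub m3, h.sub hd, Ux, Uz, f3, f5, hd'])
    have h4 := h.d4 U
    unfold dg at h4
    simp at this
    omega
  · refine h.rot.rot.key.2 d hd fun v hv => mem_union.2 ?_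
    have := k v hv
    grind

theorem pat_t3 [Infinite V] {k : ℕ} (hU : IHQ V k) {H W : Finset (Finset V)}
    (hk : W.card + 3 ≤ k) {x y z w : Finset V} {t : V} (h : Pat H W x y z w t)
    {a0 : V} (aW : a0 ∈ cov W) (ay : a0 ∈ y) (az : a0 ∈ z) (aw : a0 ∈ w) (hF : F2 W y z)
    (hF' : F2 W z w) {U R : V} (UW : U ∈ cov W) (Ux : U ∈ x) (Uz : U ∈ z) (RW : R ∈ cov W)
    (Rx : R ∈ x) (Rw : R ∈ w) : PQ H W (insert x W) 3 := by
  obtain ⟨R', r1, r2, ax, Uy, Ry, Ry', n1, n2, n3, nd⟩ :=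
    qpatc_main h aW ay az aw hF hF' UW Ux Uz RW Rx Rw
  obtain ⟨xW, yW, zW, wW⟩ := h.out
  have c3 : ({U, R, R'} : Finset V).card = 3 := card_eq_three.2 ⟨_, _, _, n1, n2, n3, rfl⟩
  have cs : ∀ v ∈ ({U, R, R'} : Finset V), v ∈ cov W ∧ (v ∈ z ∨ v ∈ w) := by simp [*]
  obtain ⟨s, r, sr, rW, tri⟩ := exists_tri h.cc (A := x ∩ cov W) (B := y ∩ cov W)
    (C := {U, R, R'}) inter_subset_right inter_subset_right (fun v hv => (cs v hv).1) h.dx h.dy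
    (Or.inl c3) (by
      rintro C c1 c2 ⟨v1, m1, k1⟩ ⟨v2, m2, k2⟩ ⟨v3, m3, k3⟩
      rcases (cs v3 m3).2 with m | m
      · exact h.nyz C c1 c2 ⟨_, (mem_inter.1 m1).1, k1⟩ ⟨_, (mem_inter.1 m2).1, k2⟩ ⟨_, m, k3⟩
      · exact h.nyw C c1 c2 ⟨_, (mem_inter.1 m1).1, k1⟩ ⟨_, (mem_inter.1 m2).1, k2⟩ ⟨_, m, k3⟩)
    h.jt.1 (by
      obtain ⟨C, c1, c2, c3⟩ := exists_cover_mem h.cc UW
      exact ⟨C, c1, c2.le, ⟨U, mem_inter.2 ⟨Ux, UW⟩, c3⟩, U, mem_insert_self _ _, c3⟩) (by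
      by_contra k
      refine h.nog ⟨y ∩ cov W, {U, R, R'}, inter_subset_right, fun v hv => (cs v hv).1,
        fun v hv => ?_, fun C c1 c2 v hv v' hv' k1 k2 => k ⟨C, c1, c2, ⟨v, hv, k1⟩, v', hv', k2⟩,
        by have := h.dy; unfold dd at this; omega, by omega⟩
      rcases mem_union.1 hv with m | m
      · exact dg_lt h.sub h.yH yW (mem_inter.1 m).1
      · exact (cs v m).2.elim (dg_lt h.sub h.zH zW) (dg_lt h.sub h.wH wW))
  rw [if_pos c3] at tri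
  have sW := tri.sW
  obtain ⟨a, ha⟩ : ∃ a, a = insert s (x ∩ cov W) := ⟨_, rfl⟩
  obtain ⟨b, hb⟩ : ∃ b, b = insert s (insert r (y ∩ cov W)) := ⟨_, rfl⟩
  obtain ⟨c, hc⟩ : ∃ c, c = insert s (insert r ({U, R, R'} : Finset V)) := ⟨_, rfl⟩
  rw [← ha, ← hb, ← hc] at tri
  have ma : ∀ v, v ∈ a ↔ v = s ∨ v ∈ x ∧ v ∈ cov W := by simp [ha]
  have mb : ∀ v, v ∈ b ↔ v = s ∨ v = r ∨ v ∈ y ∧ v ∈ cov W := by simp [hb]
  have mc : ∀ v, v ∈ c ↔ v = s ∨ v = r ∨ v = U ∨ v = R ∨ v = R' := by simp [hc]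
  have md : ∀ d ∈ W, ∀ v ∈ d, v ∈ cov W := fun d hd v hv => mem_cov.2 ⟨d, hd, hv⟩
  have eb : b ∩ cov W = y ∩ cov W := by
    ext v
    simp only [mem_inter, mb]
    grind
  have ec : c ∩ cov W = {U, R, R'} := by
    ext v
    simp only [mem_inter, mc, mem_insert, mem_singleton]
    grind
  have rb : r ∈ b := (mb r).2 (Or.inr (Or.inl rfl))
  have rc : r ∈ c := (mc r).2 (Or.inr (Or.inl rfl))
  have ra : r ∉ a := fun m => ((ma r).1 m).elim (fun e => sr e.symm) fun e => rW e.2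
  have rk : ∀ k ∈ insert a (insert b (insert c W)), r ∈ k → k = b ∨ k = c := by
    intro k hk m
    simp only [mem_insert] at hk
    rcases hk with rfl | e | e | e
    exacts [absurd m ra, Or.inl e, Or.inr e, absurd (md k e r m) rW]
  have bc : (b ∩ c).card ≤ 2 := (card_le_card (t := {s, r}) fun v hv => by
    simp only [mem_inter, mb, mc, mem_insert, mem_singleton] at hv ⊢
    grind).trans card_le_two
  have nd' : ∀ d ∈ W, ¬ ∀ v ∈ d, v ∈ b ∨ v ∈ c := fun d hd k => nd d hd fun v hv => by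
    have h1 := k v hv
    have h2 := md d hd v hv
    rw [mb, mc] at h1
    grind
  have g1 := tri_gain hU hk tri (tri_deg h.sub h.d4 h.xH h.yH h.zH h.wH xW yW zW wW h.xy h.xz h.xw
    h.yz h.yw (fun v hv => by
      simp only [mem_inter, ma] at hv
      grind) (eb ▸ inter_subset_left) (ec ▸ fun v hv => mem_union.2 (cs v hv).2))
    ((card_le_card (t := {s, r}) fun v hv => by
      simp only [mem_sdiff, mem_union, ma, mb, mc, mem_insert, mem_singleton] at hv ⊢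
      grind).trans card_le_two)
  have g2 := tri_hi h.sub tri h.xH h.yH h.tx h.ty h.tW (h.u5 x h.xH) h.dx ha
    (by rw [dd, eb]; exact h.dy) (eb ▸ inter_subset_left) (fun u hu k hk h3 hs => ?_)
    (fun u hu k hk h3 hs => ?_) (fun d hd h3 hs => ?_) (safe_small h.cc.u5 (by rw [ec, c3]))
  · unfold PQ
    omega
  · simp only [mem_insert] at hu
    rcases hu with rfl | rfl | rfl | hu
    · rcases rk k hk (hs (mem_sd.2 (Or.inl ⟨rb, ra⟩))) with rfl | rfl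
      · exact qpatc_self tri.a5 h3 hs
      · have := hs (mem_sd.2 (Or.inl (⟨by rw [mb]; grind, by rw [ma]; grind⟩ : a0 ∈ b ∧ a0 ∉ u)))
        rw [mc] at this
        grind
    · rw [inter_self, tri.b5] at h3
      omega
    · omega
    · rcases rk k hk (hs (mem_sd.2 (Or.inl ⟨rb, fun m => rW (md u hu r m)⟩))) with rfl | rfl
      · exact qpatc_self (h.cc.u5 u hu) h3 hs
      · exact nd' u hu fun v hv => (em (v ∈ b)).imp_right fun m => hs (mem_sd.2 (Or.inr ⟨m, hv⟩))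
  · simp only [mem_insert] at hu
    rcases hu with rfl | rfl | rfl | hu
    · rcases rk k hk (hs (mem_sd.2 (Or.inl ⟨rc, ra⟩))) with rfl | rfl
      · by_cases m : R' ∈ u
        · have := qpatc_len (d := c ∩ u) [s, U, R, R'] (by
            simp only [List.nodup_cons, List.mem_cons, List.not_mem_nil, List.nodup_nil]
            grind) (by simp [mc, m, (ma s).2 (Or.inl rfl), (ma U).2 (Or.inr ⟨Ux, UW⟩),
              (ma R).2 (Or.inr ⟨Rx, RW⟩)])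
          rw [h3] at this
          simp at this
        · have := hs (mem_sd.2 (Or.inl ⟨by simp [mc], m⟩))
          rw [mb] at this
          grind
      · exact qpatc_self tri.a5 h3 hs
    · rw [inter_comm] at h3
      omega
    · rw [inter_self, tri.c5] at h3
      omega
    · rcases rk k hk (hs (mem_sd.2 (Or.inl ⟨rc, fun m => rW (md u hu r m)⟩))) with rfl | rfl
      · exact nd' u hu fun v hv =>
          ((em (v ∈ c)).imp_right fun m => hs (mem_sd.2 (Or.inr ⟨m, hv⟩))).symm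
      · exact qpatc_self (h.cc.u5 u hu) h3 hs
  · have k1 : d ⊆ insert R' (a ∩ d) := fun v hv => by
      by_cases m : v ∈ a
      · exact mem_insert_of_mem (mem_inter.2 ⟨m, hv⟩)
      · have k2 := hs (mem_sd.2 (Or.inr ⟨m, hv⟩))
        have k3 := md d hd v hv
        rw [mc] at k2
        rw [ma] at m
        exact mem_insert.2 (Or.inl (by grind))
    have k2 := (card_le_card k1).trans (card_insert_le _ _)
    rw [h.cc.u5 d hd] at k2
    omega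

theorem pat_gain [Infinite V] {k : ℕ} (hU : IHQ V k) {H W : Finset (Finset V)}
    (hk : W.card + 3 ≤ k) {x y z w : Finset V} {t : V} (h : Pat H W x y z w t) :
    PQ H W (insert x W) 3 := by
  by_cases f1 : F2 W y z
  swap
  · exact pat_t1 hU hk h f1
  by_cases f2 : F2 W z w
  swap
  · exact pat_t1 hU hk h.rot f2
  by_cases f3 : F2 W w y
  swap
  · exact pat_t1 hU hk h.rot.rot f3
  obtain ⟨a, ha⟩ := card_pos.1 (f1.1.ge : 1 ≤ _)
  obtain ⟨a', ha'⟩ := card_pos.1 (f2.1.ge : 1 ≤ _)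
  simp only [mem_inter] at ha ha'
  obtain ⟨⟨ay, aW⟩, az, -⟩ := ha
  obtain rfl : a = a' := h.one aW ha'.1.2 (Or.inl ⟨ay, az⟩) (Or.inr (Or.inr ⟨ha'.1.1, ha'.2.1⟩))
  have aw := ha'.2.1
  by_cases m1 : ∃ v ∈ cov W, v ∈ x ∧ v ∈ y <;> by_cases m2 : ∃ v ∈ cov W, v ∈ x ∧ v ∈ z
  · obtain ⟨U, u1, u2, u3⟩ := m1
    obtain ⟨R, r1, r2, r3⟩ := m2
    exact pat_t3 hU hk h.rot.rot aW aw ay az f3 f1 u1 u2 u3 r1 r2 r3
  · by_cases m3 : ∃ v ∈ cov W, v ∈ x ∧ v ∈ w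
    · obtain ⟨U, u1, u2, u3⟩ := m3
      obtain ⟨R, r1, r2, r3⟩ := m1
      exact pat_t3 hU hk h.rot aW az aw ay f2 f3 u1 u2 u3 r1 r2 r3
    · exact pat_t2 hU hk h aW ay az aw f2 fun v k1 k2 k3 =>
        k3.elim (fun k => m2 ⟨v, k1, k2, k⟩) fun k => m3 ⟨v, k1, k2, k⟩
  · by_cases m3 : ∃ v ∈ cov W, v ∈ x ∧ v ∈ w
    · obtain ⟨U, u1, u2, u3⟩ := m2
      obtain ⟨R, r1, r2, r3⟩ := m3
      exact pat_t3 hU hk h aW ay az aw f1 f2 u1 u2 u3 r1 r2 r3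
    · exact pat_t2 hU hk h.rot aW az aw ay f3 fun v k1 k2 k3 =>
        k3.elim (fun k => m3 ⟨v, k1, k2, k⟩) fun k => m1 ⟨v, k1, k2, k⟩
  · exact pat_t2 hU hk h.rot.rot aW aw ay az f1 fun v k1 k2 k3 =>
      k3.elim (fun k => m1 ⟨v, k1, k2, k⟩) fun k => m2 ⟨v, k1, k2, k⟩

end Pool.Agent.Work.MP_d266e7_co.C5.P24
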