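import Pool.Agent.Work.MP_d266e7_co.P24Q.QGain
import Pool.Agent.Work.MP_d266e7_co.P24Q.QNum3

/-!
Each piece has `PQ _ _ _ 0`; a gain of four is needed; traces of three disjoint subfamilies of `H`
add up (`hi_add` twice, `hi_mono`). If two different pieces have `Gad _ (dg H) 2 2` use `pq_gad`
twice. Else there is `i` such that no other piece has one (`Fin 3`). Apply `abs3Q` with
`Side3.shadow`, `d l x = dd (W l) (q x)`, `R l x y = NJ (W l) (q x) (q y)`, `u l x y = (cov {q x,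
q y} ∩ cov (W l)).card` (`hosts_two`, `gad11`, `gad1N`). First case: `pq_real`; the hosts lie in
`insert t (cov (W 0) ∪ cov (W 1) ∪ cov (W 2))` (five elements, `hs`, disjoint covers), so at most
`1 + u j + u k` vertices are new. Second case: `sgad12`, `SGad.symm`, `SGad.mono`, `pq_sgad42`.
-/

namespace Pool.Agent.Work.MP_d266e7_co.C5.P24

open Finset

variable {V : Type} [DecidableEq V]

theorem qthree_sum (f : Fin 3 → ℕ) {i j k : Fin 3} (hij : i ≠ j) (hik : i ≠ k) (hjk : j ≠ k) :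
    f i + f j + f k = f 0 + f 1 + f 2 := by
  have a : ∀ i : Fin 3, i = 0 ∨ i = 1 ∨ i = 2 := by decide
  rcases a i with rfl | rfl | rfl <;> rcases a j with rfl | rfl | rfl <;>
    rcases a k with rfl | rfl | rfl <;> omega

theorem qthree_third : ∀ i j : Fin 3, i ≠ j → ∃ k, i ≠ k ∧ j ≠ k := by decide

theorem qthree_others : ∀ i : Fin 3, ∃ j k, i ≠ j ∧ i ≠ k ∧ j ≠ k ∧ ∀ l, l = i ∨ l = j ∨ l = k := by
  decide

theorem qthree_fin {H Y : Finset (Finset V)} {W : Fin 3 → Finset (Finset V)}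
    {q : Fin 4 → Finset V} (h : Side3 H W q) {i j k : Fin 3} (hij : i ≠ j) (hik : i ≠ k)
    (hjk : j ≠ k) {a b c : ℕ} (p1 : PQ H (W i) Y a) (p2 : PQ H (W j) (W j) b)
    (p3 : PQ H (W k) (W k) c) (hg : 4 ≤ a + b + c) (hY : Y ⊆ H)
    (hd : ∀ l, i ≠ l → Disjoint Y (W l)) :
    67 * (tau (W 0) + tau (W 1) + tau (W 2)) ≤
      14 * ((W 0).card + (W 1).card + (W 2).card) +
        11 * ((cov (W 0)).card + (cov (W 1)).card + (cov (W 2)).card) + 3 * hi H H + 2 := by
  have e1 := qthree_sum (fun l => tau (W l)) hij hik hjk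
  have e2 := qthree_sum (fun l => (W l).card) hij hik hjk
  have e3 := qthree_sum (fun l => (cov (W l)).card) hij hik hjk
  have a1 := hi_add (H := H) (hd j hij) subset_union_left subset_union_right
  have a2 := hi_add (H := H) (disjoint_union_left.2
    ⟨hd k hik, (h.sep j k hjk).disjoint (h.wcc j).u5.ne⟩) (union_subset hY (h.wsub j)) (h.wsub k)
  unfold PQ at p1 p2 p3
  omega

theorem qthree_host {H : Finset (Finset V)} {W : Fin 3 → Finset (Finset V)}
    {q : Fin 4 → Finset V} (h : Side3 H W q) {t : V} (ht : ∀ x, t ∈ q x)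
    (tW : ∀ i, t ∉ cov (W i))
    (hs : ∀ x, dd (W 0) (q x) + dd (W 1) (q x) + dd (W 2) (q x) = 4) (x : Fin 4) :
    ∀ v ∈ q x, v = t ∨ ∃ l, v ∈ cov (W l) := by
  have d : ∀ i j, i ≠ j → Disjoint (q x ∩ cov (W i)) (q x ∩ cov (W j)) := fun i j e =>
    (h.sep i j e).disjoint_cov.mono inter_subset_right inter_subset_right
  have c : (insert t (q x ∩ cov (W 0) ∪ q x ∩ cov (W 1) ∪ q x ∩ cov (W 2))).card = 5 := by
    rw [card_insert_of_notMem (by simp [tW]), card_union_of_disjoint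
      (disjoint_union_left.2 ⟨d 0 2 (by decide), d 1 2 (by decide)⟩),
      card_union_of_disjoint (d 0 1 (by decide))]
    exact congrArg (· + 1) (hs x)
  have e := eq_of_subset_of_card_le (insert_subset (ht x) (union_subset
    (union_subset inter_subset_left inter_subset_left) inter_subset_left))
    ((h.cc.u5 _ (h.qmem x)).trans c.symm).le
  intro v hv
  rw [← e] at hv
  simp only [mem_insert, mem_union, mem_inter] at hv
  rcases hv with hv | (hv | hv) | hv
  exacts [Or.inl hv, Or.inr ⟨_, hv.2⟩, Or.inr ⟨_, hv.2⟩, Or.inr ⟨_, hv.2⟩]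

theorem side3Q [Infinite V] {k : ℕ} (hU : IHQ V k) {H : Finset (Finset V)}
    {W : Fin 3 → Finset (Finset V)} {q : Fin 4 → Finset V} (h : Side3 H W q)
    (hk : ∀ i, (W i).card + 3 ≤ k) (h4 : ∀ v, dg H v ≤ 4) {t : V} (ht : ∀ x, t ∈ q x)
    (tW : ∀ i, t ∉ cov (W i))
    (hs : ∀ x, dd (W 0) (q x) + dd (W 1) (q x) + dd (W 2) (q x) = 4) (e : ∀ i, ¬ E10 (W i)) :
    67 * (tau (W 0) + tau (W 1) + tau (W 2)) ≤
      14 * ((W 0).card + (W 1).card + (W 2).card) +
        11 * ((cov (W 0)).card + (cov (W 1)).card + (cov (W 2)).card) + 3 * hi H H + 2 := by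
  have k2 : ∀ i, (W i).card + 2 ≤ k := fun i => (Nat.le_succ _).trans (hk i)
  have z : ∀ i, PQ H (W i) (W i) 0 := fun i =>
    pq_zero hU (le_self_add.trans (hk i)) (h.wcc i) (h.wsub i) h4 (e i)
  have dj : ∀ i l, i ≠ l → Disjoint (W i) (W l) := fun i l c =>
    (h.sep i l c).disjoint (h.wcc i).u5.ne
  by_cases two : ∃ i j, i ≠ j ∧ Gad (W i) (dg H) 2 2 ∧ Gad (W j) (dg H) 2 2
  · obtain ⟨i, j, c, g1, g2⟩ := two
    obtain ⟨l, c1, c2⟩ := qthree_third i j c
    exact qthree_fin h c c1 c2 (pq_gad hU (k2 i) (h.wcc i) (h.wsub i) h4 g1)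
      (pq_gad hU (k2 j) (h.wcc j) (h.wsub j) h4 g2) (z l) (by omega) (h.wsub i) (dj i)
  obtain ⟨i, hi'⟩ : ∃ i, ∀ l, l ≠ i → ¬ Gad (W l) (dg H) 2 2 := by
    by_cases c : ∃ i, Gad (W i) (dg H) 2 2
    · obtain ⟨i, c⟩ := c
      exact ⟨i, fun l a b => two ⟨l, i, a, b, c⟩⟩
    · exact ⟨0, fun l _ b => c ⟨l, b⟩⟩
  obtain ⟨j, l, hij, hil, hjl, all⟩ := qthree_others i
  have key := abs3Q (u := fun l x y => (cov {q x, q y} ∩ cov (W l)).card) h.shadow hs hij hil hjl
    (fun l x y => ?_) (fun l x y _ c => hosts_two (h.wcc l) c)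
    (fun l a x y _ c b1 b2 => hi' l a ((gad11 (h.wsub l) (h.qmem x) (h.qmem y) (h.qout x l)
      (h.qout y l) c).mono b1 b2))
    (fun l a x y w _ _ _ c1 c2 b => not_lt.1 fun b2 => hi' l a
      ((gad1N (N := {q y, q w}) (h.wsub l) (h.qmem x) (h.qout x l) fun v hv => ?_).mono b b2))
  · rcases key with ⟨x, y, xy, r, b1, b2, b3⟩ | ⟨x, y, w, -, -, -, r1, r2, r3, b1, b2, b3⟩
    · refine qthree_fin h hij hil hjl (pq_real hU (k2 i) (h.wcc i) (h.wsub i) h.cc.u5 h4
        (h.qmem x) (h.qmem y) r b1 b2 ⟨t, mem_inter.2 ⟨ht x, ht y⟩⟩ ?_) (z j) (z l) (by omega)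
        (insert_subset (h.qmem x) (insert_subset (h.qmem y) (h.wsub i))) fun m c =>
        disjoint_insert_left.2 ⟨h.qout x m, disjoint_insert_left.2 ⟨h.qout y m, dj i m c⟩⟩
      have s : (q x ∪ q y) \ cov (W i) ⊆
          insert t (cov {q x, q y} ∩ cov (W j) ∪ cov {q x, q y} ∩ cov (W l)) := fun v hv => by
        obtain ⟨v1, v2⟩ := mem_sdiff.1 hv
        have v3 : v ∈ cov {q x, q y} := by simpa [mem_cov] using v1
        have v4 : v = t ∨ ∃ m, v ∈ cov (W m) :=
          (mem_union.1 v1).elim (qthree_host h ht tW hs x v) (qthree_host h ht tW hs y v)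
        rcases v4 with c | ⟨m, c⟩
        · exact mem_insert.2 (Or.inl c)
        · rcases all m with rfl | rfl | rfl
          · exact absurd c v2
          · exact mem_insert_of_mem (mem_union_left _ (mem_inter.2 ⟨v3, c⟩))
          · exact mem_insert_of_mem (mem_union_right _ (mem_inter.2 ⟨v3, c⟩))
      exact (card_le_card s).trans ((card_insert_le _ _).trans
        (Nat.succ_le_succ ((card_union_le _ _).trans b3)))
    · exact qthree_fin h hij hil hjl (pq_sgad42 hU (k2 i) (h.wcc i) (h.wsub i) h4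
        ((sgad12 (h.wcc i) (h.wsub i) (h.qmem x) (h.qmem y) (h.qmem w) (h.qout x i) (h.qout y i)
          (h.qout w i) r1 r2 r3).symm.mono (add_le_add b2 b3) b1)) (z j) (z l) (by omega)
        (h.wsub i) (dj i)
  · refine (card_le_card fun v hv => ?_).trans (card_union_le _ _)
    obtain ⟨v1, v2⟩ := mem_inter.1 hv
    have v3 : v ∈ q x ∪ q y := by simpa [mem_cov] using v1
    exact mem_union.2 ((mem_union.1 v3).imp (mem_inter.2 ⟨·, v2⟩) (mem_inter.2 ⟨·, v2⟩))
  · rcases mem_insert.1 hv with rfl | hv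
    · exact ⟨h.qmem y, h.qout y l, c1⟩
    · rw [mem_singleton.1 hv]
      exact ⟨h.qmem w, h.qout w l, c2⟩

end Pool.Agent.Work.MP_d266e7_co.C5.P24
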