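import Pool.Agent.Work.MP_d266e7_co.P24Q.QTwoE
import Pool.Agent.Work.MP_d266e7_co.P24Q.QThree
import Pool.Agent.Work.MP_d266e7_co.P24Q.QE10b

/-!
`qb_three`: `gallai`, `three_four`, `ee_eq`, `t1`, `t2_of`, omega (checked numerically; split on
`2 tau = m + 1`; for `m = 6`, `n = 10`: `tau ≤ 2` is direct, `tau = 3` uses `e10_class`).
`qb_step`: as `ub_step` in C5/ULevel.lean. `G = F.filter E10` (classical); summing `pq_zero` and
`E10.val` gives `67 ∑ tau ≤ 14 ∑ m + 11 ∑ n + 3 ∑ hi H W + 2 |F| + 5 |G|`, `hi_sum`, and `nlemma2`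
gives `|F| + |G| ≤ a + 3` (if `F` is empty both are zero). So omega closes all cases but `a = 0`,
one outside vertex, and `|F| ∈ {2, 3}` or `|F| = |G| = 1`. The last case is impossible: `slots`
gives `∑ dg H = 30 + 16` on ten vertices of degree at most four. Two pieces: `quad2_of`, `quad2Q`
or `quad2E` (with `Quad2.symm`); three pieces: `side3_mk`, `side3Q` (`G` is empty).
-/

namespace Pool.Agent.Work.MP_d266e7_co.C5.P24

open Finset

variable {V : Type} [DecidableEq V]

theorem qstep_num {m n k h c : ℕ} (h1 : 5 * m ≤ 3 * n) (h2 : 2 * k ≤ m + 1)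
    (h3 : 18 * k ≤ 3 * n + 4 * m) (h4 : 27 * k ≤ 8 * m + 3 * n + h + 5)
    (h5 : 2 * k ≤ m → ¬ (m = 6 ∧ n = 10) → 27 * k ≤ 8 * m + 3 * n + h + 2)
    (h6 : ¬ (m = 6 ∧ n = 10)) (hc : c = 2) : 67 * k ≤ 14 * m + 11 * n + 3 * h + c := by
  by_cases a : 2 * k ≤ m
  · have b := h5 a h6
    by_cases a2 : 2 * k = m
    · by_cases a3 : 3 * n = 5 * m
      · omega
      · omega
    · omega
  · omega

theorem qb_three [Infinite V]
    (hbad : ∀ H : Finset (Finset V), Bad2 H → H.card = 6 ∧ (cov H).card = 10)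
    {H : Finset (Finset V)} (h : CC H) (h3 : ∀ v, dg H v ≤ 3) : QB H := by
  have h1 := ee_eq h.u5 h3
  have h2 := gallai h.u5.ne h.crit h.conn
  have h4 := three_four h.u5
  have h5 : VB H 5 := t1 h h3
  by_cases c : H.card = 6 ∧ (cov H).card = 10
  · by_cases c3 : tau H = 3
    · rcases e10_class h h3 c.1 c.2 c3 with a | a
      · left
        unfold TB
        omega
      · exact Or.inr a
    · left
      unfold TB
      omega
  · left
    unfold VB at h5
    refine qstep_num (by omega) h2 h4 (by omega) (fun a b => ?_) c rfl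
    have h6 : VB H 2 := t2_of hbad h h3 a b
    unfold VB at h6
    omega

theorem qstep_sum {F G : Finset (Finset (Finset V))} {H : Finset (Finset V)}
    (h : ∀ W ∈ F, 67 * tau W ≤ 14 * W.card + 11 * (cov W).card + 3 * hi H W + 2 +
      if W ∈ G then 5 else 0) :
    67 * ∑ W ∈ F, tau W ≤ 14 * ∑ W ∈ F, W.card + 11 * ∑ W ∈ F, (cov W).card +
      3 * ∑ W ∈ F, hi H W + 2 * F.card + 5 * (F ∩ G).card := by
  have h1 := sum_le_sum h
  have h2 : ∑ W ∈ F, (if W ∈ G then 5 else 0) = 5 * (F ∩ G).card := by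
    rw [sum_ite_mem, sum_const, Nat.nsmul_eq_mul, mul_comm]
  simp only [sum_add_distrib, ← mul_sum, sum_const, Nat.nsmul_eq_mul, h2] at h1
  omega

theorem qb_step [Infinite V] {H : Finset (Finset V)} {k : ℕ} (hU : IHQ V k)
    (hk : H.card ≤ k + 1) (h : CC H) (h4 : ∀ v, dg H v ≤ 4) {t : V} (ht : dg H t = 4) :
    TB H 2 := by
  classical
  have ht1 : 1 ≤ dg H t := by omega
  obtain ⟨F, hF0, hτ⟩ := exists_step h ht1
  have hF : Fam H F := hF0.mono sdiff_subset Subset.rfl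
  have c1 := step_card hF0
  have c2 := hF.card_eq
  have c3 := hF.cov_eq
  have c4 := hi_sum (H := H) hF
  have hto := step_out ht1 hF0
  have c5 : 1 ≤ (cov H \ cov (un F)).card := card_pos.2 ⟨t, hto⟩
  obtain ⟨G, hG⟩ : ∃ G, G = F.filter E10 := ⟨_, rfl⟩
  have mG : ∀ W, W ∈ G ↔ W ∈ F ∧ E10 W := fun W => by rw [hG, mem_filter]
  have sG : G ⊆ F := fun W hW => ((mG W).1 hW).1
  have c6 := card_le_card sG
  have c7 : F.card + G.card + 1 ≤ (H \ un F).card := by
    obtain ⟨x, hx⟩ := card_pos.1 (show 0 < (H \ un F).card by omega)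
    rcases F.eq_empty_or_nonempty with e | hne
    · have e1 : F.card = 0 := card_eq_zero.2 e
      have e2 := card_pos.2 ⟨x, hx⟩
      omega
    · exact nlemma2 h hF sG (fun W hW => ((mG W).1 hW).2.pair) hne ⟨x, mem_sdiff.1 hx⟩
        fun x h1 h2 _ _ _ => mem_sdiff.2 ⟨h1, h2⟩
  have hW : ∀ W ∈ F, W.card + 3 ≤ k := fun W hW => by
    have := single_le_sum (f := fun Z : Finset (Finset V) => Z.card)
      (fun _ _ => Nat.zero_le _) hW
    omega
  have c8 := qstep_sum (F := F) (G := G) (H := H) fun W hWF => by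
    split_ifs with c
    · have := ((mG W).1 c).2.val
      omega
    · have a1 := pq_zero hU (by have := hW W hWF; omega) (hF.cc W hWF) (hF.sub W hWF) h4
        fun e => c ((mG W).2 ⟨hWF, e⟩)
      unfold PQ at a1
      omega
  rw [inter_eq_right.2 sG] at c8
  unfold TB
  by_contra hcon
  have hcase : ((H \ star H t) \ un F).card = 0 ∧ (H \ un F).card = 4 ∧
      (cov H \ cov (un F)).card = 1 ∧
      ((F.card = 1 ∧ G.card = 1) ∨ F.card = 2 ∨ (F.card = 3 ∧ G.card = 0)) := by omega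
  obtain ⟨f0, f2, f3, f1⟩ := hcase
  have htx : ∀ x ∈ H \ un F, t ∈ x := fun x hx => by
    by_contra c
    exact card_ne_zero_of_mem (mem_sdiff.2 ⟨mem_sdiff.2 ⟨(mem_sdiff.1 hx).1,
      fun e => c (mem_star.1 e).2⟩, (mem_sdiff.1 hx).2⟩) f0
  have htW : ∀ W ∈ F, t ∉ cov W := fun W hWF e => (mem_sdiff.1 hto).2 (cov_mono (sub_un hWF) e)
  have h5 : ∀ x ∈ H \ un F, ∑ W ∈ F, dd W x = 4 := fun x hx => by
    have a1 := gplus_out hF h.u5 (mem_sdiff.1 hx).1
    have a2 := hF.five (h.u5 x (mem_sdiff.1 hx).1)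
    have a4 := card_ne_zero_of_mem (mem_sdiff.2 ⟨htx x hx, (mem_sdiff.1 hto).2⟩)
    omega
  rcases f1 with ⟨f1, g1⟩ | f1 | ⟨f1, g1⟩
  · obtain ⟨W, hFe⟩ := card_eq_one.1 f1
    have m1 : W ∈ F := hFe ▸ mem_singleton_self _
    have eG : G = F := eq_of_subset_of_card_le sG (by omega)
    have eW : E10 W := ((mG W).1 (eG ▸ m1)).2
    have hu : un F = W := by simp [hFe, un]
    have a1 := slots (hF.sub W m1) (hF.cc W m1).u5
    have a2 : ∑ x ∈ H \ W, dd W x = (H \ W).card * 4 := by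
      refine sum_const_nat fun x hx => ?_
      have := h5 x (hu ▸ hx)
      rwa [hFe, sum_singleton] at this
    have a3 : ∑ v ∈ cov W, dg H v ≤ (cov W).card * 4 := sum_le_card_nsmul _ _ 4 fun v _ => h4 v
    rw [hu] at f2
    have := eW.m6
    have := eW.n10
    omega
  · obtain ⟨W1, W2, hne, hFe⟩ := card_eq_two.1 f1
    have m1 : W1 ∈ F := hFe ▸ mem_insert_self _ _
    have m2 : W2 ∈ F := hFe ▸ mem_insert_of_mem (mem_singleton_self _)
    have hs : ∀ f : Finset (Finset V) → ℕ, ∑ W ∈ F, f W = f W1 + f W2 := fun f => by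
      rw [hFe, sum_pair hne]
    rw [hs] at hτ c2 c3
    obtain ⟨q, hq, hq'⟩ := quad2_of h hF hFe hne f2 (by omega)
    have hd : ∀ x, dd W1 (q x) + dd W2 (q x) = 4 := fun x => (hs _).symm.trans (h5 _ (hq' x))
    by_cases e2 : E10 W2
    · have := quad2E hU hq (hW W1 m1) h4 hd e2
      omega
    by_cases e1 : E10 W1
    · have := quad2E hU hq.symm (hW W2 m2) h4 (fun x => (add_comm _ _).trans (hd x)) e1
      omega
    have := quad2Q hU hq (hW W1 m1) (hW W2 m2) h4 (fun x => htx _ (hq' x)) (htW W1 m1)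
      (htW W2 m2) hd e1 e2
    omega
  · obtain ⟨W, w1, w2, w3⟩ := exists_enum f1
    obtain ⟨q, q1, q2, q3⟩ := exists_enum f2
    have hs := sum_three w1 w2 w3
    rw [hs] at hτ c2 c3
    have h33 := side3_mk h hF w1 w2 w3 q1 q2 q3 (by omega)
    have := side3Q hU h33 (fun i => hW _ (w2 i)) h4 (fun x => htx _ (q2 x))
      (fun i => htW _ (w2 i)) (fun x => (hs _).symm.trans (h5 _ (q2 x)))
      fun i e => card_ne_zero_of_mem ((mG _).2 ⟨w2 i, e⟩) g1
    omega

theorem ihq [Infinite V]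
    (hbad : ∀ H : Finset (Finset V), Bad2 H → H.card = 6 ∧ (cov H).card = 10) (k : ℕ) :
    IHQ V k := by
  induction k with
  | zero =>
    intro X hk h _
    have := card_pos.2 h.ne
    omega
  | succ k ih =>
    intro X hk h h4
    by_cases c : ∃ t, dg X t = 4
    · obtain ⟨t, ht⟩ := c
      exact Or.inl (qb_step ih hk h h4 ht)
    · refine qb_three hbad h fun v => ?_
      have a1 := h4 v
      have a2 : dg X v ≠ 4 := fun e => c ⟨v, e⟩
      omega

end Pool.Agent.Work.MP_d266e7_co.C5.P24
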