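import Pool.Agent.Work.MP_d266e7_co.P24Q.QGain

/-!
As `triple_main` in C5/Triple.lean and Ear.lean. `X = insert a (insert b (insert c W))`. The new
nodes contain `s ∉ cov W`, so they are not in `W`; they are different (`a = b` and `jac`
contradict `no`). `tau X ≤ tau W + 1` by `s` (`tau_le_succ`); a transversal of `X` of size `≤ tau
W` contradicts `no`. Erasing a new node leaves `tau ≤ tau W` by the joint pairs, erasing `e ∈ W`
leaves `tau ≤ tau (W.erase e) + 1`. Connected by `triple_conn` (a joint pair gives a vertex in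
`cov W` by `min_sub`). `tri_gain`: `tb_of_new` if there are two new vertices, else `QB` directly
(`E10.val`; `s` is new). `tri_deg`: for `v ∈ cov W` use `dg_add` with the hosts that contain `v`;
for `v ∉ cov W` the degree is at most three. `exists_tri`: fresh `s ≠ r` outside `cov W`
(`Infinite.exists_notMem_finset`).
-/

namespace Pool.Agent.Work.MP_d266e7_co.C5.P24

open Finset

variable {V : Type} [DecidableEq V]

theorem qtri_dg (e : Finset V) (S : Finset (Finset V)) (v : V) :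
    dg (insert e S) v ≤ dg S v + if v ∈ e then 1 else 0 := by
  by_cases h : e ∈ S
  · rw [insert_eq_of_mem h]
    omega
  · rw [pair_dg_insert h]

theorem Tri3.aW {W : Finset (Finset V)} {a b c : Finset V} {s : V} (h : Tri3 W a b c s) :
    a ∉ W ∧ b ∉ W ∧ c ∉ W ∧ a ≠ b ∧ a ≠ c ∧ b ≠ c := by
  have n : ∀ e, s ∈ e → e ∉ W := fun e he k => h.sW (mem_cov.2 ⟨e, k, he⟩)
  refine ⟨n a h.sa, n b h.sb, n c h.sc, fun e => ?_, fun e => ?_, fun e => ?_⟩
  · obtain ⟨C, c1, c2, c3, c4⟩ := h.jac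
    exact h.no C c1 c2 c3 (e ▸ c3) c4
  · obtain ⟨C, c1, c2, c3, c4⟩ := h.jab
    exact h.no C c1 c2 c3 c4 (e ▸ c3)
  · obtain ⟨C, c1, c2, c3, c4⟩ := h.jab
    exact h.no C c1 c2 c3 c4 (e ▸ c4)

theorem Tri3.main {W : Finset (Finset V)} {a b c : Finset V} {s : V} (h : Tri3 W a b c s) :
    CC (insert a (insert b (insert c W))) ∧
      (insert a (insert b (insert c W))).card = W.card + 3 ∧
      tau (insert a (insert b (insert c W))) = tau W + 1 ∧
      cov (insert a (insert b (insert c W))) \ cov W = (a ∪ b ∪ c) \ cov W := by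
  obtain ⟨aW, bW, cW, ab, ac, bc⟩ := h.aW
  obtain ⟨X, hX⟩ : ∃ X, X = insert a (insert b (insert c W)) := ⟨_, rfl⟩
  rw [← hX]
  have mem : ∀ e, e ∈ X ↔ e = a ∨ e = b ∨ e = c ∨ e ∈ W := fun e => by
    rw [hX, mem_insert, mem_insert, mem_insert]
  have sub : W ⊆ X := fun e he => (mem e).2 (.inr (.inr (.inr he)))
  have ma : a ∈ X := (mem a).2 (.inl rfl)
  have mb : b ∈ X := (mem b).2 (.inr (.inl rfl))
  have mc : c ∈ X := (mem c).2 (.inr (.inr (.inl rfl)))
  have u5 : U5 X := fun e he => by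
    rcases (mem e).1 he with rfl | rfl | rfl | k
    exacts [h.a5, h.b5, h.c5, h.cc.u5 e k]
  have t1 : tau W < tau X := by
    obtain ⟨T, hT, e⟩ := exists_opt u5.ne
    by_contra hn
    exact h.no T (fun f hf => hT f (sub hf)) (e.trans_le (not_lt.1 hn)) (hT a ma) (hT b mb)
      (hT c mc)
  have t2 : tau X ≤ tau W + 1 := tau_le_succ h.cc.u5.ne s fun e he => by
    rcases (mem e).1 he with rfl | rfl | rfl | k
    exacts [.inr h.sa, .inr h.sb, .inr h.sc, .inl k]
  have adj : ∀ e f, Jt W e f → (∃ w ∈ W, Adj e w) ∧ ∃ w ∈ W, Adj f w := by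
    rintro e f ⟨C, c1, c2, ⟨v, v1, v2⟩, u, u1, u2⟩
    obtain ⟨w, w1, w2⟩ := mem_cov.1 (min_sub c1 c2 v2)
    obtain ⟨w', w1', w2'⟩ := mem_cov.1 (min_sub c1 c2 u2)
    exact ⟨⟨w, w1, v, v1, w2⟩, w', w1', u, u1, w2'⟩
  refine ⟨⟨u5, fun e he => lt_of_le_of_lt ?_ t1, triple_conn h.cc.conn sub fun e he => ?_,
    ⟨a, ma⟩⟩, ?_, by omega, ?_⟩
  · rcases (mem e).1 he with rfl | rfl | rfl | k
    · obtain ⟨C, c1, c2, c3, c4⟩ := h.jbc
      refine (tau_le fun f hf => ?_).trans c2
      rcases (mem f).1 (mem_of_mem_erase hf) with k | rfl | rfl | k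
      exacts [absurd k (ne_of_mem_erase hf), c3, c4, c1 f k]
    · obtain ⟨C, c1, c2, c3, c4⟩ := h.jac
      refine (tau_le fun f hf => ?_).trans c2
      rcases (mem f).1 (mem_of_mem_erase hf) with rfl | k | rfl | k
      exacts [c3, absurd k (ne_of_mem_erase hf), c4, c1 f k]
    · obtain ⟨C, c1, c2, c3, c4⟩ := h.jab
      refine (tau_le fun f hf => ?_).trans c2
      rcases (mem f).1 (mem_of_mem_erase hf) with rfl | rfl | k | k
      exacts [c3, c4, absurd k (ne_of_mem_erase hf), c1 f k]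
    · refine (tau_le_succ (h.cc.u5.ne.mono (erase_subset e W)) s fun f hf => ?_).trans
        (h.cc.crit e k)
      rcases (mem f).1 (mem_of_mem_erase hf) with rfl | rfl | rfl | k'
      exacts [.inr h.sa, .inr h.sb, .inr h.sc, .inl (mem_erase.2 ⟨ne_of_mem_erase hf, k'⟩)]
  · rcases (mem e).1 he with rfl | rfl | rfl | k
    · exact (adj _ _ h.jab).1
    · exact (adj _ _ h.jab).2
    · exact (adj _ _ h.jac).2
    · obtain ⟨v, hv⟩ := h.cc.u5.ne e k
      exact ⟨e, k, v, hv, hv⟩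
  · rw [hX, card_insert_of_notMem (by simp [ab, ac, aW]), card_insert_of_notMem (by simp [bc, bW]),
      card_insert_of_notMem cW]
  · ext v
    simp only [mem_sdiff, mem_union]
    refine and_congr_left fun hv => ⟨fun k => ?_, fun k => ?_⟩
    · obtain ⟨e, e1, e2⟩ := mem_cov.1 k
      rcases (mem e).1 e1 with rfl | rfl | rfl | k'
      exacts [.inl (.inl e2), .inl (.inr e2), .inr e2, absurd (mem_cov.2 ⟨e, k', e2⟩) hv]
    · rcases k with (k | k) | k
      exacts [mem_cov.2 ⟨a, ma, k⟩, mem_cov.2 ⟨b, mb, k⟩, mem_cov.2 ⟨c, mc, k⟩]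

theorem tri_gain {k : ℕ} (hU : IHQ V k) {W : Finset (Finset V)} (hk : W.card + 3 ≤ k)
    {a b c : Finset V} {s : V} (h : Tri3 W a b c s)
    (h4 : ∀ v, dg (insert a (insert b (insert c W))) v ≤ 4)
    (hn : ((a ∪ b ∪ c) \ cov W).card ≤ 2) :
    67 * tau W + 3 ≤ 14 * W.card + 11 * (cov W).card +
      3 * hi (insert a (insert b (insert c W))) (insert a (insert b (insert c W))) + 2 := by
  obtain ⟨cc, c1, c2, c3⟩ := h.main
  have sub : W ⊆ insert a (insert b (insert c W)) := fun e he =>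
    mem_insert_of_mem (mem_insert_of_mem (mem_insert_of_mem he))
  have c4 := card_sdiff_add_card_eq_card (cov_mono sub)
  rw [← c3] at hn
  by_cases h2 : 2 ≤ (cov (insert a (insert b (insert c W))) \ cov W).card
  · have k := tb_of_new hU (c1.le.trans hk) cc h4 sub c2 h2
    unfold TB at k
    omega
  · rcases hU _ (c1.le.trans hk) cc h4 with k | k
    · unfold TB at k
      omega
    · have k' := k.val
      omega

theorem tri_deg {H W : Finset (Finset V)} (hs : W ⊆ H) (h4 : ∀ v, dg H v ≤ 4)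
    {x y z w a b c : Finset V} (xH : x ∈ H) (yH : y ∈ H) (zH : z ∈ H) (wH : w ∈ H)
    (xW : x ∉ W) (yW : y ∉ W) (zW : z ∉ W) (wW : w ∉ W) (xy : x ≠ y) (xz : x ≠ z) (xw : x ≠ w)
    (yz : y ≠ z) (yw : y ≠ w) (ha : a ∩ cov W ⊆ x) (hb : b ∩ cov W ⊆ y)
    (hc : c ∩ cov W ⊆ z ∪ w) (v : V) : dg (insert a (insert b (insert c W))) v ≤ 4 := by
  have d0 : dg (insert a (insert b (insert c W))) v ≤ dg W v + (if v ∈ c then 1 else 0) +
      (if v ∈ b then 1 else 0) + (if v ∈ a then 1 else 0) :=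
    (qtri_dg _ _ _).trans (Nat.add_le_add_right ((qtri_dg _ _ _).trans
      (Nat.add_le_add_right (qtri_dg _ _ _) _)) _)
  by_cases hv : v ∈ cov W
  · obtain ⟨u, uH, uW, xu, yu, cu⟩ : ∃ u ∈ H, u ∉ W ∧ x ≠ u ∧ y ≠ u ∧ (v ∈ c → v ∈ u) := by
      by_cases k : v ∈ z
      · exact ⟨z, zH, zW, xz, yz, fun _ => k⟩
      · exact ⟨w, wH, wW, xw, yw, fun k' =>
          (mem_union.1 (hc (mem_inter.2 ⟨k', hv⟩))).resolve_left k⟩
    have d1 := dg_mono (show insert x (insert y (insert u W)) ⊆ H from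
      insert_subset xH (insert_subset yH (insert_subset uH hs))) v
    rw [pair_dg_insert (by simp [xy, xu, xW]), pair_dg_insert (by simp [yu, yW]),
      pair_dg_insert uW] at d1
    have d2 := h4 v
    have ka : v ∈ a → v ∈ x := fun k => ha (mem_inter.2 ⟨k, hv⟩)
    have kb : v ∈ b → v ∈ y := fun k => hb (mem_inter.2 ⟨k, hv⟩)
    have e : ∀ p q : Finset V, (v ∈ p → v ∈ q) →
        (if v ∈ p then 1 else 0) ≤ (if v ∈ q then 1 else 0) := fun p q k => by
      by_cases k' : v ∈ p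
      · simp [k', k k']
      · simp [k']
    have e1 := e a x ka
    have e2 := e b y kb
    have e3 := e c u cu
    omega
  · have k2 : ¬ 1 ≤ dg W v := fun k => hv (dg_pos.1 k)
    split_ifs at d0 <;> omega

theorem tri_real {k : ℕ} (hU : IHQ V k) {H W : Finset (Finset V)} (hk : W.card + 3 ≤ k)
    (hs : W ⊆ H) (h4 : ∀ v, dg H v ≤ 4) {x y z : Finset V} {t : V} (h : Tri3 W x y z t)
    (hx : x ∈ H) (hy : y ∈ H) (hz : z ∈ H) (hn : ((x ∪ y ∪ z) \ cov W).card ≤ 2) :
    PQ H W (insert x (insert y (insert z W))) 3 := by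
  have sub : insert x (insert y (insert z W)) ⊆ H :=
    insert_subset hx (insert_subset hy (insert_subset hz hs))
  have k := tri_gain hU hk h (fun v => (dg_mono sub v).trans (h4 v)) hn
  have k' := hi_mono sub (Subset.refl (insert x (insert y (insert z W))))
  unfold PQ
  omega

/-- new nodes `A + s`, `B + s + r`, and `C + s + r` or `C + s` -/
theorem exists_tri [Infinite V] {W : Finset (Finset V)} (hW : CC W) {A B C : Finset V}
    (hA : A ⊆ cov W) (hB : B ⊆ cov W) (hC : C ⊆ cov W) (a4 : A.card = 4) (b3 : B.card = 3)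
    (c3 : C.card = 3 ∨ C.card = 4) (no : No3 W A B C) (jab : Jt W A B) (jac : Jt W A C)
    (jbc : Jt W B C) : ∃ s r : V, s ≠ r ∧ r ∉ cov W ∧
      Tri3 W (insert s A) (insert s (insert r B))
        (insert s (if C.card = 3 then insert r C else C)) s := by
  obtain ⟨r, hr⟩ := Infinite.exists_notMem_finset (cov W)
  obtain ⟨s, hs'⟩ := Infinite.exists_notMem_finset (insert r (cov W))
  have sr : s ≠ r := fun e => hs' (e ▸ mem_insert_self _ _)
  have hs : s ∉ cov W := fun k => hs' (mem_insert_of_mem k)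
  obtain ⟨D, hD⟩ : ∃ D, D = if C.card = 3 then insert r C else C := ⟨_, rfl⟩
  have D1 : C ⊆ D := by
    rw [hD]
    split_ifs
    exacts [subset_insert _ _, Subset.refl _]
  have D2 : D ⊆ insert r C := by
    rw [hD]
    split_ifs
    exacts [Subset.refl _, subset_insert _ _]
  have D3 : D.card = 4 := by
    rw [hD]
    split_ifs with k
    · rw [card_insert_of_notMem fun e => hr (hC e), k]
    · omega
  have up : ∀ {P Q P' Q' : Finset V}, P ⊆ P' → Q ⊆ Q' → Jt W P Q → Jt W P' Q' := by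
    rintro P Q P' Q' h1 h2 ⟨T, t1, t2, ⟨v, v1, v2⟩, u, u1, u2⟩
    exact ⟨T, t1, t2, ⟨v, h1 v1, v2⟩, u, h2 u1, u2⟩
  have sB : B ⊆ insert s (insert r B) := (subset_insert _ _).trans (subset_insert _ _)
  have sC : C ⊆ insert s D := D1.trans (subset_insert _ _)
  refine ⟨s, r, sr, hr, ?_⟩
  rw [← hD]
  refine ⟨hW, ?_, ?_, ?_, mem_insert_self _ _, mem_insert_self _ _, mem_insert_self _ _, hs, ?_,
    up (subset_insert _ _) sB jab, up (subset_insert _ _) sC jac, up sB sC jbc⟩
  · rw [card_insert_of_notMem fun e => hs (hA e), a4]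
  · rw [card_insert_of_notMem fun e => hs' (insert_subset_insert _ hB e),
      card_insert_of_notMem fun e => hr (hB e), b3]
  · rw [card_insert_of_notMem fun e => hs' (insert_subset_insert _ hC (D2 e)), D3]
  · rintro T t1 t2 ⟨u, u1, u2⟩ ⟨v, v1, v2⟩ ⟨w, w1, w2⟩
    have m := min_sub t1 t2
    have ns : ∀ p ∈ T, p ≠ s := fun p hp e => hs (e ▸ m hp)
    have nr : ∀ p ∈ T, p ≠ r := fun p hp e => hr (e ▸ m hp)
    exact no T t1 t2 ⟨u, (mem_insert.1 u1).resolve_left (ns u u2), u2⟩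
      ⟨v, (mem_insert.1 ((mem_insert.1 v1).resolve_left (ns v v2))).resolve_left (nr v v2), v2⟩
      ⟨w, (mem_insert.1 (D2 ((mem_insert.1 w1).resolve_left (ns w w2)))).resolve_left (nr w w2),
        w2⟩

end Pool.Agent.Work.MP_d266e7_co.C5.P24
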