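import Pool.Agent.Work.MP_d266e7_co.P24Q.QTri

/-!
`X = insert a (insert b (insert c W))`, `a = insert s A`, `x = insert t A` with `A = x ∩ cov W`.
Map a trace pair `p` of `X` to `p.image (fun e => if e = a then x else e)`; or count: pairs inside
`W` plus pairs `{a, d}`. By `h1`, `h2` a trace pair `{u, v}` (`earhi_pair`) contains neither `b`
nor `c`. Pair inside `W` with `sd u v ⊆ k`: `k ∈ W` is fine, `k = a` gives `sd u v ⊆ A ⊆ x`
(`earhi_sd`), `k = b` is impossible (`sd_card`, `dd W b = 3`), `k = c` uses `h4`. Pair `{a, d}`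
with `d ∈ W`: `x ∩ d = a ∩ d`; `s ∈ sd a d ⊆ k` forces `k ∈ {a, b, c}`; `k = a` is impossible (`d
\ a` is nonempty); `k = b` gives `sd x d ⊆ y` (the elements of `sd a d` other than `s` lie in `cov
W`, so in `b ∩ cov W ⊆ y`, and `t ∈ y`); `k = c` uses `h3`.
-/

namespace Pool.Agent.Work.MP_d266e7_co.C5.P24

open Finset

variable {V : Type} [DecidableEq V]

theorem tri_hi {H W : Finset (Finset V)} (hs : W ⊆ H) {a b c x y : Finset V} {s t : V}
    (h : Tri3 W a b c s) (xH : x ∈ H) (yH : y ∈ H) (tx : t ∈ x) (ty : t ∈ y) (tW : t ∉ cov W)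
    (x5 : x.card = 5) (dx : dd W x = 4) (ha : a = insert s (x ∩ cov W)) (db : dd W b = 3)
    (hb : b ∩ cov W ⊆ y)
    (h1 : ∀ u ∈ insert a (insert b (insert c W)), ∀ k ∈ insert a (insert b (insert c W)),
      (b ∩ u).card = 3 → ¬ sd b u ⊆ k)
    (h2 : ∀ u ∈ insert a (insert b (insert c W)), ∀ k ∈ insert a (insert b (insert c W)),
      (c ∩ u).card = 3 → ¬ sd c u ⊆ k)
    (h3 : ∀ d ∈ W, (a ∩ d).card = 3 → sd a d ⊆ c → ∃ k ∈ H, sd x d ⊆ k)
    (h4 : Safe H W (c ∩ cov W)) :
    hi (insert a (insert b (insert c W))) (insert a (insert b (insert c W))) ≤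
      hi H (insert x W) := by
  have xW : x ∉ W := fun e => tW (mem_cov.2 ⟨x, e, tx⟩)
  have cv : ∀ d ∈ W, ∀ v ∈ d, v ∈ cov W := fun d hd v hv => mem_cov.2 ⟨d, hd, hv⟩
  have a5 := h.a5
  have ma : ∀ v ∈ cov W, v ∈ a ↔ v ∈ x := fun v hv => by
    rw [ha, mem_insert, mem_inter]
    exact ⟨fun e => e.elim (fun e => absurd (e ▸ hv) h.sW) And.left, fun e => Or.inr ⟨e, hv⟩⟩
  have mx : ∀ v ∈ x, v ∉ cov W → v = t := fun v hv hv' => by
    have e1 := card_sdiff_add_card_inter x (cov W)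
    unfold dd at dx
    exact card_le_one.1 (by omega : (x \ cov W).card ≤ 1) v (mem_sdiff.2 ⟨hv, hv'⟩) t
      (mem_sdiff.2 ⟨tx, tW⟩)
  have ia : ∀ d ∈ W, x ∩ d = a ∩ d := fun d hd => by
    ext v
    rw [mem_inter, mem_inter]
    exact and_congr_left fun e => (ma v (cv d hd v e)).symm
  have key : ∀ d ∈ W, (a ∩ d).card = 3 → ∀ k ∈ insert a (insert b (insert c W)), sd a d ⊆ k →
      ({a, d} : Finset (Finset V)) ∈ (fun p : Finset (Finset V) =>
        p.image fun e => if e = x then a else e) ''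
          (((insert x W).powersetCard 2).filter (Tr H) : Finset _) := by
    intro d hd e3 k hk hsd
    have dx' : d ≠ x := fun e => xW (e ▸ hd)
    refine ⟨{x, d}, mem_coe.2 (mem_filter.2 ⟨mem_powersetCard.2 ⟨insert_subset_insert _
      (singleton_subset_iff.2 hd), card_pair dx'.symm⟩, x, mem_insert_self _ _, d,
      mem_insert_of_mem (mem_singleton_self d), by rwa [ia d hd], ?_⟩), by simp [dx']⟩
    simp only [mem_insert] at hk
    rcases hk with rfl | rfl | rfl | hk
    · have e1 : d ⊆ k ∩ d := fun v hv => mem_inter.2 ⟨by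
        by_contra e
        exact e (hsd (mem_sd.2 (Or.inr ⟨e, hv⟩))), hv⟩
      have e2 := card_le_card e1
      have e4 := h.cc.u5 d hd
      omega
    · refine ⟨y, yH, fun v hv => ?_⟩
      by_cases e : v ∈ cov W
      · refine hb (mem_inter.2 ⟨hsd (mem_sd.2 ?_), e⟩)
        rw [ma v e]
        exact mem_sd.1 hv
      · rcases mem_sd.1 hv with e1 | e1
        · exact mx v e1.1 e ▸ ty
        · exact absurd (cv d hd v e1.2) e
    · exact h3 d hd e3 hsd
    · exact absurd (cv k hk s (hsd (mem_sd.2 (Or.inl ⟨h.sa, fun e => h.sW (cv d hd s e)⟩)))) h.sW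
  refine card_le_card_of_surjOn (fun p => p.image fun e => if e = x then a else e) fun p hp => ?_
  obtain ⟨hp, u, hu, v, hv, e3, k, hk, hsd⟩ := mem_filter.1 (mem_coe.1 hp)
  obtain ⟨e4, e2⟩ := mem_powersetCard.1 hp
  have e := earhi_pair hp hu hv (h.main.1.u5 u (e4 hu)) e3
  have e3' : (v ∩ u).card = 3 := by rwa [inter_comm]
  have hsd' : sd v u ⊆ k := sd_comm u v ▸ hsd
  have hu' : u = a ∨ u ∈ W := by
    have := e4 hu
    simp only [mem_insert] at this
    rcases this with e1 | rfl | rfl | e1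
    · exact Or.inl e1
    · exact absurd hsd (h1 v (e4 hv) k hk e3)
    · exact absurd hsd (h2 v (e4 hv) k hk e3)
    · exact Or.inr e1
  have hv' : v = a ∨ v ∈ W := by
    have := e4 hv
    simp only [mem_insert] at this
    rcases this with e1 | rfl | rfl | e1
    · exact Or.inl e1
    · exact absurd hsd' (h1 u (e4 hu) k hk e3')
    · exact absurd hsd' (h2 u (e4 hu) k hk e3')
    · exact Or.inr e1
  rcases hu' with rfl | hu' <;> rcases hv' with rfl | hv'
  · rw [inter_self] at e3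
    omega
  · exact e ▸ key v hv' e3 k hk hsd
  · rw [e, pair_comm]
    exact key u hu' e3' k hk hsd'
  · have ux : u ≠ x := fun e => xW (e ▸ hu')
    have vx : v ≠ x := fun e => xW (e ▸ hv')
    refine ⟨p, mem_coe.2 (earhi_old e e2 (mem_insert_of_mem hu') (mem_insert_of_mem hv') e3 ?_),
      by simp [e, ux, vx]⟩
    have e5 := earhi_sd hu' hv' hsd
    simp only [mem_insert] at hk
    rcases hk with rfl | rfl | rfl | hk
    · exact ⟨x, xH, fun z hz => (ma z (mem_inter.1 (e5 hz)).2).1 (hsd hz)⟩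
    · have e6 := sd_card (h.cc.u5 u hu') (h.cc.u5 v hv') e3
      have e7 : (sd u v).card ≤ dd W k := card_le_card e5
      omega
    · exact h4 u hu' v hv' e3 e5
    · exact ⟨k, hs hk, hsd⟩

end Pool.Agent.Work.MP_d266e7_co.C5.P24
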