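import Pool.Agent.Work.MP_d266e7_co.P24Q.QPatC

/-!
Follow `quad2` and `quad2_core` in C5/Quad.lean. Write `a x = dd W1 (q x)`, `b x = dd W2 (q x)`.
Each piece has `PQ _ _ _ 0` (`pq_zero`), `hi_add` adds the traces of disjoint subfamilies of `H`;
a gain of two is needed. `Gad _ _ 2 2` on either piece: `pq_gad`. Else `quad_num` gives `x y z w`
with `a x, a y, a z ≥ 3`, `b w ≥ 1`, sum at most 11 (or the same for `b`, `Quad2.symm`). Pairs
with `a ≥ 2` are not `NJ` in `W1`, hence (`Quad2.split`) each `s` among `x y z` is `NJ` with `w`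
in `W2`. Whenever the fourth host meets `W2` the three others satisfy `No3` (absorb the fourth in
`W2`, as `t3` in `quad2_core`, then `tau_le`). Every host lies in `insert t (cov W1 ∪ cov W2)`
(`hs`, five elements, `sides_dd` or `Sep.disjoint_cov`), so the new vertices of the real triple
are `t` and `cov {q x, q y, q z} ∩ cov W2`. If this set has at most one element use `tri_real`.
This holds if `b x + b y + b z ≤ 1`, and if `b w ≥ 2` (`gad1N`, no `Gad`). Else `b w = 1`, all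
four `a ≥ 3`, all pairs are `NJ` in `W2`; four hosts with `b = 1` give `gad22`; so exactly one of
`x y z` has `a = 4` and `pat_gain` applies.
-/

namespace Pool.Agent.Work.MP_d266e7_co.C5.P24

open Finset

variable {V : Type} [DecidableEq V]

theorem quad_no3 {H W1 W2 : Finset (Finset V)} {q : Fin 4 → Finset V} (h : Quad2 H W1 W2 q)
    {x y z w : Fin 4} (h1 : x ≠ y) (h2 : x ≠ z) (h3 : x ≠ w) (h4 : y ≠ z) (h5 : y ≠ w)
    (h6 : z ≠ w) (hw : 1 ≤ dd W2 (q w)) : No3 W1 (q x) (q y) (q z) := by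
  rintro C hC hc ⟨a, ha, ha'⟩ ⟨b, hb, hb'⟩ ⟨c, hc1, hc'⟩
  have a1 := h.lt
  have a2 := absorb h.c2 hw
  have a3 := quad_cover h.cc (A := insert (q x) (insert (q y) (insert (q z) W1)))
    (B := insert (q w) W2)
    (insert_subset (h.qmem x) (insert_subset (h.qmem y) (insert_subset (h.qmem z) h.s1)))
    (insert_subset (h.qmem w) h.s2) fun e he => by
      rcases h.all e he with a | a | ⟨t, rfl⟩
      · simp [a]
      · simp [a]
      · rcases quad_all x y z w t h1 h2 h3 h4 h5 h6 with rfl | rfl | rfl | rfl <;> simp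
  have a4 : tau (insert (q x) (insert (q y) (insert (q z) W1))) ≤ C.card := tau_le fun e he => by
    rcases mem_insert.1 he with rfl | he
    · exact ⟨a, ha, ha'⟩
    rcases mem_insert.1 he with rfl | he
    · exact ⟨b, hb, hb'⟩
    rcases mem_insert.1 he with rfl | he
    · exact ⟨c, hc1, hc'⟩
    · exact hC e he
  omega

theorem qtwo_fin {k : ℕ} (hU : IHQ V k) {H W1 W2 Y : Finset (Finset V)}
    {q : Fin 4 → Finset V} (h : Quad2 H W1 W2 q) (hk2 : W2.card + 3 ≤ k)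
    (h4 : ∀ v, dg H v ≤ 4) (e2 : ¬ E10 W2) (hY : Y ⊆ H) (hd : Disjoint Y W2)
    (g : PQ H W1 Y 3) :
    67 * (tau W1 + tau W2) ≤ 14 * (W1.card + W2.card) +
      11 * ((cov W1).card + (cov W2).card) + 3 * hi H H + 2 := by
  have a1 := pq_zero hU (by omega) h.c2 h.s2 h4 e2
  have a2 := hi_add (H := H) hd hY h.s2
  unfold PQ at a1 g
  omega

theorem qtwo_mem {H W1 W2 : Finset (Finset V)} {q : Fin 4 → Finset V} (h : Quad2 H W1 W2 q)
    {t : V} (ht : ∀ x, t ∈ q x) (t1 : t ∉ cov W1) (t2 : t ∉ cov W2)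
    (hs : ∀ x, dd W1 (q x) + dd W2 (q x) = 4) (x : Fin 4) {v : V} (hv : v ∈ q x) :
    v = t ∨ v ∈ cov W1 ∨ v ∈ cov W2 := by
  have a1 : insert t (q x ∩ cov W1 ∪ q x ∩ cov W2) ⊆ q x :=
    insert_subset (ht x) (union_subset inter_subset_left inter_subset_left)
  have a2 : (insert t (q x ∩ cov W1 ∪ q x ∩ cov W2)).card = 5 := by
    rw [card_insert_of_notMem (by simp [t1, t2]), card_union_of_disjoint
      (h.sep.disjoint_cov.mono inter_subset_right inter_subset_right)]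
    exact congrArg (· + 1) (hs x)
  rw [← eq_of_subset_of_card_le a1 (by rw [a2, h.cc.u5 _ (h.qmem x)])] at hv
  rcases mem_insert.1 hv with e | e
  · exact Or.inl e
  · exact Or.inr ((mem_union.1 e).imp (fun a => (mem_inter.1 a).2) fun a => (mem_inter.1 a).2)

theorem qtwo_jt {H W1 W2 : Finset (Finset V)} {q : Fin 4 → Finset V} (h : Quad2 H W1 W2 q)
    {t : V} (ht : ∀ x, t ∈ q x) {x y : Fin 4} (n : ¬ NJ W1 (q x) (q y)) :
    Jt W1 (q x) (q y) := by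
  obtain ⟨C, c1, c2, ⟨v, hv, hv'⟩, w, hw, hw'⟩ :=
    joint_of_not_nj h.c1.u5.ne ⟨t, ht x⟩ ⟨t, ht y⟩ n
  exact ⟨C, c1, c2, ⟨v, (mem_inter.1 hv).1, hv'⟩, w, (mem_inter.1 hw).1, hw'⟩

theorem qtwo_tri {k : ℕ} (hU : IHQ V k) {H W1 W2 : Finset (Finset V)}
    {q : Fin 4 → Finset V} (h : Quad2 H W1 W2 q) (hk1 : W1.card + 3 ≤ k) (hk2 : W2.card + 3 ≤ k)
    (h4 : ∀ v, dg H v ≤ 4) {t : V} (ht : ∀ x, t ∈ q x) (t1 : t ∉ cov W1) (t2 : t ∉ cov W2)
    (hs : ∀ x, dd W1 (q x) + dd W2 (q x) = 4) (e2 : ¬ E10 W2)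
    {x y z w : Fin 4} (h1 : x ≠ y) (h2 : x ≠ z) (h3 : x ≠ w) (h4' : y ≠ z) (h5 : y ≠ w)
    (h6 : z ≠ w) (hw : 1 ≤ dd W2 (q w)) (nxy : ¬ NJ W1 (q x) (q y)) (nxz : ¬ NJ W1 (q x) (q z))
    (nyz : ¬ NJ W1 (q y) (q z)) (hc : (cov {q x, q y, q z} ∩ cov W2).card ≤ 1) :
    67 * (tau W1 + tau W2) ≤ 14 * (W1.card + W2.card) +
      11 * ((cov W1).card + (cov W2).card) + 3 * hi H H + 2 := by
  have hsub : (q x ∪ q y ∪ q z) \ cov W1 ⊆ insert t (cov {q x, q y, q z} ∩ cov W2) := by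
    intro v hv
    obtain ⟨a, b⟩ := mem_sdiff.1 hv
    have : ∃ s, v ∈ q s ∧ q s ∈ ({q x, q y, q z} : Finset (Finset V)) := by
      rcases mem_union.1 a with a | a
      · rcases mem_union.1 a with a | a
        · exact ⟨x, a, by simp⟩
        · exact ⟨y, a, by simp⟩
      · exact ⟨z, a, by simp⟩
    obtain ⟨s, s1, s2⟩ := this
    rcases qtwo_mem h ht t1 t2 hs s s1 with e | e | e
    · exact mem_insert.2 (Or.inl e)
    · exact absurd e b
    · exact mem_insert_of_mem (mem_inter.2 ⟨mem_cov.2 ⟨_, s2, s1⟩, e⟩)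
  refine qtwo_fin hU h hk2 h4 e2
    (insert_subset (h.qmem x) (insert_subset (h.qmem y) (insert_subset (h.qmem z) h.s1)))
    (disjoint_insert_left.2 ⟨h.q2 x, disjoint_insert_left.2 ⟨h.q2 y,
      disjoint_insert_left.2 ⟨h.q2 z, h.sep.disjoint h.c1.u5.ne⟩⟩⟩)
    (tri_real hU hk1 h.s1 h4 ⟨h.c1, h.cc.u5 _ (h.qmem x), h.cc.u5 _ (h.qmem y),
      h.cc.u5 _ (h.qmem z), ht x, ht y, ht z, t1, quad_no3 h h1 h2 h3 h4' h5 h6 hw,
      qtwo_jt h ht nxy, qtwo_jt h ht nxz, qtwo_jt h ht nyz⟩ (h.qmem x) (h.qmem y) (h.qmem z) ?_)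
  have a1 := card_le_card hsub
  have a2 := card_insert_le t (cov {q x, q y, q z} ∩ cov W2)
  omega

theorem qtwo_pat [Infinite V] {k : ℕ} (hU : IHQ V k) {H W1 W2 : Finset (Finset V)}
    {q : Fin 4 → Finset V} (h : Quad2 H W1 W2 q) (hk1 : W1.card + 3 ≤ k) (hk2 : W2.card + 3 ≤ k)
    (h4 : ∀ v, dg H v ≤ 4) {t : V} (ht : ∀ x, t ∈ q x) (t1 : t ∉ cov W1)
    (hs : ∀ x, dd W1 (q x) + dd W2 (q x) = 4) (e2 : ¬ E10 W2) (g1 : ¬ Gad W1 (dg H) 2 2)
    {x y z w : Fin 4} (h1 : x ≠ y) (h2 : x ≠ z) (h3 : x ≠ w) (h4' : y ≠ z) (h5 : y ≠ w)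
    (h6 : z ≠ w) (hx : dd W1 (q x) = 4) (hy : dd W1 (q y) = 3) (hz : dd W1 (q z) = 3)
    (hw : dd W1 (q w) = 3) :
    67 * (tau W1 + tau W2) ≤ 14 * (W1.card + W2.card) +
      11 * ((cov W1).card + (cov W2).card) + 3 * hi H H + 2 := by
  have sy := hs y
  have sz := hs z
  have sw := hs w
  exact qtwo_fin hU h hk2 h4 e2 (insert_subset (h.qmem x) h.s1)
    (disjoint_insert_left.2 ⟨h.q2 x, h.sep.disjoint h.c1.u5.ne⟩)
    (pat_gain hU hk1 ⟨h.cc.u5, h4, h.c1, h.s1, h.qmem x, h.qmem y, h.qmem z, h.qmem w,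
      h.qinj.ne h1, h.qinj.ne h2, h.qinj.ne h3, h.qinj.ne h4', h.qinj.ne h5, h.qinj.ne h6,
      ht x, ht y, ht z, ht w, t1, hx, hy, hz, hw, g1,
      quad_no3 h h1 h2 h3 h4' h5 h6 (by omega),
      quad_no3 h h1 h3 h2 h5 h4' h6.symm (by omega),
      quad_no3 h h2 h3 h1 h6 h4'.symm h5.symm (by omega)⟩)

theorem qtwo_core [Infinite V] {k : ℕ} (hU : IHQ V k) {H W1 W2 : Finset (Finset V)}
    {q : Fin 4 → Finset V} (h : Quad2 H W1 W2 q) (hk1 : W1.card + 3 ≤ k) (hk2 : W2.card + 3 ≤ k)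
    (h4 : ∀ v, dg H v ≤ 4) {t : V} (ht : ∀ x, t ∈ q x) (t1 : t ∉ cov W1) (t2 : t ∉ cov W2)
    (hs : ∀ x, dd W1 (q x) + dd W2 (q x) = 4) (e2 : ¬ E10 W2) (g1 : ¬ Gad W1 (dg H) 2 2)
    (g2 : ¬ Gad W2 (dg H) 2 2)
    {x y z w : Fin 4} (h1 : x ≠ y) (h2 : x ≠ z) (h3 : x ≠ w) (h4' : y ≠ z) (h5 : y ≠ w)
    (h6 : z ≠ w) (hx : 3 ≤ dd W1 (q x)) (hy : 3 ≤ dd W1 (q y)) (hz : 3 ≤ dd W1 (q z))
    (hw : 1 ≤ dd W2 (q w)) :
    67 * (tau W1 + tau W2) ≤ 14 * (W1.card + W2.card) +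
      11 * ((cov W1).card + (cov W2).card) + 3 * hi H H + 2 := by
  have nj : ∀ s t, 2 ≤ dd W1 (q s) → 2 ≤ dd W1 (q t) → ¬ NJ W1 (q s) (q t) := fun s t a b c =>
    g1 ((gad11 h.s1 (h.qmem s) (h.qmem t) (h.q1 s) (h.q1 t) c).mono a b)
  have sx := hs x
  have sy := hs y
  have sz := hs z
  have sw := hs w
  have nxy := nj x y (by omega) (by omega)
  have nxz := nj x z (by omega) (by omega)
  have nyz := nj y z (by omega) (by omega)
  have tri := qtwo_tri hU h hk1 hk2 h4 ht t1 t2 hs e2 h1 h2 h3 h4' h5 h6 hw nxy nxz nyz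
  have jz := (h.split h1 h2 h3 h4' h5 h6).resolve_left nxy
  have jy := (h.split h2 h1 h3 h4'.symm h6 h5).resolve_left nxz
  have jx := (h.split h4' h1.symm h5 h2.symm h6 h3).resolve_left nyz
  by_cases hw2 : 2 ≤ dd W2 (q w)
  · have g3 := gad1N (N := {q x, q y, q z}) h.s2 (h.qmem w) (h.q2 w) fun e he => by
      rcases mem_insert.1 he with rfl | he
      · exact ⟨h.qmem x, h.q2 x, jx.symm⟩
      rcases mem_insert.1 he with rfl | he
      · exact ⟨h.qmem y, h.q2 y, jy.symm⟩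
      · rw [mem_singleton.1 he]
        exact ⟨h.qmem z, h.q2 z, jz.symm⟩
    exact tri (not_lt.1 fun c => g2 (g3.mono hw2 c))
  by_cases hb : dd W2 (q x) + dd W2 (q y) + dd W2 (q z) ≤ 1
  · refine tri (le_trans (card_le_card (t := q x ∩ cov W2 ∪ q y ∩ cov W2 ∪ q z ∩ cov W2)
      fun v hv => ?_) (((card_union_le _ _).trans
        (Nat.add_le_add_right (card_union_le _ _) _)).trans hb))
    obtain ⟨a, b⟩ := mem_inter.1 hv
    obtain ⟨e, he, c⟩ := mem_cov.1 a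
    simp only [mem_insert, mem_singleton] at he
    rcases he with rfl | rfl | rfl <;> simp [b, c]
  have pat := fun {x y z w : Fin 4} => qtwo_pat hU h hk1 hk2 h4 ht t1 hs e2 g1 (x := x) (y := y)
    (z := z) (w := w)
  by_cases cx : dd W1 (q x) = 4
  · exact pat h1 h2 h3 h4' h5 h6 cx (by omega) (by omega) (by omega)
  by_cases cy : dd W1 (q y) = 4
  · exact pat h1.symm h4' h5 h2 h3 h6 cy (by omega) (by omega) (by omega)
  by_cases cz : dd W1 (q z) = 4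
  · exact pat h2.symm h4'.symm h6 h1 h3 h5 cz (by omega) (by omega) (by omega)
  have kxy := (h.split h6 h2.symm h4'.symm h3.symm h5.symm h1).resolve_left
    (nj z w (by omega) (by omega))
  have kxz := (h.split h5 h1.symm h4' h3.symm h6.symm h2).resolve_left
    (nj y w (by omega) (by omega))
  have kyz := (h.split h3 h1 h2 h5.symm h6.symm h4').resolve_left
    (nj x w (by omega) (by omega))
  exact absurd ((gad22 h.c2 h.s2 (h.qmem x) (h.qmem y) (h.qmem z) (h.qmem w) (h.q2 x) (h.q2 y)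
    (h.q2 z) (h.q2 w) kxy kxz jx kyz jy jz).mono (by omega) (by omega)) g2

theorem quad2Q [Infinite V] {k : ℕ} (hU : IHQ V k) {H W1 W2 : Finset (Finset V)}
    {q : Fin 4 → Finset V} (h : Quad2 H W1 W2 q) (hk1 : W1.card + 3 ≤ k) (hk2 : W2.card + 3 ≤ k)
    (h4 : ∀ v, dg H v ≤ 4) {t : V} (ht : ∀ x, t ∈ q x) (t1 : t ∉ cov W1) (t2 : t ∉ cov W2)
    (hs : ∀ x, dd W1 (q x) + dd W2 (q x) = 4) (e1 : ¬ E10 W1) (e2 : ¬ E10 W2) :
    67 * (tau W1 + tau W2) ≤ 14 * (W1.card + W2.card) +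
      11 * ((cov W1).card + (cov W2).card) + 3 * hi H H + 2 := by
  by_cases g1 : Gad W1 (dg H) 2 2
  · exact qtwo_fin hU h hk2 h4 e2 h.s1 (h.sep.disjoint h.c1.u5.ne)
      (pq_gad hU (by omega) h.c1 h.s1 h4 g1)
  by_cases g2 : Gad W2 (dg H) 2 2
  · have := qtwo_fin hU h.symm hk1 h4 e1 h.s2 (h.sep.symm.disjoint h.c2.u5.ne)
      (pq_gad hU (by omega) h.c2 h.s2 h4 g2)
    omega
  obtain ⟨x, y, z, w, h1, h2, h3, h4', h5, h6, c | c⟩ :=
    quad_num (a := fun x => dd W1 (q x)) (b := fun x => dd W2 (q x)) hs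
      (fun x y z w h1 h2 h3 h4' h5 h6 ⟨a, b, c, d⟩ =>
        (h.split h1 h2 h3 h4' h5 h6).elim
          (fun j => g1 ((gad11 h.s1 (h.qmem x) (h.qmem y) (h.q1 x) (h.q1 y) j).mono a b))
          fun j => g2 ((gad11 h.s2 (h.qmem z) (h.qmem w) (h.q2 z) (h.q2 w) j).mono c d))
      (fun x y z w => quad_nb h.symm) fun x y z w => quad_nb h
  · exact qtwo_core hU h hk1 hk2 h4 ht t1 t2 hs e2 g1 g2 h1 h2 h3 h4' h5 h6 c.1 c.2.1 c.2.2.1
      c.2.2.2.1
  · have := qtwo_core hU h.symm hk2 hk1 h4 ht t2 t1 (fun x => (add_comm _ _).trans (hs x)) e1 g2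
      g1 h1 h2 h3 h4' h5 h6 c.1 c.2.1 c.2.2.1 c.2.2.2.1
    omega

end Pool.Agent.Work.MP_d266e7_co.C5.P24
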